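import Pool.Agent.R245.WB.Stm

set_option autoImplicit false

/-!
# Facts about Schwartz functions on a product (S_ADM)
-/

open MeasureTheory Set
open scoped ENNReal RealInnerProductSpace FourierTransform SchwartzMap

namespace Pool.Agent.R245.WB

namespace ADMaux

theorem e_cont : Continuous e := by
  unfold e
  fun_prop

theorem e_norm (x : ℝ) : ‖e x‖ = 1 := by
  unfold e
  exact Complex.norm_exp_ofReal_mul_I _

theorem e_add (x y : ℝ) : e (x + y) = e x * e y := by
  unfold e
  rw [← Complex.exp_add]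
  congr 1
  push_cast
  ring

/-- the weight -/
noncomputable def w {m : ℕ} (N : ℕ) (x : E m) : ℝ := (1 + ‖x‖) ^ (-(N : ℝ))

theorem w_pos {m : ℕ} (N : ℕ) (x : E m) : 0 < w N x := by
  unfold w
  positivity

theorem w_le {m : ℕ} (N : ℕ) (x : E m) : w N x ≤ 1 := by
  unfold w
  refine Real.rpow_le_one_of_one_le_of_nonpos ?_ ?_
  · linarith [norm_nonneg x]
  · simp

theorem w_int {m : ℕ} (N : ℕ) (h : m < N) : Integrable (w (m := m) N) := by
  refine integrable_one_add_norm ?_
  rw [finrank_euclideanSpace, Fintype.card_fin]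
  exact_mod_cast h

theorem decay {k n : ℕ} (N : ℕ) (f : 𝓢(E k × E n, ℂ)) :
    ∃ C : ℝ, 0 ≤ C ∧ ∀ y x, ‖f (y, x)‖ ≤ C * (w N y * w N x) := by
  obtain ⟨C, hC⟩ : ∃ C : ℝ, ∀ z, (1 + ‖z‖) ^ (2 * N) * ‖f z‖ ≤ C := by
    refine ⟨2 ^ (2 * N) * (Finset.Iic ((2 * N, 0) : ℕ × ℕ)).sup
      (fun m => SchwartzMap.seminorm ℝ m.1 m.2) f, fun z => ?_⟩
    have h := SchwartzMap.one_add_le_sup_seminorm_apply (𝕜 := ℝ) (m := (2 * N, 0)) (k := 2 * N)
      (n := 0) le_rfl le_rfl f z
    rwa [norm_iteratedFDeriv_zero] at h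
  have hC0 : 0 ≤ C := le_trans (by positivity) (hC 0)
  refine ⟨C, hC0, fun y x => ?_⟩
  have h1 := hC (y, x)
  have h2 : (1 + ‖y‖) ^ N * (1 + ‖x‖) ^ N ≤ (1 + ‖(y, x)‖) ^ (2 * N) := by
    rw [two_mul, pow_add]
    have a1 : 1 + ‖y‖ ≤ 1 + ‖(y, x)‖ := by
      have := norm_fst_le (y, x)
      linarith
    have a2 : 1 + ‖x‖ ≤ 1 + ‖(y, x)‖ := by
      have := norm_snd_le (y, x)
      linarith
    gcongr
  have h3 : (1 + ‖y‖) ^ N * (1 + ‖x‖) ^ N * ‖f (y, x)‖ ≤ C :=
    (mul_le_mul_of_nonneg_right h2 (norm_nonneg _)).trans h1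
  have h4 : w N y * w N x = ((1 + ‖y‖) ^ N * (1 + ‖x‖) ^ N)⁻¹ := by
    unfold w
    rw [Real.rpow_neg (by positivity), Real.rpow_neg (by positivity), Real.rpow_natCast,
      Real.rpow_natCast, mul_inv]
  rw [h4, ← div_eq_mul_inv, le_div_iff₀ (by positivity)]
  linarith

end ADMaux

open ADMaux in
theorem adm_thm : S_ADM := by
  intro k n f hk hn
  obtain ⟨N, hN⟩ : ∃ N : ℕ, N = k + n + 1 := ⟨_, rfl⟩
  obtain ⟨C, hC0, hC⟩ := decay N f
  have hwk : Integrable (w (m := k) N) := w_int N (by omega)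
  have hwn : Integrable (w (m := n) N) := w_int N (by omega)
  have hfc : Continuous f := f.continuous
  have hC' : ∀ y x, ‖f (y, x)‖ ≤ C := by
    intro y x
    refine (hC y x).trans ?_
    have h1 := w_le N y
    have h2 := w_le N x
    have h3 := w_pos N y
    have h4 := w_pos N x
    have h5 : w N y * w N x ≤ 1 := by nlinarith
    nlinarith
  have hsl : ∀ x : E n, Continuous fun y : E k => f (y, x) := fun x => by fun_prop
  have hint : ∀ x : E n, Integrable (fun y : E k => f (y, x)) := by
    intro x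
    refine Integrable.mono' ((hwk.const_mul (C * w N x))) (hsl x).aestronglyMeasurable
      (Filter.Eventually.of_forall fun y => ?_)
    refine (hC y x).trans (le_of_eq ?_)
    ring
  -- integrability on the product
  have hprod : Integrable (fun z : E k × E n => f z) := by
    have h1 : Integrable (fun z : E k × E n => w N z.1 * w N z.2) := by
      rw [Measure.volume_eq_prod]
      exact hwk.mul_prod hwn
    refine Integrable.mono' (h1.const_mul C) hfc.aestronglyMeasurable
      (Filter.Eventually.of_forall fun z => ?_)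
    exact hC z.1 z.2
  refine ⟨⟨?_, fun x => (C * ∫ y : E k, w N y) * w N x, C * ∫ y : E k, w N y, hwn.const_mul _,
    fun x => ?_, fun η x => ?_⟩, ?_, fun η ξ => ?_, fun x => ⟨hint x, ?_⟩⟩
  · -- measurability
    have hc : Continuous (fun p : (E k × E n) × E k => e (-⟪p.2, p.1.1⟫) * f (p.2, p.1.2)) := by
      have := e_cont
      fun_prop
    have h1 : StronglyMeasurable (fun p : (E k × E n) × E k => e (-⟪p.2, p.1.1⟫) * f (p.2, p.1.2)) :=
      hc.stronglyMeasurable
    exact (h1.integral_prod_right' (ν := (volume : Measure (E k)))).measurable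
  · have h1 : 0 ≤ ∫ y : E k, w N y := integral_nonneg fun y => (w_pos N y).le
    exact mul_le_of_le_one_right (mul_nonneg hC0 h1) (w_le N x)
  · unfold pft
    have h1 : ‖∫ y : E k, e (-⟪y, (η, x).1⟫) * f (y, (η, x).2)‖ ≤
        ∫ y : E k, (C * w N x) * w N y := by
      refine norm_integral_le_of_norm_le (hwk.const_mul _) (Filter.Eventually.of_forall fun y => ?_)
      rw [norm_mul, e_norm, one_mul]
      refine (hC y x).trans (le_of_eq ?_)
      ring
    refine h1.trans (le_of_eq ?_)
    rw [integral_const_mul]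
    ring
  · -- the Fourier transform is integrable
    let g : 𝓢(WithLp 2 (E k × E n), ℂ) :=
      SchwartzMap.compCLMOfContinuousLinearEquiv ℂ
        (WithLp.prodContinuousLinearEquiv 2 ℝ (E k) (E n)) f
    have hmp := WithLp.volume_preserving_ofLp (E k) (E n)
    have hemb : MeasurableEmbedding (@WithLp.ofLp 2 (E k × E n)) :=
      (MeasurableEquiv.toLp 2 (E k × E n)).symm.measurableEmbedding
    have h1 : (fft k n f) ∘ (@WithLp.ofLp 2 (E k × E n)) = fun v => (𝓕 g) v := by
      funext v
      rw [SchwartzMap.fourier_coe, Real.fourier_eq']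
      show fft k n f (WithLp.ofLp v) = _
      unfold fft
      rw [← hmp.integral_comp hemb]
      refine integral_congr_ae (Filter.Eventually.of_forall fun u => ?_)
      show e (-(⟪u.ofLp.1, v.ofLp.1⟫ + ⟪u.ofLp.2, v.ofLp.2⟫)) * f u.ofLp = _
      have h2 : ⟪u, v⟫ = ⟪u.ofLp.1, v.ofLp.1⟫ + ⟪u.ofLp.2, v.ofLp.2⟫ := by
        rw [WithLp.prod_inner_apply]
      rw [← h2]
      show e (-⟪u, v⟫) * f u.ofLp =
        Complex.exp (((-2 * Real.pi * ⟪u, v⟫ : ℝ) : ℂ) * Complex.I) * f u.ofLp
      congr 1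
      unfold e
      congr 1
      push_cast
      ring
    rw [← hmp.integrable_comp_emb hemb, h1]
    exact (𝓕 g).integrable
  · -- iterated integral
    unfold fft pft
    have h1 : Integrable (fun z : E k × E n =>
        e (-(⟪z.1, (η, ξ).1⟫ + ⟪z.2, (η, ξ).2⟫)) * f z) := by
      refine Integrable.mono hprod ?_ (Filter.Eventually.of_forall fun z => ?_)
      · have := e_cont
        have hc : Continuous (fun z : E k × E n =>
            e (-(⟪z.1, (η, ξ).1⟫ + ⟪z.2, (η, ξ).2⟫)) * f z) := by fun_prop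
        exact hc.aestronglyMeasurable
      · rw [norm_mul, e_norm, one_mul]
    rw [Measure.volume_eq_prod] at h1 ⊢
    rw [integral_prod_symm _ h1]
    refine integral_congr_ae (Filter.Eventually.of_forall fun x => ?_)
    simp only
    rw [← integral_const_mul]
    refine integral_congr_ae (Filter.Eventually.of_forall fun y => ?_)
    simp only
    rw [neg_add, e_add]
    ring
  · rw [memLp_two_iff_integrable_sq_norm (hsl x).aestronglyMeasurable]
    refine Integrable.mono' ((hwk.const_mul (C * (C * w N x)))) ?_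
      (Filter.Eventually.of_forall fun y => ?_)
    · exact ((hsl x).norm.pow 2).aestronglyMeasurable
    · rw [Real.norm_of_nonneg (by positivity), sq]
      have h1 := hC' y x
      have h2 := hC y x
      calc ‖f (y, x)‖ * ‖f (y, x)‖ ≤ C * (C * (w N y * w N x)) :=
            mul_le_mul h1 h2 (norm_nonneg _) hC0
        _ = _ := by ring

end Pool.Agent.R245.WB
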