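import Pool.Agent.R245.WB.Pl

/-!
# BES: frequency localised bounds for functions in the Besov space
-/

set_option autoImplicit false

open MeasureTheory Set
open scoped ENNReal RealInnerProductSpace FourierTransform

namespace Pool.Agent.R245.WB

namespace BESaux

theorem e_add (x y : ℝ) : e (x + y) = e x * e y := by
  unfold e
  rw [← Complex.exp_add]
  congr 1
  push_cast
  ring

theorem norm_e (x : ℝ) : ‖e x‖ = 1 := by
  unfold e
  exact Complex.norm_exp_ofReal_mul_I _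

theorem cont_e : Continuous e := by
  unfold e
  fun_prop

theorem e_sub_one {x : ℝ} (hx : |x| ≤ 1 / 2) : 4 * |x| ≤ ‖e x - 1‖ := by
  have h1 : ‖e x - 1‖ = 2 * |Real.sin (Real.pi * x)| := by
    have := Complex.norm_exp_I_mul_ofReal_sub_one (2 * Real.pi * x)
    unfold e
    rw [mul_comm, this, Real.norm_eq_abs, abs_mul, abs_two]
    congr 2
    congr 1
    ring
  rw [h1]
  have hpi := Real.pi_pos
  have h2 : |Real.pi * x| ≤ Real.pi / 2 := by
    rw [abs_mul, abs_of_pos hpi]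
    nlinarith
  have h3 := Real.mul_abs_le_abs_sin h2
  have h4 : 2 / Real.pi * |Real.pi * x| = 2 * |x| := by
    rw [abs_mul, abs_of_pos hpi]
    field_simp
  linarith

/-- the Fourier transform -/
noncomputable def F {k : ℕ} (f : E k → ℂ) (η : E k) : ℂ := ∫ y : E k, e (-⟪y, η⟫) * f y

theorem int_e {k : ℕ} {f : E k → ℂ} (hf : Integrable f) (η : E k) :
    Integrable fun y : E k => e (-⟪y, η⟫) * f y := by
  refine hf.bdd_mul (c := 1) ?_ ?_
  · exact (cont_e.comp (by fun_prop)).aestronglyMeasurable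
  · exact Filter.Eventually.of_forall fun y => (norm_e _).le

theorem meas_F {k : ℕ} {f : E k → ℂ} (hf : Integrable f) : Measurable (F f) := by
  have h1 : Continuous (𝓕 f) :=
    VectorFourier.fourierIntegral_continuous Real.continuous_fourierChar
      (by exact continuous_inner) hf
  have h2 : (𝓕 f) = F f := by
    funext η
    exact fourier_eq_e f η
  rw [← h2]
  exact h1.measurable

theorem shift {k : ℕ} {f : E k → ℂ} (hf : Integrable f) (h η : E k) :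
    F (fun y => f (y + h) - f y) η = (e ⟪h, η⟫ - 1) * F f η := by
  have h1 : ∫ y : E k, e (-⟪y, η⟫) * f (y + h) = e ⟪h, η⟫ * F f η := by
    have e1 : ∀ y : E k, e (-⟪y, η⟫) * f (y + h) = (fun z => e (-⟪z - h, η⟫) * f z) (y + h) := by
      intro y
      simp only [add_sub_cancel_right]
    simp only [e1]
    rw [integral_add_right_eq_self (fun z => e (-⟪z - h, η⟫) * f z) h]
    unfold F
    rw [← integral_const_mul]
    refine integral_congr_ae (Filter.Eventually.of_forall fun z => ?_)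
    simp only
    rw [← mul_assoc, ← e_add]
    congr 2
    rw [inner_sub_left]
    ring
  have h2 : F (fun y => f (y + h) - f y) η =
      (∫ y : E k, e (-⟪y, η⟫) * f (y + h)) - ∫ y : E k, e (-⟪y, η⟫) * f y := by
    unfold F
    simp only [mul_sub]
    exact integral_sub (int_e (hf.comp_add_right h) η) (int_e hf η)
  rw [h2, h1]
  unfold F
  ring

theorem diff_bound {k : ℕ} {α : ℝ} {f : E k → ℂ} (hf : Integrable f) (hf2 : MemLp f 2) (h : E k)
    (hh : h ≠ 0) : ∫⁻ η : E k, ‖(e ⟪h, η⟫ - 1) * F f η‖ₑ ^ 2 ≤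
      bes k α f * ENNReal.ofReal (‖h‖ ^ (2 * α)) := by
  have i1 : Integrable (fun y => f (y + h) - f y) := (hf.comp_add_right h).sub hf
  have i2 : MemLp (fun y => f (y + h) - f y) 2 :=
    (hf2.comp_measurePreserving (measurePreserving_add_right volume h)).sub hf2
  have h1 := (pl_thm k _ i1 i2).1
  have h2 : ∫⁻ η : E k, ‖(e ⟪h, η⟫ - 1) * F f η‖ₑ ^ 2 = ∫⁻ y, ‖f (y + h) - f y‖ₑ ^ 2 := by
    rw [← h1]
    refine lintegral_congr fun η => ?_
    rw [← shift hf h η]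
    rfl
  rw [h2]
  have hpos : 0 < ‖h‖ ^ (2 * α) := Real.rpow_pos_of_pos (norm_pos_iff.mpr hh) _
  rw [← ENNReal.div_le_iff (by simpa using hpos) ENNReal.ofReal_ne_top]
  unfold bes
  refine le_trans ?_ (le_max_right _ _)
  exact le_iSup (fun h : {h : E k // h ≠ 0} =>
    (∫⁻ y : E k, ‖f (y + h.1) - f y‖ₑ ^ 2) / ENNReal.ofReal (‖h.1‖ ^ (2 * α))) ⟨h, hh⟩

/-- the shifts -/
noncomputable def hh {k : ℕ} (μ : ℝ) (i : Fin k) : E k := EuclideanSpace.single i (1 / (4 * μ))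

theorem norm_hh {k : ℕ} {μ : ℝ} (hμ : 0 < μ) (i : Fin k) : ‖hh μ i‖ = 1 / (4 * μ) := by
  unfold hh
  rw [EuclideanSpace.norm_single, Real.norm_eq_abs, abs_of_pos (by positivity)]

theorem hh_ne {k : ℕ} {μ : ℝ} (hμ : 0 < μ) (i : Fin k) : hh μ i ≠ 0 := by
  rw [← norm_pos_iff, norm_hh hμ]
  positivity

theorem inner_hh {k : ℕ} (μ : ℝ) (i : Fin k) (η : E k) : ⟪hh μ i, η⟫ = η i / (4 * μ) := by
  unfold hh
  rw [EuclideanSpace.inner_single_left]
  simp
  ring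

theorem coord {k : ℕ} (η : E k) (i : Fin k) : |η i| ≤ ‖η‖ := by
  have := PiLp.norm_apply_le η i
  rwa [Real.norm_eq_abs] at this

theorem low {k : ℕ} {μ : ℝ} (hμ : 0 < μ) (η : E k) (h1 : μ ≤ ‖η‖) (h2 : ‖η‖ < 2 * μ) :
    1 ≤ ∑ i : Fin k, ‖e ⟪hh μ i, η⟫ - 1‖ ^ 2 := by
  have h3 : ∀ i ∈ (Finset.univ : Finset (Fin k)), |η i| ^ 2 / μ ^ 2 ≤
      ‖e ⟪hh μ i, η⟫ - 1‖ ^ 2 := by
    intro i _
    have h4 : |η i / (4 * μ)| ≤ 1 / 2 := by
      rw [abs_div, abs_of_pos (show 0 < 4 * μ by positivity), div_le_iff₀ (by positivity)]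
      have := coord η i
      linarith
    have h5 := e_sub_one h4
    rw [inner_hh]
    have h6 : |η i| / μ ≤ ‖e (η i / (4 * μ)) - 1‖ := by
      refine le_trans (le_of_eq ?_) h5
      rw [abs_div, abs_of_pos (show 0 < 4 * μ by positivity)]
      field_simp
    rw [← div_pow]
    exact pow_le_pow_left₀ (by positivity) h6 2
  refine le_trans ?_ (Finset.sum_le_sum h3)
  rw [← Finset.sum_div, le_div_iff₀ (by positivity)]
  have h7 : ∑ i : Fin k, |η i| ^ 2 = ‖η‖ ^ 2 := by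
    rw [EuclideanSpace.norm_sq_eq]
    rfl
  rw [h7, one_mul]
  exact pow_le_pow_left₀ hμ.le h1 2

theorem low_enn {k : ℕ} {μ : ℝ} (hμ : 0 < μ) (η : E k) (h1 : μ ≤ ‖η‖) (h2 : ‖η‖ < 2 * μ)
    (c : ℂ) : ‖c‖ₑ ^ 2 ≤ ∑ i : Fin k, ‖(e ⟪hh μ i, η⟫ - 1) * c‖ₑ ^ 2 := by
  have h3 := low hμ η h1 h2
  have h4 : ‖c‖ ^ 2 ≤ ∑ i : Fin k, ‖(e ⟪hh μ i, η⟫ - 1) * c‖ ^ 2 := by
    simp only [norm_mul, mul_pow]
    rw [← Finset.sum_mul]
    nlinarith [sq_nonneg ‖c‖]
  have h5 : ∀ z : ℂ, ‖z‖ₑ ^ 2 = ENNReal.ofReal (‖z‖ ^ 2) := by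
    intro z
    rw [ENNReal.ofReal_pow (norm_nonneg _), ofReal_norm]
  simp only [h5]
  rw [← ENNReal.ofReal_sum_of_nonneg (fun i _ => by positivity)]
  exact ENNReal.ofReal_le_ofReal h4

end BESaux

open BESaux in
theorem bes_thm : S_BES := by
  intro k α hk hα
  refine ⟨k, by exact_mod_cast hk, fun f hf hf2 => ⟨?_, fun μ hμ => ?_⟩⟩
  · rw [(pl_thm k f hf hf2).1]
    exact le_max_left _ _
  · have hm : ∀ i : Fin k, Measurable fun η : E k => ‖(e ⟪hh μ i, η⟫ - 1) * F f η‖ₑ ^ 2 := by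
      intro i
      have m1 : Measurable fun η : E k => (e ⟪hh μ i, η⟫ - 1) :=
        ((cont_e.comp (by fun_prop)).sub continuous_const).measurable
      exact ((m1.mul (meas_F hf)).enorm).pow_const 2
    have hS : MeasurableSet {η : E k | μ ≤ ‖η‖ ∧ ‖η‖ < 2 * μ} :=
      (measurableSet_le measurable_const measurable_norm).inter
        (measurableSet_lt measurable_norm measurable_const)
    have h1 : ∫⁻ η in {η : E k | μ ≤ ‖η‖ ∧ ‖η‖ < 2 * μ}, ‖F f η‖ₑ ^ 2 ≤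
        ∑ i : Fin k, ∫⁻ η : E k, ‖(e ⟪hh μ i, η⟫ - 1) * F f η‖ₑ ^ 2 := by
      rw [← lintegral_finsetSum _ fun i _ => hm i]
      calc ∫⁻ η in {η : E k | μ ≤ ‖η‖ ∧ ‖η‖ < 2 * μ}, ‖F f η‖ₑ ^ 2
          ≤ ∫⁻ η in {η : E k | μ ≤ ‖η‖ ∧ ‖η‖ < 2 * μ},
            ∑ i : Fin k, ‖(e ⟪hh μ i, η⟫ - 1) * F f η‖ₑ ^ 2 :=
            setLIntegral_mono' hS fun η hη => low_enn hμ η hη.1 hη.2 _
        _ ≤ _ := setLIntegral_le_lintegral _ _
    have h2 : ∀ i ∈ (Finset.univ : Finset (Fin k)),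
        ∫⁻ η : E k, ‖(e ⟪hh μ i, η⟫ - 1) * F f η‖ₑ ^ 2 ≤
        ENNReal.ofReal (μ ^ (-(2 * α))) * bes k α f := by
      intro i _
      refine (diff_bound (α := α) hf hf2 (hh μ i) (hh_ne hμ i)).trans ?_
      rw [mul_comm]
      gcongr
      rw [norm_hh hμ, one_div, Real.inv_rpow (by positivity), ← Real.rpow_neg (by positivity)]
      refine Real.rpow_le_rpow_of_nonpos hμ (by linarith) (by linarith)
    refine h1.trans ((Finset.sum_le_sum h2).trans ?_)
    rw [Finset.sum_const, Finset.card_univ, Fintype.card_fin, nsmul_eq_mul, ← mul_assoc,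
      ENNReal.ofReal_mul (Nat.cast_nonneg k), ENNReal.ofReal_natCast]

end Pool.Agent.R245.WB
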