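import Pool.Agent.R245.WB.Stm

set_option autoImplicit false

/-! Coordinates of `ℝ^d` in an orthonormal basis indexed by `Fin k ⊕ Fin n`. -/

open MeasureTheory Set
open scoped ENNReal RealInnerProductSpace FourierTransform SchwartzMap

namespace Pool.Agent.R245.WB

/-- the point with coordinates `(y, x)` -/
noncomputable def pt {k n d : ℕ} (v : OrthonormalBasis (Fin k ⊕ Fin n) ℝ (E d)) (y : E k)
    (x : E n) : E d :=
  ∑ i, y i • v (Sum.inl i) + ∑ j, x j • v (Sum.inr j)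

/-- the linear equivalence `E k × E n ≃ ℝ^(Fin k ⊕ Fin n)` -/
noncomputable def joinL (k n : ℕ) : (E k × E n) ≃ₗ[ℝ] EuclideanSpace ℝ (Fin k ⊕ Fin n) where
  toFun z := WithLp.toLp 2 (Sum.elim (fun i => z.1 i) (fun j => z.2 j))
  map_add' z w := by
    ext i
    cases i <;> simp
  map_smul' c z := by
    ext i
    cases i <;> simp
  invFun w := (WithLp.toLp 2 fun i => w (Sum.inl i), WithLp.toLp 2 fun j => w (Sum.inr j))
  left_inv z := by
    ext i <;> simp
  right_inv w := by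
    ext i
    cases i <;> simp

/-- the linear equivalence `E k × E n ≃ E d` given by an orthonormal basis -/
noncomputable def UL {k n d : ℕ} (v : OrthonormalBasis (Fin k ⊕ Fin n) ℝ (E d)) :
    (E k × E n) ≃L[ℝ] E d :=
  (joinL k n).toContinuousLinearEquiv.trans v.repr.symm.toContinuousLinearEquiv

theorem UL_apply {k n d : ℕ} (v : OrthonormalBasis (Fin k ⊕ Fin n) ℝ (E d)) (z : E k × E n) :
    UL v z = pt v z.1 z.2 := by
  have h : UL v z = v.repr.symm (joinL k n z) := rfl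
  rw [h, ← v.sum_repr_symm, Fintype.sum_sum_type, pt]
  rfl

theorem inner_UL {k n d : ℕ} (v : OrthonormalBasis (Fin k ⊕ Fin n) ℝ (E d)) (z w : E k × E n) :
    ⟪UL v z, UL v w⟫ = ⟪z.1, w.1⟫ + ⟪z.2, w.2⟫ := by
  have h : ∀ z, UL v z = v.repr.symm (joinL k n z) := fun _ => rfl
  rw [h, h, LinearIsometryEquiv.inner_map_map]
  simp only [PiLp.inner_apply, Fintype.sum_sum_type]
  rfl

theorem norm_UL {k n d : ℕ} (v : OrthonormalBasis (Fin k ⊕ Fin n) ℝ (E d)) (z : E k × E n) :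
    ‖UL v z‖ = Real.sqrt (‖z.1‖ ^ 2 + ‖z.2‖ ^ 2) := by
  rw [norm_eq_sqrt_real_inner, inner_UL, real_inner_self_eq_norm_sq, real_inner_self_eq_norm_sq]

theorem mp_join (k n : ℕ) : MeasurePreserving (joinL k n) volume volume := by
  have h1 : MeasurePreserving (fun z : E k × E n => (WithLp.ofLp z.1, WithLp.ofLp z.2))
      (volume : Measure (E k × E n)) (volume : Measure ((Fin k → ℝ) × (Fin n → ℝ))) :=
    (PiLp.volume_preserving_ofLp (Fin k)).prod (PiLp.volume_preserving_ofLp (Fin n))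
  have h2 := volume_measurePreserving_sumPiEquivProdPi_symm (fun _ : Fin k ⊕ Fin n => ℝ)
  have h3 := PiLp.volume_preserving_toLp (Fin k ⊕ Fin n)
  have h := h3.comp (h2.comp h1)
  have hf : (joinL k n : E k × E n → EuclideanSpace ℝ (Fin k ⊕ Fin n)) =
      (WithLp.toLp 2 : (Fin k ⊕ Fin n → ℝ) → EuclideanSpace ℝ (Fin k ⊕ Fin n)) ∘
        (MeasurableEquiv.sumPiEquivProdPi fun _ : Fin k ⊕ Fin n => ℝ).symm ∘
        (fun z : E k × E n => (WithLp.ofLp z.1, WithLp.ofLp z.2)) := by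
    funext z
    ext i
    cases i <;> rfl
  rw [hf]
  exact h

theorem mp_UL {k n d : ℕ} (v : OrthonormalBasis (Fin k ⊕ Fin n) ℝ (E d)) :
    MeasurePreserving (UL v) volume volume :=
  v.measurePreserving_repr_symm.comp (mp_join k n)

theorem me_UL {k n d : ℕ} (v : OrthonormalBasis (Fin k ⊕ Fin n) ℝ (E d)) :
    MeasurableEmbedding (UL v) :=
  (UL v).toHomeomorph.measurableEmbedding

/-- change of variables -/
theorem int_UL {k n d : ℕ} (v : OrthonormalBasis (Fin k ⊕ Fin n) ℝ (E d)) (F : E d → ℂ) :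
    ∫ z : E k × E n, F (UL v z) = ∫ z, F z :=
  (mp_UL v).integral_comp (me_UL v) F

theorem lint_UL {k n d : ℕ} (v : OrthonormalBasis (Fin k ⊕ Fin n) ℝ (E d)) (F : E d → ℝ≥0∞) :
    ∫⁻ z : E k × E n, F (UL v z) = ∫⁻ z, F z :=
  (mp_UL v).lintegral_comp_emb (me_UL v) F

/-- the Schwartz function in coordinates -/
noncomputable def fU {k n d : ℕ} (v : OrthonormalBasis (Fin k ⊕ Fin n) ℝ (E d))
    (f : 𝓢(E d, ℂ)) : 𝓢(E k × E n, ℂ) :=
  SchwartzMap.compCLMOfContinuousLinearEquiv ℂ (UL v) f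

theorem fU_apply {k n d : ℕ} (v : OrthonormalBasis (Fin k ⊕ Fin n) ℝ (E d))
    (f : 𝓢(E d, ℂ)) (z : E k × E n) : fU v f z = f (UL v z) := rfl

theorem four_eq {d : ℕ} (f : E d → ℂ) (η : E d) :
    𝓕 f η = ∫ y : E d, e (-⟪y, η⟫) * f y := by
  rw [Real.fourier_eq']
  refine integral_congr_ae (Filter.Eventually.of_forall fun y => ?_)
  simp only [e, smul_eq_mul]
  congr 2
  push_cast
  ring

theorem fft_fU {k n d : ℕ} (v : OrthonormalBasis (Fin k ⊕ Fin n) ℝ (E d))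
    (f : 𝓢(E d, ℂ)) (w : E k × E n) : fft k n (fU v f) w = 𝓕 (f : E d → ℂ) (UL v w) := by
  rw [four_eq, ← int_UL v]
  simp only [fft, fU_apply, inner_UL]

/-- multiplier operator with symbol `m(|ζ|)` on `ℝ^d` -/
noncomputable def mu {d : ℕ} (m : ℝ → ℝ) (f : E d → ℂ) (z : E d) : ℂ :=
  ∫ ζ : E d, e ⟪z, ζ⟫ * (((m ‖ζ‖ : ℝ) : ℂ) * 𝓕 f ζ)

theorem mult_fU {k n d : ℕ} (v : OrthonormalBasis (Fin k ⊕ Fin n) ℝ (E d)) (m : ℝ → ℝ)
    (f : 𝓢(E d, ℂ)) (z : E k × E n) :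
    mult k n m (fU v f) z = mu m (f : E d → ℂ) (UL v z) := by
  rw [mu, ← int_UL v]
  simp only [mult, fft_fU, inner_UL, norm_UL]

end Pool.Agent.R245.WB
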