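import Pool.Agent.R245.WB.Stm

set_option autoImplicit false

/-! Project WB, piece DC: the cosine symbol. -/

open MeasureTheory Set
open scoped ENNReal RealInnerProductSpace

namespace Pool.Agent.R245.WB

namespace DCaux

/-- `1 + 4π²r²` -/
noncomputable def q (r : ℝ) : ℝ := 1 + 4 * Real.pi ^ 2 * r ^ 2

/-- the amplitude -/
noncomputable def be (s r : ℝ) : ℝ := (1 + 4 * Real.pi ^ 2 * r ^ 2) ^ (-(s / 2))

lemma q_pos (r : ℝ) : 0 < q r := by unfold q; positivity

lemma q_ge (r : ℝ) : 1 ≤ q r := by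
  have : 0 ≤ 4 * Real.pi ^ 2 * r ^ 2 := by positivity
  unfold q
  linarith

lemma q_der (r : ℝ) : HasDerivAt q (8 * Real.pi ^ 2 * r) r := by
  have h := ((hasDerivAt_pow 2 r).const_mul (4 * Real.pi ^ 2)).const_add 1
  refine h.congr_deriv ?_
  norm_num
  ring

lemma be_der (s r : ℝ) :
    HasDerivAt (be s) (-(s / 2) * (8 * Real.pi ^ 2 * r) * (q r ^ (-(s / 2)) / q r)) r := by
  have h := (q_der r).rpow_const (p := -(s / 2)) (Or.inl (q_pos r).ne')
  rw [Real.rpow_sub_one (q_pos r).ne'] at h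
  refine h.congr_deriv ?_
  ring

lemma be_deriv (s : ℝ) : deriv (be s) =
    fun r => -(s / 2) * (8 * Real.pi ^ 2 * r) * (q r ^ (-(s / 2)) / q r) := by
  funext r
  exact (be_der s r).deriv

lemma be_der2 (s r : ℝ) : HasDerivAt (deriv (be s))
    (-(s / 2) * (8 * Real.pi ^ 2) * (q r ^ (-(s / 2)) / q r) +
      (s / 2) * (s / 2 + 1) * (8 * Real.pi ^ 2 * r) ^ 2 * (q r ^ (-(s / 2)) / q r / q r)) r := by
  have e : deriv (be s) =
      fun r => (-(s / 2) * (8 * Real.pi ^ 2) * r) * (q r ^ (-(s / 2) - 1)) := by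
    rw [be_deriv]
    funext r
    rw [Real.rpow_sub_one (q_pos r).ne']
    ring
  rw [e]
  have h1 : HasDerivAt (fun r : ℝ => -(s / 2) * (8 * Real.pi ^ 2) * r)
      (-(s / 2) * (8 * Real.pi ^ 2)) r := by
    have := (hasDerivAt_id r).const_mul (-(s / 2) * (8 * Real.pi ^ 2))
    simpa using this
  have h2 := (q_der r).rpow_const (p := -(s / 2) - 1) (Or.inl (q_pos r).ne')
  have h := h1.mul h2
  simp only [Real.rpow_sub_one (q_pos r).ne'] at h
  refine h.congr_deriv ?_
  ring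

lemma cos_der (t r : ℝ) : HasDerivAt (fun r : ℝ => Real.cos (2 * Real.pi * (t * r)))
    (-Real.sin (2 * Real.pi * (t * r)) * (2 * Real.pi * t)) r := by
  have h1 : HasDerivAt (fun r : ℝ => 2 * Real.pi * (t * r)) (2 * Real.pi * t) r := by
    have := ((hasDerivAt_id r).const_mul t).const_mul (2 * Real.pi)
    simpa [mul_assoc] using this
  exact h1.cos

lemma sin_der (t r : ℝ) : HasDerivAt (fun r : ℝ => Real.sin (2 * Real.pi * (t * r)))
    (Real.cos (2 * Real.pi * (t * r)) * (2 * Real.pi * t)) r := by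
  have h1 : HasDerivAt (fun r : ℝ => 2 * Real.pi * (t * r)) (2 * Real.pi * t) r := by
    have := ((hasDerivAt_id r).const_mul t).const_mul (2 * Real.pi)
    simpa [mul_assoc] using this
  exact h1.sin

lemma mc_deriv (s t : ℝ) : deriv (mc s t) = fun r =>
    -Real.sin (2 * Real.pi * (t * r)) * (2 * Real.pi * t) * be s r +
      Real.cos (2 * Real.pi * (t * r)) * deriv (be s) r := by
  funext r
  have hb : HasDerivAt (be s) (deriv (be s) r) r := (be_der s r).differentiableAt.hasDerivAt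
  exact ((cos_der t r).mul hb).deriv

lemma mc_deriv2 (s t r : ℝ) : deriv (deriv (mc s t)) r =
    -Real.cos (2 * Real.pi * (t * r)) * (2 * Real.pi * t) ^ 2 * be s r +
      2 * (-Real.sin (2 * Real.pi * (t * r)) * (2 * Real.pi * t)) * deriv (be s) r +
      Real.cos (2 * Real.pi * (t * r)) * deriv (deriv (be s)) r := by
  rw [mc_deriv]
  have hb : HasDerivAt (be s) (deriv (be s) r) r := (be_der s r).differentiableAt.hasDerivAt
  have hb2 : HasDerivAt (deriv (be s)) (deriv (deriv (be s)) r) r :=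
    (be_der2 s r).differentiableAt.hasDerivAt
  have h1 : HasDerivAt (fun r : ℝ => -Real.sin (2 * Real.pi * (t * r)) * (2 * Real.pi * t))
      (-(Real.cos (2 * Real.pi * (t * r)) * (2 * Real.pi * t)) * (2 * Real.pi * t)) r :=
    (sin_der t r).neg.mul_const (2 * Real.pi * t)
  have h := (h1.mul hb).add ((cos_der t r).mul hb2)
  have h' := h.deriv
  have e : (fun r => -Real.sin (2 * Real.pi * (t * r)) * (2 * Real.pi * t) * be s r +
      Real.cos (2 * Real.pi * (t * r)) * deriv (be s) r) =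
      ((fun r : ℝ => -Real.sin (2 * Real.pi * (t * r)) * (2 * Real.pi * t)) * be s +
        (fun r : ℝ => Real.cos (2 * Real.pi * (t * r))) * deriv (be s)) := by
    funext r
    rfl
  rw [e, h']
  ring

lemma W_pos (s r : ℝ) : 0 < q r ^ (-(s / 2)) := Real.rpow_pos_of_pos (q_pos r) _

lemma W_le_one {s : ℝ} (hs : 0 ≤ s) (r : ℝ) : q r ^ (-(s / 2)) ≤ 1 :=
  Real.rpow_le_one_of_one_le_of_nonpos (q_ge r) (by linarith)

lemma pi_sq_ge : 1 ≤ 4 * Real.pi ^ 2 := by nlinarith [Real.pi_gt_three]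

lemma W_le {s r : ℝ} (hs : 0 ≤ s) (hr : 0 < r) : q r ^ (-(s / 2)) ≤ r ^ (-s) := by
  have h1 : r ^ 2 ≤ q r := by
    unfold q
    nlinarith [pi_sq_ge, sq_nonneg r]
  have h2 := Real.rpow_le_rpow_of_nonpos (by positivity) h1 (show -(s / 2) ≤ 0 by linarith)
  refine h2.trans (le_of_eq ?_)
  rw [← Real.rpow_two, ← Real.rpow_mul hr.le]
  congr 1
  ring

/-- `4π²r²/q` -/
lemma x_le (r : ℝ) : 4 * Real.pi ^ 2 * r ^ 2 / q r ≤ 1 := by
  rw [div_le_one (q_pos r)]
  unfold q
  linarith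

lemma x_nonneg (r : ℝ) : 0 ≤ 4 * Real.pi ^ 2 * r ^ 2 / q r :=
  div_nonneg (by positivity) (q_pos r).le

lemma be_large {s r : ℝ} (hs : 0 ≤ s) (hr : 0 < r) :
    |be s r| ≤ r ^ (-s) ∧ |deriv (be s) r| ≤ s * (r ^ (-s) / r) ∧
      |deriv (deriv (be s)) r| ≤ (s + s * (s + 2)) * (r ^ (-s) / r ^ 2) := by
  have hq := q_pos r
  have hW := W_pos s r
  have hWr := W_le hs hr
  have hx1 := x_le r
  have hx0 := x_nonneg r
  set W := q r ^ (-(s / 2)) with hWdef
  set x := 4 * Real.pi ^ 2 * r ^ 2 / q r with hxdef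
  have hr' : 0 < r ^ (-s) := Real.rpow_pos_of_pos hr _
  refine ⟨?_, ?_, ?_⟩
  · have e : be s r = W := rfl
    rw [e, abs_of_pos hW]
    exact hWr
  · have e : deriv (be s) r = -(s * x * (W / r)) := by
      rw [be_deriv, hxdef, hWdef]
      field_simp
      ring
    rw [e, abs_neg, abs_of_nonneg (by positivity)]
    have h1 : W / r ≤ r ^ (-s) / r := div_le_div_of_nonneg_right hWr hr.le
    calc s * x * (W / r) ≤ s * 1 * (r ^ (-s) / r) := by
          apply mul_le_mul _ h1 (by positivity) (by positivity)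
          exact mul_le_mul_of_nonneg_left hx1 hs
      _ = s * (r ^ (-s) / r) := by ring
  · have e : deriv (deriv (be s)) r = -(s * x * (W / r ^ 2)) + s * (s + 2) * x ^ 2 * (W / r ^ 2) := by
      rw [(be_der2 s r).deriv, hxdef, hWdef]
      field_simp
      ring
    have h1 : W / r ^ 2 ≤ r ^ (-s) / r ^ 2 := div_le_div_of_nonneg_right hWr (by positivity)
    have h2 : 0 ≤ W / r ^ 2 := by positivity
    have h3 : x ^ 2 ≤ 1 := by nlinarith
    have a1 : s * x * (W / r ^ 2) ≤ s * (r ^ (-s) / r ^ 2) := by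
      calc s * x * (W / r ^ 2) ≤ s * 1 * (r ^ (-s) / r ^ 2) := by
            apply mul_le_mul _ h1 (by positivity) (by positivity)
            exact mul_le_mul_of_nonneg_left hx1 hs
        _ = _ := by ring
    have a2 : s * (s + 2) * x ^ 2 * (W / r ^ 2) ≤ s * (s + 2) * (r ^ (-s) / r ^ 2) := by
      calc s * (s + 2) * x ^ 2 * (W / r ^ 2) ≤ s * (s + 2) * 1 * (r ^ (-s) / r ^ 2) := by
            apply mul_le_mul _ h1 (by positivity) (by positivity)
            exact mul_le_mul_of_nonneg_left h3 (by positivity)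
        _ = _ := by ring
    rw [e]
    calc |-(s * x * (W / r ^ 2)) + s * (s + 2) * x ^ 2 * (W / r ^ 2)| ≤
          |-(s * x * (W / r ^ 2))| + |s * (s + 2) * x ^ 2 * (W / r ^ 2)| := abs_add_le _ _
      _ = s * x * (W / r ^ 2) + s * (s + 2) * x ^ 2 * (W / r ^ 2) := by
          rw [abs_neg, abs_of_nonneg (by positivity), abs_of_nonneg (by positivity)]
      _ ≤ s * (r ^ (-s) / r ^ 2) + s * (s + 2) * (r ^ (-s) / r ^ 2) := add_le_add a1 a2
      _ = _ := by ring

lemma be_small {s r : ℝ} (hs : 0 ≤ s) (hr : 0 < r) (hr2 : r ≤ 2) :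
    |be s r| ≤ 1 ∧ |deriv (be s) r| ≤ s * (4 * Real.pi ^ 2) * r ∧
      |deriv (deriv (be s)) r| ≤ s * (4 * Real.pi ^ 2) +
        s * (s + 2) * (8 * Real.pi ^ 2) ^ 2 := by
  have hq := q_pos r
  have hq1 := q_ge r
  have hW := W_pos s r
  have hW1 := W_le_one hs r
  have hpi := Real.pi_pos
  have h1 : q r ^ (-(s / 2)) / q r ≤ 1 := by
    rw [div_le_one hq]
    exact hW1.trans hq1
  have h2 : q r ^ (-(s / 2)) / q r / q r ≤ 1 := by
    rw [div_le_one hq]
    exact h1.trans hq1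
  have h10 : 0 < q r ^ (-(s / 2)) / q r := div_pos hW hq
  have h20 : 0 < q r ^ (-(s / 2)) / q r / q r := div_pos h10 hq
  refine ⟨?_, ?_, ?_⟩
  · have e : be s r = q r ^ (-(s / 2)) := rfl
    rw [e, abs_of_pos hW]
    exact hW1
  · rw [be_deriv]
    have e : -(s / 2) * (8 * Real.pi ^ 2 * r) * (q r ^ (-(s / 2)) / q r) =
        -(s * (4 * Real.pi ^ 2) * r * (q r ^ (-(s / 2)) / q r)) := by ring
    simp only [e, abs_neg]
    rw [abs_of_nonneg (by positivity)]
    calc s * (4 * Real.pi ^ 2) * r * (q r ^ (-(s / 2)) / q r) ≤ s * (4 * Real.pi ^ 2) * r * 1 :=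
          mul_le_mul_of_nonneg_left h1 (by positivity)
      _ = _ := by ring
  · rw [(be_der2 s r).deriv]
    have e : -(s / 2) * (8 * Real.pi ^ 2) * (q r ^ (-(s / 2)) / q r) +
      (s / 2) * (s / 2 + 1) * (8 * Real.pi ^ 2 * r) ^ 2 * (q r ^ (-(s / 2)) / q r / q r) =
      -(s * (4 * Real.pi ^ 2) * (q r ^ (-(s / 2)) / q r)) +
        s * (s + 2) * (4 * Real.pi ^ 2 * r) ^ 2 * (q r ^ (-(s / 2)) / q r / q r) := by ring
    rw [e]
    have hr8 : (4 * Real.pi ^ 2 * r) ^ 2 ≤ (8 * Real.pi ^ 2) ^ 2 := by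
      apply pow_le_pow_left₀ (by positivity)
      nlinarith [sq_nonneg Real.pi, Real.pi_pos]
    calc |-(s * (4 * Real.pi ^ 2) * (q r ^ (-(s / 2)) / q r)) +
        s * (s + 2) * (4 * Real.pi ^ 2 * r) ^ 2 * (q r ^ (-(s / 2)) / q r / q r)| ≤
        |-(s * (4 * Real.pi ^ 2) * (q r ^ (-(s / 2)) / q r))| +
        |s * (s + 2) * (4 * Real.pi ^ 2 * r) ^ 2 * (q r ^ (-(s / 2)) / q r / q r)| :=
          abs_add_le _ _
      _ = s * (4 * Real.pi ^ 2) * (q r ^ (-(s / 2)) / q r) +
        s * (s + 2) * (4 * Real.pi ^ 2 * r) ^ 2 * (q r ^ (-(s / 2)) / q r / q r) := by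
          rw [abs_neg, abs_of_nonneg (by positivity), abs_of_nonneg (by positivity)]
      _ ≤ s * (4 * Real.pi ^ 2) * 1 + s * (s + 2) * (8 * Real.pi ^ 2) ^ 2 * 1 := by
          apply add_le_add
          · exact mul_le_mul_of_nonneg_left h1 (by positivity)
          · apply mul_le_mul _ h2 h20.le (by positivity)
            exact mul_le_mul_of_nonneg_left hr8 (by positivity)
      _ = _ := by ring

lemma mc_small {s t r : ℝ} (hs : 0 ≤ s) (ht1 : 1 ≤ t) (ht2 : t ≤ 2) (hr : 0 < r) (hr2 : r ≤ 2) :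
    |mc s t r| ≤ 1 ∧ |deriv (mc s t) r| ≤ ((4 * Real.pi) ^ 2 + s * (4 * Real.pi ^ 2)) * r ∧
      |deriv (deriv (mc s t)) r| ≤ (4 * Real.pi) ^ 2 + 2 * (4 * Real.pi) *
        (s * (4 * Real.pi ^ 2) * 2) + (s * (4 * Real.pi ^ 2) +
        s * (s + 2) * (8 * Real.pi ^ 2) ^ 2) := by
  obtain ⟨b0, b1, b2⟩ := be_small hs hr hr2
  have hpi := Real.pi_pos
  have hw0 : 0 ≤ 2 * Real.pi * t := by positivity
  have hw : 2 * Real.pi * t ≤ 4 * Real.pi := by nlinarith
  have hc : |Real.cos (2 * Real.pi * (t * r))| ≤ 1 := Real.abs_cos_le_one _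
  have hsn : |Real.sin (2 * Real.pi * (t * r))| ≤ 1 := Real.abs_sin_le_one _
  have hsn2 : |Real.sin (2 * Real.pi * (t * r))| ≤ 4 * Real.pi * r := by
    refine Real.abs_sin_le_abs.trans ?_
    rw [abs_of_nonneg (by positivity)]
    nlinarith [mul_pos hpi hr]
  refine ⟨?_, ?_, ?_⟩
  · have e : mc s t r = Real.cos (2 * Real.pi * (t * r)) * be s r := rfl
    rw [e, abs_mul]
    exact mul_le_one₀ hc (abs_nonneg _) b0
  · rw [mc_deriv]
    simp only
    calc |-Real.sin (2 * Real.pi * (t * r)) * (2 * Real.pi * t) * be s r +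
          Real.cos (2 * Real.pi * (t * r)) * deriv (be s) r| ≤
          |-Real.sin (2 * Real.pi * (t * r)) * (2 * Real.pi * t) * be s r| +
          |Real.cos (2 * Real.pi * (t * r)) * deriv (be s) r| := abs_add_le _ _
      _ = |Real.sin (2 * Real.pi * (t * r))| * (2 * Real.pi * t) * |be s r| +
          |Real.cos (2 * Real.pi * (t * r))| * |deriv (be s) r| := by
          rw [abs_mul (-Real.sin (2 * Real.pi * (t * r)) * (2 * Real.pi * t)),
            abs_mul (-Real.sin (2 * Real.pi * (t * r))), abs_neg, abs_of_nonneg hw0,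
            abs_mul (Real.cos (2 * Real.pi * (t * r)))]
      _ ≤ (4 * Real.pi * r) * (4 * Real.pi) * 1 + 1 * (s * (4 * Real.pi ^ 2) * r) := by
          apply add_le_add
          · apply mul_le_mul _ b0 (abs_nonneg _) (by positivity)
            exact mul_le_mul hsn2 hw hw0 (by positivity)
          · exact mul_le_mul hc b1 (abs_nonneg _) (by norm_num)
      _ = _ := by ring
  · rw [mc_deriv2]
    have b1' : |deriv (be s) r| ≤ s * (4 * Real.pi ^ 2) * 2 :=
      b1.trans (mul_le_mul_of_nonneg_left hr2 (by positivity))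
    calc |-Real.cos (2 * Real.pi * (t * r)) * (2 * Real.pi * t) ^ 2 * be s r +
          2 * (-Real.sin (2 * Real.pi * (t * r)) * (2 * Real.pi * t)) * deriv (be s) r +
          Real.cos (2 * Real.pi * (t * r)) * deriv (deriv (be s)) r| ≤
          |-Real.cos (2 * Real.pi * (t * r)) * (2 * Real.pi * t) ^ 2 * be s r| +
          |2 * (-Real.sin (2 * Real.pi * (t * r)) * (2 * Real.pi * t)) * deriv (be s) r| +
          |Real.cos (2 * Real.pi * (t * r)) * deriv (deriv (be s)) r| := abs_add_three _ _ _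
      _ = |Real.cos (2 * Real.pi * (t * r))| * (2 * Real.pi * t) ^ 2 * |be s r| +
          2 * (|Real.sin (2 * Real.pi * (t * r))| * (2 * Real.pi * t)) * |deriv (be s) r| +
          |Real.cos (2 * Real.pi * (t * r))| * |deriv (deriv (be s)) r| := by
          rw [abs_mul, abs_mul, abs_neg, abs_of_nonneg (sq_nonneg (2 * Real.pi * t)), abs_mul,
            abs_mul, abs_mul, abs_neg, abs_of_nonneg hw0, abs_mul, abs_two]
      _ ≤ 1 * (4 * Real.pi) ^ 2 * 1 + 2 * (1 * (4 * Real.pi)) * (s * (4 * Real.pi ^ 2) * 2) +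
          1 * (s * (4 * Real.pi ^ 2) + s * (s + 2) * (8 * Real.pi ^ 2) ^ 2) := by
          apply add_le_add (add_le_add _ _) _
          · apply mul_le_mul _ b0 (abs_nonneg _) (by positivity)
            exact mul_le_mul hc (pow_le_pow_left₀ hw0 hw 2) (by positivity) (by norm_num)
          · apply mul_le_mul _ b1' (abs_nonneg _) (by positivity)
            apply mul_le_mul_of_nonneg_left _ (by norm_num)
            exact mul_le_mul hsn hw hw0 (by norm_num)
          · exact mul_le_mul hc b2 (abs_nonneg _) (by norm_num)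
      _ = _ := by ring

end DCaux

open DCaux in
theorem dc_thm (h : S_DEC) : S_DC := by
  intro n s hn hs
  have hpi := Real.pi_pos
  set c2 : ℝ := s with hc2
  set c3 : ℝ := s + s * (s + 2) with hc3
  set c5 : ℝ := (4 * Real.pi) ^ 2 + s * (4 * Real.pi ^ 2) with hc5
  set c6 : ℝ := (4 * Real.pi) ^ 2 + 2 * (4 * Real.pi) *
        (s * (4 * Real.pi ^ 2) * 2) + (s * (4 * Real.pi ^ 2) +
        s * (s + 2) * (8 * Real.pi ^ 2) ^ 2) with hc6
  have h3 : 0 ≤ c3 := by positivity
  have h5 : 0 ≤ c5 := by positivity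
  have h6 : 0 ≤ c6 := by positivity
  obtain ⟨C, hC, hmain⟩ := h n s (1 + s + c3 + c5 + c6) hn hs (by positivity)
  refine ⟨C, hC, fun t ht1 ht2 => ?_⟩
  apply hmain t (mc s t) (be s) ht1 ht2
  · apply ContDiff.contDiffOn
    unfold be
    apply ContDiff.rpow_const_of_ne
    · fun_prop
    · intro x
      exact (q_pos x).ne'
  · left
    intro r _
    rfl
  · intro r hr
    have hr0 : 0 < r := by linarith
    obtain ⟨b0, b1, b2⟩ := be_large hs hr0
    have hrs : 0 < r ^ (-s) := Real.rpow_pos_of_pos hr0 _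
    refine ⟨b0.trans ?_, b1.trans ?_, b2.trans ?_⟩
    · nlinarith
    · rw [Real.rpow_sub_one hr0.ne']
      apply mul_le_mul_of_nonneg_right _ (by positivity)
      linarith
    · rw [Real.rpow_sub hr0, Real.rpow_two]
      apply mul_le_mul_of_nonneg_right _ (by positivity)
      linarith
  · intro r hr0 hr2
    obtain ⟨b0, b1, b2⟩ := mc_small hs ht1 ht2 hr0 hr2
    refine ⟨b0.trans ?_, b1.trans ?_, b2.trans ?_⟩
    · linarith
    · apply mul_le_mul_of_nonneg_right _ hr0.le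
      linarith
    · linarith

end Pool.Agent.R245.WB
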