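import Pool.Agent.R245.WB.Stm

set_option autoImplicit false

/-!
# DEC: the dyadic decomposition of a symbol
-/

open Set Filter Topology

namespace Pool.Agent.R245.WB

namespace DECaux

/-! ### the cut-off functions -/

/-- the cut-off -/
noncomputable def th (r : ℝ) : ℝ := Real.smoothTransition (2 - r)

theorem th_contDiff {k : ℕ∞} : ContDiff ℝ k th :=
  Real.smoothTransition.contDiff.comp (contDiff_const.sub contDiff_id)

theorem th_one {r : ℝ} (h : r ≤ 1) : th r = 1 :=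
  Real.smoothTransition.one_of_one_le (by linarith)

theorem th_zero {r : ℝ} (h : 2 ≤ r) : th r = 0 :=
  Real.smoothTransition.zero_of_nonpos (by linarith)

theorem th_nonneg (r : ℝ) : 0 ≤ th r := Real.smoothTransition.nonneg _

theorem th_le_one (r : ℝ) : th r ≤ 1 := Real.smoothTransition.le_one _

theorem th_anti {r s : ℝ} (h : r ≤ s) : th s ≤ th r :=
  Real.smoothTransition.monotone (by linarith)

/-- the dyadic cut-off -/
noncomputable def ps (x : ℝ) : ℝ := th x - th (2 * x)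

theorem ps_contDiff {k : ℕ∞} : ContDiff ℝ k ps :=
  th_contDiff.sub (th_contDiff.comp (contDiff_const.mul contDiff_id))

theorem ps_low {x : ℝ} (h : x ≤ 1 / 2) : ps x = 0 := by
  unfold ps
  rw [th_one (by linarith), th_one (by linarith), sub_self]

theorem ps_high {x : ℝ} (h : 2 ≤ x) : ps x = 0 := by
  unfold ps
  rw [th_zero (by linarith), th_zero (by linarith), sub_self]

theorem ps_nonneg {x : ℝ} (h : 0 ≤ x) : 0 ≤ ps x := by
  unfold ps
  have := th_anti (r := x) (s := 2 * x) (by linarith)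
  linarith

theorem bdd_of {f : ℝ → ℝ} (hf : Continuous f) (a b : ℝ) (h : ∀ x, x < a ∨ b < x → f x = 0) :
    ∃ D : ℝ, ∀ x, |f x| ≤ D := by
  obtain ⟨D, hD⟩ := (HasCompactSupport.intro (isCompact_Icc (a := a) (b := b))
    (fun x hx => h x (by
      by_contra hc
      push Not at hc
      exact hx ⟨hc.1, hc.2⟩))).exists_bound_of_continuous hf
  exact ⟨D, fun x => hD x⟩

theorem deriv_zero {f : ℝ → ℝ} {U : Set ℝ} (hU : IsOpen U) {k x : ℝ} (h : ∀ y ∈ U, f y = k)
    (hx : x ∈ U) : deriv f x = 0 := by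
  have e : f =ᶠ[𝓝 x] fun _ => k := by
    filter_upwards [hU.mem_nhds hx] with y hy
    exact h y hy
  rw [e.deriv_eq, deriv_const]

theorem cd_deriv {f : ℝ → ℝ} (h : ∀ k : ℕ, ContDiff ℝ k f) : ∀ k : ℕ, ContDiff ℝ k (deriv f) := by
  intro k
  have h1 : ContDiff ℝ ((k : WithTop ℕ∞) + 1) f := by exact_mod_cast h (k + 1)
  exact (contDiff_succ_iff_deriv.1 h1).2.2

theorem th_d1_zero {x : ℝ} (h : x < 1 ∨ 2 < x) : deriv th x = 0 := by
  rcases h with h | h
  · exact deriv_zero (U := Iio 1) isOpen_Iio (k := 1) (fun y hy => th_one (le_of_lt hy)) h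
  · exact deriv_zero (U := Ioi 2) isOpen_Ioi (k := 0) (fun y hy => th_zero (le_of_lt hy)) h

theorem th_d2_zero {x : ℝ} (h : x < 1 ∨ 2 < x) : deriv (deriv th) x = 0 := by
  rcases h with h | h
  · exact deriv_zero (U := Iio 1) isOpen_Iio (k := 0) (fun y hy => th_d1_zero (Or.inl hy)) h
  · exact deriv_zero (U := Ioi 2) isOpen_Ioi (k := 0) (fun y hy => th_d1_zero (Or.inr hy)) h

theorem ps_d1_zero {x : ℝ} (h : x < 1 / 2 ∨ 2 < x) : deriv ps x = 0 := by
  rcases h with h | h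
  · exact deriv_zero (U := Iio (1 / 2)) isOpen_Iio (k := 0) (fun y hy => ps_low (le_of_lt hy)) h
  · exact deriv_zero (U := Ioi 2) isOpen_Ioi (k := 0) (fun y hy => ps_high (le_of_lt hy)) h

theorem ps_d2_zero {x : ℝ} (h : x < 1 / 2 ∨ 2 < x) : deriv (deriv ps) x = 0 := by
  rcases h with h | h
  · exact deriv_zero (U := Iio (1 / 2)) isOpen_Iio (k := 0) (fun y hy => ps_d1_zero (Or.inl hy)) h
  · exact deriv_zero (U := Ioi 2) isOpen_Ioi (k := 0) (fun y hy => ps_d1_zero (Or.inr hy)) h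

theorem exists_D : ∃ D : ℝ, 1 ≤ D ∧ (∀ x, |ps x| ≤ D) ∧ (∀ x, |deriv ps x| ≤ D) ∧
    (∀ x, |deriv (deriv ps) x| ≤ D) ∧ (∀ x, |deriv th x| ≤ D) ∧
    ∀ x, |deriv (deriv th) x| ≤ D := by
  have hth : ∀ k : ℕ, ContDiff ℝ k th := fun k => by
    have := th_contDiff (k := (k : ℕ∞)); exact_mod_cast this
  have hps : ∀ k : ℕ, ContDiff ℝ k ps := fun k => by
    have := ps_contDiff (k := (k : ℕ∞)); exact_mod_cast this
  obtain ⟨D0, h0⟩ := bdd_of (hps 0).continuous (1 / 2) 2 (fun x hx => by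
    rcases hx with hx | hx
    · exact ps_low hx.le
    · exact ps_high hx.le)
  obtain ⟨D1, h1⟩ := bdd_of (cd_deriv hps 0).continuous (1 / 2) 2 (fun x hx => ps_d1_zero hx)
  obtain ⟨D2, h2⟩ := bdd_of (cd_deriv (cd_deriv hps) 0).continuous (1 / 2) 2
    (fun x hx => ps_d2_zero hx)
  obtain ⟨D3, h3⟩ := bdd_of (cd_deriv hth 0).continuous 1 2 (fun x hx => th_d1_zero hx)
  obtain ⟨D4, h4⟩ := bdd_of (cd_deriv (cd_deriv hth) 0).continuous 1 2 (fun x hx => th_d2_zero hx)
  have k0 := (abs_nonneg _).trans (h0 0)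
  have k1 := (abs_nonneg _).trans (h1 0)
  have k2 := (abs_nonneg _).trans (h2 0)
  have k3 := (abs_nonneg _).trans (h3 0)
  have k4 := (abs_nonneg _).trans (h4 0)
  refine ⟨1 + D0 + D1 + D2 + D3 + D4, by linarith, fun x => ?_, fun x => ?_, fun x => ?_,
    fun x => ?_, fun x => ?_⟩
  · linarith [h0 x]
  · linarith [h1 x]
  · linarith [h2 x]
  · linarith [h3 x]
  · linarith [h4 x]

/-! ### two derivatives on the half line -/

/-- two derivatives on the half line -/
structure D2 (f f1 f2 : ℝ → ℝ) : Prop where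
  d1 : ∀ r, 0 < r → HasDerivAt f (f1 r) r
  d2 : ∀ r, 0 < r → HasDerivAt f1 (f2 r) r

theorem D2.deriv1 {f f1 f2 : ℝ → ℝ} (h : D2 f f1 f2) {r : ℝ} (hr : 0 < r) : deriv f r = f1 r :=
  (h.d1 r hr).deriv

theorem D2.deriv2 {f f1 f2 : ℝ → ℝ} (h : D2 f f1 f2) {r : ℝ} (hr : 0 < r) :
    deriv (deriv f) r = f2 r := by
  have e : deriv f =ᶠ[𝓝 r] f1 := by
    filter_upwards [Ioi_mem_nhds hr] with x hx
    exact (h.d1 x hx).deriv
  rw [e.deriv_eq]
  exact (h.d2 r hr).deriv

theorem D2.mul {f f1 f2 g g1 g2 : ℝ → ℝ} (hf : D2 f f1 f2) (hg : D2 g g1 g2) :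
    D2 (fun r => f r * g r) (fun r => f1 r * g r + f r * g1 r)
      (fun r => f2 r * g r + 2 * (f1 r * g1 r) + f r * g2 r) where
  d1 r hr := (hf.d1 r hr).mul (hg.d1 r hr)
  d2 r hr := by
    have h := ((hf.d2 r hr).mul (hg.d1 r hr)).add ((hf.d1 r hr).mul (hg.d2 r hr))
    refine h.congr_deriv ?_
    ring

theorem D2.congr {f g f1 f2 : ℝ → ℝ} (h : D2 f f1 f2) (e : ∀ r, 0 < r → g r = f r) :
    D2 g f1 f2 where
  d1 r hr := (h.d1 r hr).congr_of_eventuallyEq (by
    filter_upwards [Ioi_mem_nhds hr] with x hx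
    exact e x hx)
  d2 := h.d2

theorem D2.of {f : ℝ → ℝ} (h : ContDiffOn ℝ 2 f (Ioi 0)) : D2 f (deriv f) (deriv (deriv f)) where
  d1 r hr := ((h.differentiableOn (by norm_num) r hr).differentiableAt
    (Ioi_mem_nhds hr)).hasDerivAt
  d2 r hr := by
    have h0 : ContDiffOn ℝ (1 + 1) f (Ioi 0) := by
      have e : (1 + 1 : WithTop ℕ∞) = 2 := by norm_num
      rw [e]; exact h
    have h1 := ((contDiffOn_succ_iff_deriv_of_isOpen isOpen_Ioi).1 h0).2.2
    exact ((h1.differentiableOn (by norm_num) r hr).differentiableAt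
      (Ioi_mem_nhds hr)).hasDerivAt

theorem D2.scale {p : ℝ → ℝ} (h : ContDiff ℝ 2 p) (lam : ℝ) :
    D2 (fun r => p (r / lam)) (fun r => deriv p (r / lam) / lam)
      (fun r => deriv (deriv p) (r / lam) / lam ^ 2) := by
  have h0 : ContDiff ℝ (1 + 1) p := by
    have e : (1 + 1 : WithTop ℕ∞) = 2 := by norm_num
    rw [e]; exact h
  have h1 := (contDiff_succ_iff_deriv.1 h0).2.2
  refine ⟨fun r _ => ?_, fun r _ => ?_⟩
  · have a := ((h.differentiable (by norm_num)) (r / lam)).hasDerivAt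
    have b := a.comp r ((hasDerivAt_id r).div_const lam)
    refine b.congr_deriv ?_
    rw [mul_one_div]
  · have a := ((h1.differentiable (by norm_num)) (r / lam)).hasDerivAt
    have b := (a.comp r ((hasDerivAt_id r).div_const lam)).div_const lam
    refine b.congr_deriv ?_
    rw [mul_one_div, div_div, sq]

/-! ### the oscillating factor -/

/-- cosine or sine -/
structure Osc (t : ℝ) (c c1 : ℝ → ℝ) : Prop where
  d2 : D2 c c1 (fun r => -(4 * Real.pi ^ 2 * t ^ 2 * c r))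
  b0 : ∀ r, |c r| ≤ 1
  b1 : ∀ r, |c1 r| ≤ 13
  cd : ContDiff ℝ 2 c

theorem lin_deriv (t r : ℝ) : HasDerivAt (fun r : ℝ => 2 * Real.pi * (t * r)) (2 * Real.pi * t) r := by
  have h := ((hasDerivAt_id r).const_mul t).const_mul (2 * Real.pi)
  refine h.congr_deriv ?_
  ring

theorem tpi {t : ℝ} (h1 : 1 ≤ t) (h2 : t ≤ 2) : |2 * Real.pi * t| ≤ 13 := by
  have hp := Real.pi_pos
  have hp2 := Real.pi_lt_d2
  rw [abs_of_nonneg (by positivity)]
  nlinarith

theorem tpi2 {t : ℝ} (h1 : 1 ≤ t) (h2 : t ≤ 2) : 4 * Real.pi ^ 2 * t ^ 2 ≤ 160 := by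
  have hp := Real.pi_pos
  have hp2 := Real.pi_lt_d2
  have h3 : 2 * Real.pi * t ≤ 12.6 := by nlinarith
  have h4 : 0 ≤ 2 * Real.pi * t := by positivity
  have h5 : 4 * Real.pi ^ 2 * t ^ 2 = (2 * Real.pi * t) ^ 2 := by ring
  rw [h5]
  nlinarith

theorem osc_cos {t : ℝ} (h1 : 1 ≤ t) (h2 : t ≤ 2) :
    Osc t (fun r => Real.cos (2 * Real.pi * (t * r)))
      (fun r => -(Real.sin (2 * Real.pi * (t * r)) * (2 * Real.pi * t))) where
  d2 := by
    refine ⟨fun r _ => ?_, fun r _ => ?_⟩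
    · refine (lin_deriv t r).cos.congr_deriv ?_
      ring
    · refine ((lin_deriv t r).sin.mul_const (2 * Real.pi * t)).neg.congr_deriv ?_
      ring
  b0 r := Real.abs_cos_le_one _
  b1 r := by
    rw [abs_neg, abs_mul]
    have := mul_le_mul (Real.abs_sin_le_one (2 * Real.pi * (t * r))) (tpi h1 h2) (abs_nonneg _)
      zero_le_one
    linarith
  cd := Real.contDiff_cos.comp (contDiff_const.mul (contDiff_const.mul contDiff_id))

theorem osc_sin {t : ℝ} (h1 : 1 ≤ t) (h2 : t ≤ 2) :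
    Osc t (fun r => Real.sin (2 * Real.pi * (t * r)))
      (fun r => Real.cos (2 * Real.pi * (t * r)) * (2 * Real.pi * t)) where
  d2 := by
    refine ⟨fun r _ => ?_, fun r _ => ?_⟩
    · exact (lin_deriv t r).sin
    · refine ((lin_deriv t r).cos.mul_const (2 * Real.pi * t)).congr_deriv ?_
      ring
  b0 r := Real.abs_sin_le_one _
  b1 r := by
    rw [abs_mul]
    have := mul_le_mul (Real.abs_cos_le_one (2 * Real.pi * (t * r))) (tpi h1 h2) (abs_nonneg _)
      zero_le_one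
    linarith
  cd := Real.contDiff_sin.comp (contDiff_const.mul (contDiff_const.mul contDiff_id))

/-! ### the estimate of the operator -/

theorem ratio {a r : ℝ} (ha : 0 < a) (har : a ≤ r) : 0 ≤ a ^ 2 / r ^ 2 ∧ a ^ 2 / r ^ 2 ≤ 1 := by
  have hr : 0 < r := ha.trans_le har
  refine ⟨by positivity, ?_⟩
  rw [div_le_one (by positivity)]
  exact pow_le_pow_left₀ ha.le har 2

theorem ratio3 (n : ℕ) (hn : 1 ≤ n) {a r : ℝ} (ha : 0 < a) (har : a ≤ r) :
    0 ≤ ((n : ℝ) - 1) / r + a ^ 2 / r ^ 3 ∧ ((n : ℝ) - 1) / r + a ^ 2 / r ^ 3 ≤ n / r := by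
  have hr : 0 < r := ha.trans_le har
  have hn' : (1 : ℝ) ≤ n := by exact_mod_cast hn
  have h1 : 0 ≤ ((n : ℝ) - 1) / r := div_nonneg (by linarith) hr.le
  have h2 : 0 ≤ a ^ 2 / r ^ 3 := by positivity
  refine ⟨by linarith, ?_⟩
  have h3 : a ^ 2 / r ^ 3 = (a ^ 2 / r ^ 2) * (1 / r) := by
    field_simp
  have h4 := (ratio ha har).2
  have h5 : (a ^ 2 / r ^ 2) * (1 / r) ≤ 1 * (1 / r) :=
    mul_le_mul_of_nonneg_right h4 (by positivity)
  have h6 : (n : ℝ) / r = ((n : ℝ) - 1) / r + 1 * (1 / r) := by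
    field_simp
    ring
  rw [h3, h6]
  linarith

theorem bound_core (n : ℕ) (hn : 1 ≤ n) {t a r lam c c1 b b1 b2 K : ℝ} (ht1 : 1 ≤ t) (ht2 : t ≤ 2)
    (ha : 0 < a) (har : a ≤ r) (hlam : 1 ≤ lam) (hr : lam / 2 ≤ r) (hc : |c| ≤ 1)
    (hc1 : |c1| ≤ 13) (hK : 0 ≤ K) (hb : |b| ≤ K) (hb1 : |b1| ≤ 3 * K / lam)
    (hb2 : |b2| ≤ 9 * K / lam ^ 2) :
    |(-(4 * Real.pi ^ 2 * t ^ 2 * c) * b + 2 * (c1 * b1) + c * b2) * (1 - a ^ 2 / r ^ 2) +
      (c1 * b + c * b1) * (((n : ℝ) - 1) / r + a ^ 2 / r ^ 3) + 4 * Real.pi ^ 2 * t ^ 2 * (c * b)| ≤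
      K * (1000 + 32 * n) * (a ^ 2 / lam ^ 2 + 1 / lam) := by
  have hr0 : 0 < r := ha.trans_le har
  have hl0 : 0 < lam := by linarith
  have hn' : (1 : ℝ) ≤ n := by exact_mod_cast hn
  obtain ⟨x0, x1⟩ := ratio ha har
  obtain ⟨y0, y1⟩ := ratio3 n hn ha har
  have hP := tpi2 ht1 ht2
  have hP0 : 0 ≤ 4 * Real.pi ^ 2 * t ^ 2 := by positivity
  set P := 4 * Real.pi ^ 2 * t ^ 2 with hPdef
  set y := ((n : ℝ) - 1) / r + a ^ 2 / r ^ 3 with hy
  set x := a ^ 2 / r ^ 2 with hx
  set u := 1 / lam with hu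
  set v := a ^ 2 / lam ^ 2 with hv
  have u0 : 0 < u := by positivity
  have v0 : 0 ≤ v := by positivity
  have u1 : u ≤ 1 := by
    rw [hu, div_le_one hl0]; exact hlam
  have hxv : x ≤ 4 * v := by
    rw [hx, hv, div_le_iff₀ (by positivity)]
    have h1 : (lam / 2) ^ 2 ≤ r ^ 2 := pow_le_pow_left₀ (by linarith) hr 2
    have h2 : 4 * (a ^ 2 / lam ^ 2) * r ^ 2 ≥ 4 * (a ^ 2 / lam ^ 2) * (lam / 2) ^ 2 :=
      mul_le_mul_of_nonneg_left h1 (by positivity)
    have h3 : 4 * (a ^ 2 / lam ^ 2) * (lam / 2) ^ 2 = a ^ 2 := by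
      field_simp
      ring
    linarith
  have hyu : y ≤ 2 * n * u := by
    refine y1.trans ?_
    rw [hu, div_le_iff₀ hr0]
    have h1 : 2 * (n : ℝ) * (1 / lam) * r ≥ 2 * (n : ℝ) * (1 / lam) * (lam / 2) :=
      mul_le_mul_of_nonneg_left hr (by positivity)
    have h2 : 2 * (n : ℝ) * (1 / lam) * (lam / 2) = n := by
      field_simp
    linarith
  have hb1' : |b1| ≤ 3 * K * u := by
    have : 3 * K / lam = 3 * K * u := by rw [hu]; ring
    linarith
  have hb2' : |b2| ≤ 9 * K * u := by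
    have h1 : 9 * K / lam ^ 2 = 9 * K * u * u := by rw [hu]; field_simp
    have h2 : 9 * K * u * u ≤ 9 * K * u * 1 :=
      mul_le_mul_of_nonneg_left u1 (by positivity)
    linarith
  have e : (-(P * c) * b + 2 * (c1 * b1) + c * b2) * (1 - x) + (c1 * b + c * b1) * y +
      P * (c * b) = P * x * (c * b) + (1 - x) * (2 * (c1 * b1) + c * b2) +
      y * (c1 * b + c * b1) := by ring
  rw [e]
  have a1 : |c * b| ≤ K := by
    rw [abs_mul]
    have := mul_le_mul hc hb (abs_nonneg _) zero_le_one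
    linarith
  have a2 : |c1 * b1| ≤ 39 * K * u := by
    rw [abs_mul]
    have := mul_le_mul hc1 hb1' (abs_nonneg _) (by norm_num)
    linarith
  have a3 : |c * b2| ≤ 9 * K * u := by
    rw [abs_mul]
    have := mul_le_mul hc hb2' (abs_nonneg _) zero_le_one
    linarith
  have a4 : |c1 * b| ≤ 13 * K := by
    rw [abs_mul]
    exact mul_le_mul hc1 hb (abs_nonneg _) (by norm_num)
  have a5 : |c * b1| ≤ 3 * K := by
    rw [abs_mul]
    have h1 := mul_le_mul hc hb1' (abs_nonneg _) zero_le_one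
    have h2 : 3 * K * u ≤ 3 * K * 1 := mul_le_mul_of_nonneg_left u1 (by positivity)
    linarith
  have q1 : |P * x * (c * b)| ≤ 640 * (K * v) := by
    rw [abs_mul, abs_of_nonneg (mul_nonneg hP0 x0)]
    have h1 : P * x ≤ 160 * (4 * v) := mul_le_mul hP hxv x0 (by norm_num)
    have h2 := mul_le_mul h1 a1 (abs_nonneg _) (by positivity)
    linarith
  have q2 : |(1 - x) * (2 * (c1 * b1) + c * b2)| ≤ 87 * (K * u) := by
    rw [abs_mul, abs_of_nonneg (by linarith : 0 ≤ 1 - x)]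
    have h1 := abs_add_le (2 * (c1 * b1)) (c * b2)
    have h2 : |2 * (c1 * b1)| = 2 * |c1 * b1| := by
      rw [abs_mul, abs_of_pos (by norm_num : (0 : ℝ) < 2)]
    have h3 : |2 * (c1 * b1) + c * b2| ≤ 87 * (K * u) := by linarith
    have h4 := mul_le_mul (by linarith : 1 - x ≤ 1) h3 (abs_nonneg _) zero_le_one
    linarith
  have q3 : |y * (c1 * b + c * b1)| ≤ 32 * n * (K * u) := by
    rw [abs_mul, abs_of_nonneg y0]
    have h1 := abs_add_le (c1 * b) (c * b1)
    have h3 : |c1 * b + c * b1| ≤ 16 * K := by linarith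
    have h4 := mul_le_mul hyu h3 (abs_nonneg _) (by positivity)
    linarith
  have s1 := abs_add_le (P * x * (c * b) + (1 - x) * (2 * (c1 * b1) + c * b2))
    (y * (c1 * b + c * b1))
  have s2 := abs_add_le (P * x * (c * b)) ((1 - x) * (2 * (c1 * b1) + c * b2))
  have k1 : 0 ≤ K * v := mul_nonneg hK v0
  have k2 : 0 ≤ K * u := mul_nonneg hK u0.le
  have k3 : 0 ≤ (n : ℝ) * (K * v) := mul_nonneg (by linarith) k1
  have e2 : K * (1000 + 32 * n) * (v + u) = 1000 * (K * v) + 1000 * (K * u) +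
      32 * (n * (K * v)) + 32 * n * (K * u) := by ring
  rw [e2]
  linarith

theorem bound_zero (n : ℕ) (hn : 1 ≤ n) {t a r m m1 m2 h h1 h2 C D : ℝ} (ht1 : 1 ≤ t)
    (ht2 : t ≤ 2) (ha : 0 < a) (har : a ≤ r) (hr : r ≤ 2) (hC : 0 < C) (hD : 1 ≤ D)
    (hm : |m| ≤ C) (hm1 : |m1| ≤ C * r) (hm2 : |m2| ≤ C) (hh : |h| ≤ 1) (hh1 : |h1| ≤ D)
    (hh1' : |h1| ≤ D * r) (hh2 : |h2| ≤ D) :
    |(m2 * h + 2 * (m1 * h1) + m * h2) * (1 - a ^ 2 / r ^ 2) +
      (m1 * h + m * h1) * (((n : ℝ) - 1) / r + a ^ 2 / r ^ 3) + 4 * Real.pi ^ 2 * t ^ 2 * (m * h)| ≤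
      C * D * (200 + 2 * n) := by
  have hr0 : 0 < r := ha.trans_le har
  have hn' : (1 : ℝ) ≤ n := by exact_mod_cast hn
  obtain ⟨x0, x1⟩ := ratio ha har
  obtain ⟨y0, y1⟩ := ratio3 n hn ha har
  have hP := tpi2 ht1 ht2
  have hP0 : 0 ≤ 4 * Real.pi ^ 2 * t ^ 2 := by positivity
  set P := 4 * Real.pi ^ 2 * t ^ 2 with hPdef
  set y := ((n : ℝ) - 1) / r + a ^ 2 / r ^ 3 with hy
  set x := a ^ 2 / r ^ 2 with hx
  have hCD : C ≤ C * D := le_mul_of_one_le_right hC.le hD
  have a1 : |m2 * h| ≤ C := by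
    rw [abs_mul]
    have := mul_le_mul hm2 hh (abs_nonneg _) hC.le
    linarith
  have a2 : |m1 * h1| ≤ 2 * (C * D) := by
    rw [abs_mul]
    have h1 := mul_le_mul hm1 hh1 (abs_nonneg _) (by positivity)
    have h2 : C * r * D ≤ C * 2 * D := by
      have := mul_le_mul_of_nonneg_left hr hC.le
      exact mul_le_mul_of_nonneg_right this (by linarith)
    linarith
  have a3 : |m * h2| ≤ C * D := by
    rw [abs_mul]
    exact mul_le_mul hm hh2 (abs_nonneg _) hC.le
  have a4 : |m1 * h| ≤ C * r := by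
    rw [abs_mul]
    have := mul_le_mul hm1 hh (abs_nonneg _) (by positivity)
    linarith
  have a5 : |m * h1| ≤ C * (D * r) := by
    rw [abs_mul]
    exact mul_le_mul hm hh1' (abs_nonneg _) hC.le
  have a6 : |m * h| ≤ C := by
    rw [abs_mul]
    have := mul_le_mul hm hh (abs_nonneg _) hC.le
    linarith
  have b1 : |(m2 * h + 2 * (m1 * h1) + m * h2) * (1 - x)| ≤ 6 * (C * D) := by
    rw [abs_mul, abs_of_nonneg (by linarith : 0 ≤ 1 - x)]
    have h1' := abs_add_le (m2 * h + 2 * (m1 * h1)) (m * h2)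
    have h1'' := abs_add_le (m2 * h) (2 * (m1 * h1))
    have h2' : |2 * (m1 * h1)| = 2 * |m1 * h1| := by
      rw [abs_mul, abs_of_pos (by norm_num : (0 : ℝ) < 2)]
    have h3 : |m2 * h + 2 * (m1 * h1) + m * h2| ≤ 6 * (C * D) := by linarith
    have h4 := mul_le_mul h3 (by linarith : 1 - x ≤ 1) (by linarith) (by positivity)
    linarith
  have b2 : |(m1 * h + m * h1) * y| ≤ 2 * (C * D) * n := by
    rw [abs_mul, abs_of_nonneg y0]
    have h1' := abs_add_le (m1 * h) (m * h1)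
    have h3 : |m1 * h + m * h1| ≤ 2 * (C * D) * r := by
      have : C * r ≤ C * D * r := mul_le_mul_of_nonneg_right hCD hr0.le
      linarith
    have h4 := mul_le_mul h3 y1 y0 (by positivity)
    have h5 : 2 * (C * D) * r * (n / r) = 2 * (C * D) * n := by
      field_simp
    linarith
  have b3 : |P * (m * h)| ≤ 160 * C := by
    rw [abs_mul, abs_of_nonneg hP0]
    exact mul_le_mul hP a6 (abs_nonneg _) (by norm_num)
  have s1 := abs_add_le ((m2 * h + 2 * (m1 * h1) + m * h2) * (1 - x) + (m1 * h + m * h1) * y)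
    (P * (m * h))
  have s2 := abs_add_le ((m2 * h + 2 * (m1 * h1) + m * h2) * (1 - x)) ((m1 * h + m * h1) * y)
  have e2 : C * D * (200 + 2 * n) = 200 * (C * D) + 2 * (C * D) * n := by ring
  have k : 0 < C * D := by positivity
  rw [e2]
  linarith

/-! ### the partition -/

/-- the partition of unity -/
noncomputable def chi : ℕ → ℝ → ℝ
  | 0, r => th r
  | j + 1, r => ps (r / 2 ^ (j + 1))

theorem chi_succ (j : ℕ) (r : ℝ) : chi (j + 1) r = th (r / 2 ^ (j + 1)) - th (r / 2 ^ j) := by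
  have : 2 * (r / 2 ^ (j + 1)) = r / 2 ^ j := by
    rw [pow_succ]; field_simp
  change th (r / 2 ^ (j + 1)) - th (2 * (r / 2 ^ (j + 1))) = _
  rw [this]

theorem chi_nonneg (j : ℕ) {r : ℝ} (hr : 0 < r) : 0 ≤ chi j r := by
  cases j with
  | zero => exact th_nonneg r
  | succ j => exact ps_nonneg (by positivity)

theorem chi_sum (r : ℝ) (J : ℕ) : ∑ j ∈ Finset.range (J + 1), chi j r = th (r / 2 ^ J) := by
  induction J with
  | zero =>
    rw [Finset.sum_range_one]
    unfold chi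
    rw [pow_zero, div_one]
  | succ J ih =>
    rw [Finset.sum_range_succ, ih, chi_succ]
    ring

theorem chi_hasSum (r : ℝ) : HasSum (fun j => chi j r) 1 := by
  obtain ⟨J, hJ⟩ := pow_unbounded_of_one_lt r (one_lt_two : (1 : ℝ) < 2)
  have h1 : ∑ j ∈ Finset.range (J + 1), chi j r = 1 := by
    rw [chi_sum]
    exact th_one (by rw [div_le_one (by positivity)]; exact hJ.le)
  rw [← h1]
  refine hasSum_sum_of_ne_finset_zero fun j hj => ?_
  rw [Finset.mem_range, not_lt] at hj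
  obtain ⟨i, rfl⟩ : ∃ i, j = i + 1 := ⟨j - 1, by omega⟩
  have h2 : r ≤ 2 ^ i := hJ.le.trans (pow_le_pow_right₀ one_le_two (by omega))
  have h3 : r ≤ 2 ^ (i + 1) := h2.trans (pow_le_pow_right₀ one_le_two (by omega))
  rw [chi_succ, th_one, th_one, sub_self]
  · rw [div_le_one (by positivity)]; exact h2
  · rw [div_le_one (by positivity)]; exact h3

theorem chi_contDiff (j : ℕ) : ContDiff ℝ 2 (chi j) := by
  cases j with
  | zero =>
    have h := th_contDiff (k := 2)
    exact_mod_cast h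
  | succ j =>
    have hps : ContDiff ℝ 2 ps := by
      have h := ps_contDiff (k := 2)
      exact_mod_cast h
    exact hps.comp (contDiff_id.div_const ((2 : ℝ) ^ (j + 1)))

theorem chi_zero (j : ℕ) {r : ℝ} (h : 2 * (2 : ℝ) ^ j < r) : chi j r = 0 := by
  cases j with
  | zero =>
    refine th_zero ?_
    rw [pow_zero] at h
    linarith
  | succ j =>
    refine ps_high ?_
    rw [le_div_iff₀ (by positivity)]
    exact h.le

theorem beta_bd {s C₀ : ℝ} (hs : 0 ≤ s) (hC : 0 < C₀) {β : ℝ → ℝ}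
    (hβ : ∀ r, 1 ≤ r → |β r| ≤ C₀ * r ^ (-s) ∧ |deriv β r| ≤ C₀ * r ^ (-s - 1) ∧
      |deriv (deriv β) r| ≤ C₀ * r ^ (-s - 2)) (j : ℕ) {r : ℝ} (hr : (2 : ℝ) ^ (j + 1) / 2 ≤ r) :
    |β r| ≤ C₀ * 2 ^ s * (2 : ℝ) ^ (-(s * ((j + 1 : ℕ) : ℝ))) ∧
    |deriv β r| ≤ 2 * (C₀ * 2 ^ s * (2 : ℝ) ^ (-(s * ((j + 1 : ℕ) : ℝ)))) / 2 ^ (j + 1) ∧
    |deriv (deriv β) r| ≤
      4 * (C₀ * 2 ^ s * (2 : ℝ) ^ (-(s * ((j + 1 : ℕ) : ℝ)))) / (2 ^ (j + 1)) ^ 2 := by
  have hmu : (1 : ℝ) ≤ 2 ^ j := one_le_pow₀ one_le_two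
  have hmu0 : (0 : ℝ) < 2 ^ j := by positivity
  have e : (2 : ℝ) ^ (j + 1) / 2 = 2 ^ j := by rw [pow_succ]; ring
  rw [e] at hr
  have hr1 : 1 ≤ r := hmu.trans hr
  have q : ((2 : ℝ) ^ j) ^ (-s) = 2 ^ s * (2 : ℝ) ^ (-(s * ((j + 1 : ℕ) : ℝ))) := by
    rw [← Real.rpow_natCast, ← Real.rpow_mul (by norm_num), ← Real.rpow_add (by norm_num)]
    congr 1
    push_cast
    ring
  have q1 : ((2 : ℝ) ^ j) ^ (-s - 1) = ((2 : ℝ) ^ j) ^ (-s) / 2 ^ j := by
    rw [Real.rpow_sub hmu0, Real.rpow_one]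
  have q2 : ((2 : ℝ) ^ j) ^ (-s - 2) = ((2 : ℝ) ^ j) ^ (-s) / (2 ^ j) ^ 2 := by
    rw [Real.rpow_sub hmu0, Real.rpow_two]
  obtain ⟨h1, h2, h3⟩ := hβ r hr1
  refine ⟨?_, ?_, ?_⟩
  · refine h1.trans ?_
    rw [mul_assoc, ← q]
    exact mul_le_mul_of_nonneg_left (Real.rpow_le_rpow_of_nonpos hmu0 hr (by linarith)) hC.le
  · refine h2.trans ?_
    have h4 : r ^ (-s - 1) ≤ ((2 : ℝ) ^ j) ^ (-s - 1) :=
      Real.rpow_le_rpow_of_nonpos hmu0 hr (by linarith)
    refine (mul_le_mul_of_nonneg_left h4 hC.le).trans (le_of_eq ?_)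
    rw [q1, mul_assoc C₀, ← q, pow_succ]
    field_simp
  · refine h3.trans ?_
    have h4 : r ^ (-s - 2) ≤ ((2 : ℝ) ^ j) ^ (-s - 2) :=
      Real.rpow_le_rpow_of_nonpos hmu0 hr (by linarith)
    refine (mul_le_mul_of_nonneg_left h4 hC.le).trans (le_of_eq ?_)
    rw [q2, mul_assoc C₀, ← q, pow_succ]
    field_simp
    ring

end DECaux

open DECaux in
/-- DEC -/
theorem dec_thm : S_DEC := by
  intro n s C₀ hn hs hC₀
  obtain ⟨D, hD1, hD0, hDp1, hDp2, hDt1, hDt2⟩ := exists_D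
  have hn' : (1 : ℝ) ≤ n := by exact_mod_cast hn
  have hD : 0 < D := by linarith
  have h2s : (1 : ℝ) ≤ 2 ^ s := Real.one_le_rpow one_le_two hs
  have hCC : C₀ ≤ C₀ * 2 ^ s * D * (1000 + 32 * n) := by
    have h1 : C₀ ≤ C₀ * 2 ^ s := le_mul_of_one_le_right hC₀.le h2s
    have h2 : C₀ * 2 ^ s ≤ C₀ * 2 ^ s * D := le_mul_of_one_le_right (by positivity) hD1
    have h3 : C₀ * 2 ^ s * D ≤ C₀ * 2 ^ s * D * (1000 + 32 * n) :=
      le_mul_of_one_le_right (by positivity) (by linarith)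
    linarith
  refine ⟨C₀ * 2 ^ s * D * (1000 + 32 * n), by positivity, ?_⟩
  intro t m β ht1 ht2 hβ hm hβb hmb
  obtain ⟨c, c1, hosc, hmc⟩ : ∃ c c1 : ℝ → ℝ, Osc t c c1 ∧ ∀ r, 0 < r → m r = c r * β r := by
    rcases hm with hm | hm
    · exact ⟨_, _, osc_cos ht1 ht2, hm⟩
    · exact ⟨_, _, osc_sin ht1 ht2, hm⟩
  have hps2 : ContDiff ℝ 2 ps := by
    have h := ps_contDiff (k := 2)
    exact_mod_cast h
  have hth2 : ContDiff ℝ 2 th := by
    have h := th_contDiff (k := 2)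
    exact_mod_cast h
  have hgm : ∀ j r, 0 < r → c r * (β r * chi j r) = m r * chi j r := by
    intro j r hr
    rw [hmc r hr]; ring
  have hmC : ∀ r, 0 < r → |m r| ≤ C₀ := by
    intro r hr
    rcases le_or_gt r 2 with h | h
    · exact (hmb r hr h).1
    · rw [hmc r hr, abs_mul]
      have h1 := (hβb r (by linarith)).1
      have h2 : r ^ (-s) ≤ 1 := Real.rpow_le_one_of_one_le_of_nonpos (by linarith) (by linarith)
      have h3 : C₀ * r ^ (-s) ≤ C₀ * 1 := mul_le_mul_of_nonneg_left h2 hC₀.le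
      have h4 := mul_le_mul (hosc.b0 r) (h1.trans h3) (abs_nonneg _) zero_le_one
      linarith
  refine ⟨fun j r => c r * (β r * chi j r), ?_, ?_, ?_, ?_, ?_, ?_⟩
  · intro j
    exact hosc.cd.contDiffOn.mul (hβ.mul (chi_contDiff j).contDiffOn)
  · intro r hr
    have h := (chi_hasSum r).mul_left (m r)
    rw [mul_one] at h
    have e : (fun j => c r * (β r * chi j r)) = fun j => m r * chi j r := by
      funext j; exact hgm j r hr
    change HasSum (fun j => c r * (β r * chi j r)) (m r)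
    rw [e]
    exact h
  · intro r hr j
    change |c r * (β r * chi j r)| ≤ _
    cases j with
    | zero =>
      rw [hgm 0 r hr]
      have e1 : -(s * ((0 : ℕ) : ℝ)) = 0 := by push_cast; ring
      rw [e1, Real.rpow_zero, mul_one]
      refine le_trans ?_ hCC
      rw [abs_mul]
      have h1 : |chi 0 r| ≤ 1 := by
        rw [abs_of_nonneg (chi_nonneg 0 hr)]
        exact th_le_one r
      have h2 := mul_le_mul (hmC r hr) h1 (abs_nonneg _) hC₀.le
      linarith
    | succ j =>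
      rcases lt_or_ge r ((2 : ℝ) ^ (j + 1) / 2) with h | h
      · have h1 : chi (j + 1) r = 0 := by
          refine ps_low ?_
          rw [div_le_iff₀ (by positivity)]
          linarith
        rw [h1, mul_zero, mul_zero, abs_zero]
        positivity
      · obtain ⟨k0, -, -⟩ := beta_bd hs hC₀ hβb j h
        have h1 : |chi (j + 1) r| ≤ D := hD0 _
        rw [abs_mul, abs_mul]
        have h2 := mul_le_mul k0 h1 (abs_nonneg _) (by positivity)
        have h3 := mul_le_mul (hosc.b0 r) h2 (by positivity) zero_le_one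
        refine h3.trans ?_
        have h4 : (0 : ℝ) ≤ C₀ * 2 ^ s * D * (2 : ℝ) ^ (-(s * ((j + 1 : ℕ) : ℝ))) := by positivity
        have h5 : C₀ * 2 ^ s * D * (2 : ℝ) ^ (-(s * ((j + 1 : ℕ) : ℝ))) ≤
            C₀ * 2 ^ s * D * (2 : ℝ) ^ (-(s * ((j + 1 : ℕ) : ℝ))) * (1000 + 32 * n) :=
          le_mul_of_one_le_right h4 (by linarith)
        calc 1 * (C₀ * 2 ^ s * (2 : ℝ) ^ (-(s * ((j + 1 : ℕ) : ℝ))) * D)
            = C₀ * 2 ^ s * D * (2 : ℝ) ^ (-(s * ((j + 1 : ℕ) : ℝ))) := by ring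
          _ ≤ C₀ * 2 ^ s * D * (2 : ℝ) ^ (-(s * ((j + 1 : ℕ) : ℝ))) * (1000 + 32 * n) := h5
          _ = C₀ * 2 ^ s * D * (1000 + 32 * n) * (2 : ℝ) ^ (-(s * ((j + 1 : ℕ) : ℝ))) := by ring
  · intro r hr
    have h1 : (fun j => |c r * (β r * chi j r)|) = fun j => |m r| * chi j r := by
      funext j
      rw [hgm j r hr, abs_mul, abs_of_nonneg (chi_nonneg j hr)]
    have h2 : HasSum (fun j => |c r * (β r * chi j r)|) |m r| := by
      rw [h1]
      have h := (chi_hasSum r).mul_left |m r|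
      rwa [mul_one] at h
    change ∑' j, ENNReal.ofReal |c r * (β r * chi j r)| ≤ _
    rw [← ENNReal.ofReal_tsum_of_nonneg (fun j => abs_nonneg _) h2.summable, h2.tsum_eq]
    exact ENNReal.ofReal_le_ofReal ((hmC r hr).trans hCC)
  · intro j r hr
    change c r * (β r * chi j r) = 0
    rw [chi_zero j hr, mul_zero, mul_zero]
  · intro j a r ha har
    have hr : 0 < r := ha.trans_le har
    cases j with
    | zero =>
      have e1 : -(s * ((0 : ℕ) : ℝ)) = 0 := by push_cast; ring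
      rw [e1, Real.rpow_zero, mul_one, pow_zero, one_pow, div_one, div_one]
      have hmD : D2 m (deriv m) (deriv (deriv m)) := by
        have : ContDiffOn ℝ 2 m (Ioi 0) :=
          (hosc.cd.contDiffOn.mul hβ).congr fun x hx => hmc x hx
        exact D2.of this
      have hg : D2 (fun r => c r * (β r * chi 0 r))
          (fun r => deriv m r * th r + m r * deriv th r)
          (fun r => deriv (deriv m) r * th r + 2 * (deriv m r * deriv th r) +
            m r * deriv (deriv th) r) :=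
        (hmD.mul (D2.of hth2.contDiffOn)).congr fun x hx => hgm 0 x hx
      have hpos : 0 ≤ C₀ * 2 ^ s * D * (1000 + 32 * n) * (a ^ 2 + 1) := by positivity
      unfold H
      have hgm0 : c r * (β r * chi 0 r) = m r * th r := hgm 0 r hr
      rw [hg.deriv1 hr, hg.deriv2 hr]
      change |(deriv (deriv m) r * th r + 2 * (deriv m r * deriv th r) +
            m r * deriv (deriv th) r) * (1 - a ^ 2 / r ^ 2) +
          (deriv m r * th r + m r * deriv th r) * (((n : ℝ) - 1) / r + a ^ 2 / r ^ 3) +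
          4 * Real.pi ^ 2 * t ^ 2 * (c r * (β r * chi 0 r))| ≤ _
      rw [hgm0]
      rcases le_or_gt r 2 with h | h
      · obtain ⟨m0, m1, m2⟩ := hmb r hr h
        have ht : |th r| ≤ 1 := by
          rw [abs_of_nonneg (th_nonneg r)]; exact th_le_one r
        have ht1' : |deriv th r| ≤ D * r := by
          rcases lt_or_ge r 1 with h1 | h1
          · rw [th_d1_zero (Or.inl h1), abs_zero]; positivity
          · refine (hDt1 r).trans ?_
            exact le_mul_of_one_le_right hD.le h1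
        have hb := bound_zero n hn ht1 ht2 ha har h hC₀ hD1 m0 m1 m2 ht (hDt1 r) ht1' (hDt2 r)
        refine hb.trans ?_
        have k1 : C₀ * D * (200 + 2 * n) ≤ C₀ * D * (1000 + 32 * n) :=
          mul_le_mul_of_nonneg_left (by linarith) (by positivity)
        have k2 : C₀ * D * (1000 + 32 * n) ≤ C₀ * D * (1000 + 32 * n) * 2 ^ s :=
          le_mul_of_one_le_right (by positivity) h2s
        have k3 : C₀ * D * (1000 + 32 * n) * 2 ^ s ≤
            C₀ * D * (1000 + 32 * n) * 2 ^ s * (a ^ 2 + 1) :=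
          le_mul_of_one_le_right (by positivity) (by nlinarith [sq_nonneg a])
        calc C₀ * D * (200 + 2 * n) ≤ C₀ * D * (1000 + 32 * n) * 2 ^ s * (a ^ 2 + 1) := by linarith
          _ = C₀ * 2 ^ s * D * (1000 + 32 * n) * (a ^ 2 + 1) := by ring
      · rw [th_zero h.le, th_d1_zero (Or.inr h), th_d2_zero (Or.inr h)]
        simp only [mul_zero, add_zero, zero_mul, abs_zero]
        exact hpos
    | succ j =>
      set lam : ℝ := 2 ^ (j + 1) with hlam
      have hl0 : 0 < lam := by positivity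
      have hl1 : 1 ≤ lam := one_le_pow₀ one_le_two
      set Q : ℝ := C₀ * 2 ^ s * (2 : ℝ) ^ (-(s * ((j + 1 : ℕ) : ℝ))) with hQ
      have hQ0 : 0 ≤ Q := by positivity
      have hg : D2 (fun r => c r * (β r * chi (j + 1) r)) _ _ :=
        hosc.d2.mul ((D2.of hβ).mul (D2.scale hps2 lam))
      have hpos : 0 ≤ C₀ * 2 ^ s * D * (1000 + 32 * n) *
          (2 : ℝ) ^ (-(s * ((j + 1 : ℕ) : ℝ))) * (a ^ 2 / lam ^ 2 + 1 / lam) := by positivity
      unfold H
      rw [hg.deriv1 hr, hg.deriv2 hr]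
      change |(-(4 * Real.pi ^ 2 * t ^ 2 * c r) * (β r * ps (r / lam)) +
            2 * (c1 r * (deriv β r * ps (r / lam) + β r * (deriv ps (r / lam) / lam))) +
            c r * (deriv (deriv β) r * ps (r / lam) +
              2 * (deriv β r * (deriv ps (r / lam) / lam)) +
              β r * (deriv (deriv ps) (r / lam) / lam ^ 2))) * (1 - a ^ 2 / r ^ 2) +
          (c1 r * (β r * ps (r / lam)) +
            c r * (deriv β r * ps (r / lam) + β r * (deriv ps (r / lam) / lam))) *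
            (((n : ℝ) - 1) / r + a ^ 2 / r ^ 3) +
          4 * Real.pi ^ 2 * t ^ 2 * (c r * (β r * ps (r / lam)))| ≤ _
      rcases lt_or_ge r (lam / 2) with h | h
      · have h1 : r / lam < 1 / 2 := by
          rw [div_lt_iff₀ hl0]; linarith
        rw [ps_low h1.le, ps_d1_zero (Or.inl h1), ps_d2_zero (Or.inl h1)]
        simp only [mul_zero, add_zero, zero_mul, zero_div, abs_zero]
        exact hpos
      · obtain ⟨k0, k1, k2⟩ := beta_bd hs hC₀ hβb j h
        rw [← hQ] at k0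
        rw [← hQ, ← hlam] at k1 k2
        have p0 := hD0 (r / lam)
        have p1 : |deriv ps (r / lam) / lam| ≤ D / lam := by
          rw [abs_div, abs_of_pos hl0]
          exact div_le_div_of_nonneg_right (hDp1 _) hl0.le
        have p2 : |deriv (deriv ps) (r / lam) / lam ^ 2| ≤ D / lam ^ 2 := by
          rw [abs_div, abs_of_pos (by positivity : 0 < lam ^ 2)]
          exact div_le_div_of_nonneg_right (hDp2 _) (by positivity)
        have hK : 0 ≤ Q * D := by positivity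
        have B0 : |β r * ps (r / lam)| ≤ Q * D := by
          rw [abs_mul]
          exact mul_le_mul k0 p0 (abs_nonneg _) hQ0
        have B1 : |deriv β r * ps (r / lam) + β r * (deriv ps (r / lam) / lam)| ≤
            3 * (Q * D) / lam := by
          have a1 : |deriv β r * ps (r / lam)| ≤ 2 * Q / lam * D := by
            rw [abs_mul]
            exact mul_le_mul k1 p0 (abs_nonneg _) (by positivity)
          have a2 : |β r * (deriv ps (r / lam) / lam)| ≤ Q * (D / lam) := by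
            rw [abs_mul]
            exact mul_le_mul k0 p1 (abs_nonneg _) hQ0
          have a3 := abs_add_le (deriv β r * ps (r / lam)) (β r * (deriv ps (r / lam) / lam))
          have a4 : 3 * (Q * D) / lam = 2 * Q / lam * D + Q * (D / lam) := by ring
          linarith
        have B2 : |deriv (deriv β) r * ps (r / lam) +
              2 * (deriv β r * (deriv ps (r / lam) / lam)) +
              β r * (deriv (deriv ps) (r / lam) / lam ^ 2)| ≤ 9 * (Q * D) / lam ^ 2 := by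
          have a1 : |deriv (deriv β) r * ps (r / lam)| ≤ 4 * Q / lam ^ 2 * D := by
            rw [abs_mul]
            exact mul_le_mul k2 p0 (abs_nonneg _) (by positivity)
          have a2 : |deriv β r * (deriv ps (r / lam) / lam)| ≤ 2 * Q / lam * (D / lam) := by
            rw [abs_mul]
            exact mul_le_mul k1 p1 (abs_nonneg _) (by positivity)
          have a3 : |β r * (deriv (deriv ps) (r / lam) / lam ^ 2)| ≤ Q * (D / lam ^ 2) := by
            rw [abs_mul]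
            exact mul_le_mul k0 p2 (abs_nonneg _) hQ0
          have a4 := abs_add_le (deriv (deriv β) r * ps (r / lam) +
            2 * (deriv β r * (deriv ps (r / lam) / lam)))
            (β r * (deriv (deriv ps) (r / lam) / lam ^ 2))
          have a5 := abs_add_le (deriv (deriv β) r * ps (r / lam))
            (2 * (deriv β r * (deriv ps (r / lam) / lam)))
          have a6 : |2 * (deriv β r * (deriv ps (r / lam) / lam))| =
              2 * |deriv β r * (deriv ps (r / lam) / lam)| := by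
            rw [abs_mul, abs_of_pos (by norm_num : (0 : ℝ) < 2)]
          have a7 : 9 * (Q * D) / lam ^ 2 = 4 * Q / lam ^ 2 * D + 2 * (2 * Q / lam * (D / lam)) +
              Q * (D / lam ^ 2) := by
            field_simp
            ring
          linarith
        have hb := bound_core n hn ht1 ht2 ha har hl1 h (hosc.b0 r) (hosc.b1 r) hK B0 B1 B2
        refine hb.trans (le_of_eq ?_)
        rw [hQ]
        ring

end Pool.Agent.R245.WB
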