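import Pool.Agent.R245.WB.Stm

set_option autoImplicit false

open MeasureTheory Set
open scoped ENNReal RealInnerProductSpace

namespace Pool.Agent.R245.WB

namespace DSaux

theorem two_derivs {f f1 f2 : ℝ → ℝ} (h1 : ∀ r, 0 < r → HasDerivAt f (f1 r) r)
    (h2 : ∀ r, 0 < r → HasDerivAt f1 (f2 r) r) :
    ∀ r, 0 < r → deriv f r = f1 r ∧ deriv (deriv f) r = f2 r := by
  intro r hr
  refine ⟨(h1 r hr).deriv, ?_⟩
  have h3 : deriv f =ᶠ[nhds r] f1 := by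
    filter_upwards [Ioi_mem_nhds hr] with x hx
    exact (h1 x hx).deriv
  rw [h3.deriv_eq]
  exact (h2 r hr).deriv

/-- `1 + 4π²r²` -/
noncomputable def Pf (r : ℝ) : ℝ := 1 + 4 * Real.pi ^ 2 * r ^ 2

theorem Pf_pos (r : ℝ) : 0 < Pf r := by unfold Pf; positivity

theorem Pf_deriv (r : ℝ) : HasDerivAt Pf (8 * Real.pi ^ 2 * r) r := by
  unfold Pf
  have h1 := ((hasDerivAt_pow 2 r).const_mul (4 * Real.pi ^ 2)).const_add 1
  refine h1.congr_deriv ?_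
  push_cast
  ring

theorem Pf_rpow_deriv (a r : ℝ) : HasDerivAt (fun r => Pf r ^ a) (8 * Real.pi ^ 2 * r * a * Pf r ^ (a - 1)) r :=
  (Pf_deriv r).rpow_const (Or.inl (Pf_pos r).ne')

/-- constants -/
noncomputable def Kc (b : ℝ) : ℝ := (1 + 16 * Real.pi ^ 2) ^ |b|

theorem Kc_pos (b : ℝ) : 0 < Kc b := by unfold Kc; positivity

theorem Pf_le1 {b r : ℝ} (hr0 : 0 < r) (hr : r ≤ 2) : Pf r ^ b ≤ Kc b := by
  unfold Kc
  have h1 : Pf r ≤ 1 + 16 * Real.pi ^ 2 := by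
    unfold Pf
    have : r ^ 2 ≤ 4 := by nlinarith
    nlinarith [sq_nonneg Real.pi]
  have h2 : 1 ≤ Pf r := by unfold Pf; have : 0 ≤ 4 * Real.pi ^ 2 * r ^ 2 := by positivity
                           linarith
  calc Pf r ^ b ≤ Pf r ^ |b| := Real.rpow_le_rpow_of_exponent_le h2 (le_abs_self b)
    _ ≤ _ := Real.rpow_le_rpow (by linarith) h1 (abs_nonneg b)

theorem Pf_le2 {b r : ℝ} (hr : 1 ≤ r) : Pf r ^ b ≤ Kc b * r ^ (2 * b) := by
  have hr0 : 0 < r := by linarith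
  have h3 : Pf r = (Pf r / r ^ 2) * r ^ (2:ℝ) := by
    have : r ^ (2:ℝ) = r ^ 2 := by exact_mod_cast Real.rpow_natCast r 2
    rw [this]
    field_simp
  have h1 : Pf r / r ^ 2 ≤ 1 + 16 * Real.pi ^ 2 := by
    rw [div_le_iff₀ (by positivity)]
    unfold Pf
    have : 1 ≤ r ^ 2 := by nlinarith
    nlinarith [sq_nonneg (Real.pi * r)]
  have h2 : 1 ≤ Pf r / r ^ 2 := by
    rw [le_div_iff₀ (by positivity)]
    unfold Pf
    have h4 : 3 < Real.pi := Real.pi_gt_three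
    have h5 : 1 ≤ 4 * Real.pi ^ 2 := by nlinarith
    nlinarith [sq_nonneg r]
  have h0 : 0 < Pf r / r ^ 2 := by linarith
  rw [h3, Real.mul_rpow h0.le (by positivity), ← Real.rpow_mul hr0.le]
  unfold Kc
  gcongr
  calc (Pf r / r ^ 2) ^ b ≤ (Pf r / r ^ 2) ^ |b| := Real.rpow_le_rpow_of_exponent_le h2 (le_abs_self b)
    _ ≤ _ := Real.rpow_le_rpow (by linarith) h1 (abs_nonneg b)

/-- weight and derivatives -/
noncomputable def w0 (a r : ℝ) : ℝ := Pf r ^ a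
noncomputable def w1 (a r : ℝ) : ℝ := 8 * Real.pi ^ 2 * r * a * Pf r ^ (a - 1)
noncomputable def w2 (a r : ℝ) : ℝ := 8 * Real.pi ^ 2 * a * Pf r ^ (a - 1) +
  8 * Real.pi ^ 2 * r * a * (8 * Real.pi ^ 2 * r * (a - 1) * Pf r ^ (a - 1 - 1))

theorem w0_deriv (a r : ℝ) : HasDerivAt (w0 a) (w1 a r) r := Pf_rpow_deriv a r

theorem w1_deriv (a r : ℝ) : HasDerivAt (w1 a) (w2 a r) r := by
  have h1 : HasDerivAt (fun r : ℝ => 8 * Real.pi ^ 2 * r * a) (8 * Real.pi ^ 2 * a) r := by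
    have := ((hasDerivAt_id r).const_mul (8 * Real.pi ^ 2)).mul_const a
    simpa using this
  exact h1.mul (Pf_rpow_deriv (a - 1) r)

noncomputable def W0 (a : ℝ) : ℝ := Kc a
noncomputable def W1 (a : ℝ) : ℝ := 8 * Real.pi ^ 2 * |a| * Kc (a - 1)
noncomputable def W2 (a : ℝ) : ℝ := W1 a + (16 * Real.pi ^ 2) ^ 2 * |a| * |a - 1| * Kc (a - 1 - 1)

theorem W0_pos (a : ℝ) : 0 < W0 a := Kc_pos a
theorem W1_nonneg (a : ℝ) : 0 ≤ W1 a := by unfold W1; have := Kc_pos (a - 1); positivity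
theorem W2_nonneg (a : ℝ) : 0 ≤ W2 a := by
  unfold W2; have := Kc_pos (a - 1 - 1); have := W1_nonneg a; positivity

theorem w0_s {a r : ℝ} (hr0 : 0 < r) (hr : r ≤ 2) : |w0 a r| ≤ W0 a := by
  unfold w0 W0
  rw [abs_of_pos (Real.rpow_pos_of_pos (Pf_pos r) a)]
  exact Pf_le1 hr0 hr

theorem w1_s {a r : ℝ} (hr0 : 0 < r) (hr : r ≤ 2) : |w1 a r| ≤ W1 a * r := by
  unfold w1 W1
  rw [abs_mul, abs_mul, abs_of_pos (Real.rpow_pos_of_pos (Pf_pos r) _),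
    abs_of_pos (by positivity : 0 < 8 * Real.pi ^ 2 * r)]
  calc 8 * Real.pi ^ 2 * r * |a| * Pf r ^ (a - 1) ≤ 8 * Real.pi ^ 2 * r * |a| * Kc (a - 1) := by
        gcongr; exact Pf_le1 hr0 hr
    _ = _ := by ring

theorem w2_s {a r : ℝ} (hr0 : 0 < r) (hr : r ≤ 2) : |w2 a r| ≤ W2 a := by
  unfold w2 W2 W1
  have p1 := Real.rpow_pos_of_pos (Pf_pos r) (a - 1)
  have p2 := Real.rpow_pos_of_pos (Pf_pos r) (a - 1 - 1)
  refine (abs_add_le _ _).trans (add_le_add ?_ ?_)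
  · rw [abs_mul, abs_mul, abs_of_pos p1, abs_of_pos (by positivity : 0 < 8 * Real.pi ^ 2)]
    gcongr; exact Pf_le1 hr0 hr
  · have e1 : 8 * Real.pi ^ 2 * r * a * (8 * Real.pi ^ 2 * r * (a - 1) * Pf r ^ (a - 1 - 1)) =
        (8 * Real.pi ^ 2 * r) ^ 2 * a * (a - 1) * Pf r ^ (a - 1 - 1) := by ring
    rw [e1, abs_mul, abs_mul, abs_mul, abs_of_pos p2, abs_of_pos (by positivity : 0 < (8 * Real.pi ^ 2 * r) ^ 2)]
    have h3 : 8 * Real.pi ^ 2 * r ≤ 16 * Real.pi ^ 2 := by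
      have : 0 < Real.pi ^ 2 := by positivity
      nlinarith
    gcongr
    exact Pf_le1 hr0 hr

theorem w0_l {a r : ℝ} (hr : 1 ≤ r) : |w0 a r| ≤ W0 a * r ^ (2 * a) := by
  unfold w0 W0
  rw [abs_of_pos (Real.rpow_pos_of_pos (Pf_pos r) a)]
  exact Pf_le2 hr

theorem w1_l {a r : ℝ} (hr : 1 ≤ r) : |w1 a r| ≤ W1 a * r ^ (2 * a - 1) := by
  have hr0 : 0 < r := by linarith
  unfold w1 W1
  rw [abs_mul, abs_mul, abs_of_pos (Real.rpow_pos_of_pos (Pf_pos r) _),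
    abs_of_pos (by positivity : 0 < 8 * Real.pi ^ 2 * r)]
  have h1 : r * r ^ (2 * (a - 1)) = r ^ (2 * a - 1) := by
    have e : 2 * a - 1 = 2 * (a - 1) + 1 := by ring
    rw [e, Real.rpow_add_one hr0.ne']
    ring
  calc 8 * Real.pi ^ 2 * r * |a| * Pf r ^ (a - 1) ≤ 8 * Real.pi ^ 2 * r * |a| * (Kc (a - 1) * r ^ (2 * (a - 1))) := by
        gcongr; exact Pf_le2 hr
    _ = 8 * Real.pi ^ 2 * |a| * Kc (a - 1) * (r * r ^ (2 * (a - 1))) := by ring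
    _ = _ := by rw [h1]

theorem w2_l {a r : ℝ} (hr : 1 ≤ r) : |w2 a r| ≤ W2 a * r ^ (2 * a - 2) := by
  have hr0 : 0 < r := by linarith
  unfold w2 W2 W1
  have p1 := Real.rpow_pos_of_pos (Pf_pos r) (a - 1)
  have p2 := Real.rpow_pos_of_pos (Pf_pos r) (a - 1 - 1)
  have h1 : r ^ (2 * (a - 1)) = r ^ (2 * a - 2) := by congr 1; ring
  have h2 : r ^ 2 * r ^ (2 * (a - 1 - 1)) = r ^ (2 * a - 2) := by
    have e : 2 * a - 2 = 2 * (a - 1 - 1) + 1 + 1 := by ring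
    rw [e, Real.rpow_add_one hr0.ne', Real.rpow_add_one hr0.ne']
    ring
  have k1 := Kc_pos (a - 1 - 1)
  rw [add_mul]
  refine (abs_add_le _ _).trans (add_le_add ?_ ?_)
  · rw [abs_mul, abs_mul, abs_of_pos p1, abs_of_pos (by positivity : 0 < 8 * Real.pi ^ 2)]
    calc 8 * Real.pi ^ 2 * |a| * Pf r ^ (a - 1) ≤ 8 * Real.pi ^ 2 * |a| * (Kc (a - 1) * r ^ (2 * (a - 1))) := by
          gcongr; exact Pf_le2 hr
      _ = _ := by rw [h1]; ring
  · have e1 : 8 * Real.pi ^ 2 * r * a * (8 * Real.pi ^ 2 * r * (a - 1) * Pf r ^ (a - 1 - 1)) =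
        (8 * Real.pi ^ 2 * r) ^ 2 * a * (a - 1) * Pf r ^ (a - 1 - 1) := by ring
    rw [e1, abs_mul, abs_mul, abs_mul, abs_of_pos p2, abs_of_pos (by positivity : 0 < (8 * Real.pi ^ 2 * r) ^ 2)]
    calc (8 * Real.pi ^ 2 * r) ^ 2 * |a| * |a - 1| * Pf r ^ (a - 1 - 1)
        ≤ (16 * Real.pi ^ 2 * r) ^ 2 * |a| * |a - 1| * (Kc (a - 1 - 1) * r ^ (2 * (a - 1 - 1))) := by
          gcongr
          · norm_num
          · exact Pf_le2 hr
      _ = (16 * Real.pi ^ 2) ^ 2 * |a| * |a - 1| * Kc (a - 1 - 1) * (r ^ 2 * r ^ (2 * (a - 1 - 1))) := by ring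
      _ = _ := by rw [h2]

/-- beta and its derivatives -/
noncomputable def b0 (a r : ℝ) : ℝ := (2 * Real.pi)⁻¹ * (r⁻¹ * w0 a r)
noncomputable def b1 (a r : ℝ) : ℝ := (2 * Real.pi)⁻¹ * (-(r ^ 2)⁻¹ * w0 a r + r⁻¹ * w1 a r)
noncomputable def b2 (a r : ℝ) : ℝ := (2 * Real.pi)⁻¹ * ((2 * (r ^ 3)⁻¹ * w0 a r + -(r ^ 2)⁻¹ * w1 a r) +
  (-(r ^ 2)⁻¹ * w1 a r + r⁻¹ * w2 a r))

theorem inv_deriv {r : ℝ} (hr : 0 < r) : HasDerivAt (fun r : ℝ => r⁻¹) (-(r ^ 2)⁻¹) r := hasDerivAt_inv hr.ne'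

theorem inv2_deriv {r : ℝ} (hr : 0 < r) : HasDerivAt (fun r : ℝ => -(r ^ 2)⁻¹) (2 * (r ^ 3)⁻¹) r := by
  have h1 := ((hasDerivAt_pow 2 r).fun_inv (by positivity)).fun_neg
  refine h1.congr_deriv ?_
  push_cast
  field_simp

theorem b0_deriv {a r : ℝ} (hr : 0 < r) : HasDerivAt (b0 a) (b1 a r) r :=
  (((inv_deriv hr).mul (w0_deriv a r))).const_mul _

theorem b1_deriv {a r : ℝ} (hr : 0 < r) : HasDerivAt (b1 a) (b2 a r) r :=
  (((inv2_deriv hr).mul (w0_deriv a r)).add ((inv_deriv hr).mul (w1_deriv a r))).const_mul _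

theorem pi_inv_le : (2 * Real.pi)⁻¹ ≤ 1 := by
  have h4 : 3 < Real.pi := Real.pi_gt_three
  rw [inv_le_one₀ (by positivity)]
  linarith

theorem b0_l {a r : ℝ} (hr : 1 ≤ r) : |b0 a r| ≤ W0 a * r ^ (2 * a - 1) := by
  have hr0 : 0 < r := by linarith
  unfold b0
  have h1 := w0_l (a := a) hr
  have hp : 0 < (2 * Real.pi)⁻¹ := by positivity
  rw [abs_mul, abs_mul, abs_of_pos hp, abs_of_pos (inv_pos.2 hr0)]
  have h2 : r ^ (2 * a - 1) = r⁻¹ * r ^ (2 * a) := by rw [Real.rpow_sub_one hr0.ne']; ring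
  have h3 : 0 ≤ r⁻¹ * |w0 a r| := by positivity
  calc (2 * Real.pi)⁻¹ * (r⁻¹ * |w0 a r|) ≤ 1 * (r⁻¹ * |w0 a r|) := by gcongr; exact pi_inv_le
    _ ≤ 1 * (r⁻¹ * (W0 a * r ^ (2 * a))) := by gcongr
    _ = _ := by rw [h2]; ring

theorem b1_l {a r : ℝ} (hr : 1 ≤ r) : |b1 a r| ≤ (W0 a + W1 a) * r ^ (2 * a - 2) := by
  have hr0 : 0 < r := by linarith
  unfold b1
  have h1 := w0_l (a := a) hr
  have h1' := w1_l (a := a) hr
  have hp : 0 < (2 * Real.pi)⁻¹ := by positivity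
  have h2 : r ^ (2 * a - 2) = (r ^ 2)⁻¹ * r ^ (2 * a) := by
    have e : 2 * a - 2 = 2 * a - 1 - 1 := by ring
    rw [e, Real.rpow_sub_one hr0.ne', Real.rpow_sub_one hr0.ne']
    field_simp
  have h2' : r ^ (2 * a - 2) = r⁻¹ * r ^ (2 * a - 1) := by
    have e : 2 * a - 2 = 2 * a - 1 - 1 := by ring
    rw [e, Real.rpow_sub_one hr0.ne' (2 * a - 1)]
    ring
  rw [abs_mul, abs_of_pos hp]
  have h3 : |-(r ^ 2)⁻¹ * w0 a r + r⁻¹ * w1 a r| ≤ (W0 a + W1 a) * r ^ (2 * a - 2) := by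
    refine (abs_add_le _ _).trans ?_
    rw [abs_mul, abs_mul, abs_neg, abs_of_pos (by positivity : 0 < (r ^ 2)⁻¹), abs_of_pos (inv_pos.2 hr0)]
    calc (r ^ 2)⁻¹ * |w0 a r| + r⁻¹ * |w1 a r| ≤ (r ^ 2)⁻¹ * (W0 a * r ^ (2 * a)) + r⁻¹ * (W1 a * r ^ (2 * a - 1)) := by
          gcongr
      _ = W0 a * ((r ^ 2)⁻¹ * r ^ (2 * a)) + W1 a * (r⁻¹ * r ^ (2 * a - 1)) := by ring
      _ = _ := by rw [← h2, ← h2']; ring
  calc (2 * Real.pi)⁻¹ * |-(r ^ 2)⁻¹ * w0 a r + r⁻¹ * w1 a r| ≤ 1 * |-(r ^ 2)⁻¹ * w0 a r + r⁻¹ * w1 a r| := by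
        gcongr; exact pi_inv_le
    _ ≤ _ := by rw [one_mul]; exact h3

theorem b2_l {a r : ℝ} (hr : 1 ≤ r) : |b2 a r| ≤ (2 * W0 a + 2 * W1 a + W2 a) * r ^ (2 * a - 3) := by
  have hr0 : 0 < r := by linarith
  unfold b2
  have h1 := w0_l (a := a) hr
  have h1' := w1_l (a := a) hr
  have h1'' := w2_l (a := a) hr
  have hp : 0 < (2 * Real.pi)⁻¹ := by positivity
  have h2 : r ^ (2 * a - 3) = (r ^ 3)⁻¹ * r ^ (2 * a) := by
    have e : 2 * a - 3 = 2 * a - 1 - 1 - 1 := by ring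
    rw [e, Real.rpow_sub_one hr0.ne', Real.rpow_sub_one hr0.ne', Real.rpow_sub_one hr0.ne']
    field_simp
  have h2' : r ^ (2 * a - 3) = (r ^ 2)⁻¹ * r ^ (2 * a - 1) := by
    have e : 2 * a - 3 = 2 * a - 1 - 1 - 1 := by ring
    rw [e, Real.rpow_sub_one hr0.ne', Real.rpow_sub_one hr0.ne' (2 * a - 1)]
    field_simp
  have h2'' : r ^ (2 * a - 3) = r⁻¹ * r ^ (2 * a - 2) := by
    have e : 2 * a - 3 = 2 * a - 2 - 1 := by ring
    rw [e, Real.rpow_sub_one hr0.ne' (2 * a - 2)]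
    ring
  rw [abs_mul, abs_of_pos hp]
  have h3 : |(2 * (r ^ 3)⁻¹ * w0 a r + -(r ^ 2)⁻¹ * w1 a r) + (-(r ^ 2)⁻¹ * w1 a r + r⁻¹ * w2 a r)| ≤
      (2 * W0 a + 2 * W1 a + W2 a) * r ^ (2 * a - 3) := by
    refine (abs_add_le _ _).trans ?_
    refine (add_le_add (abs_add_le _ _) (abs_add_le _ _)).trans ?_
    rw [abs_mul (2 * (r ^ 3)⁻¹) (w0 a r), abs_mul (-(r ^ 2)⁻¹) (w1 a r), abs_mul r⁻¹ (w2 a r), abs_neg,
      abs_of_pos (by positivity : 0 < (r ^ 2)⁻¹), abs_of_pos (inv_pos.2 hr0),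
      abs_of_pos (by positivity : 0 < 2 * (r ^ 3)⁻¹)]
    calc _ ≤ (2 * (r ^ 3)⁻¹ * (W0 a * r ^ (2 * a)) + (r ^ 2)⁻¹ * (W1 a * r ^ (2 * a - 1))) +
          ((r ^ 2)⁻¹ * (W1 a * r ^ (2 * a - 1)) + r⁻¹ * (W2 a * r ^ (2 * a - 2))) := by
          gcongr
      _ = 2 * W0 a * ((r ^ 3)⁻¹ * r ^ (2 * a)) + 2 * W1 a * ((r ^ 2)⁻¹ * r ^ (2 * a - 1)) +
          W2 a * (r⁻¹ * r ^ (2 * a - 2)) := by ring
      _ = _ := by rw [← h2, ← h2', ← h2'']; ring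
  calc (2 * Real.pi)⁻¹ * |_| ≤ 1 * |(2 * (r ^ 3)⁻¹ * w0 a r + -(r ^ 2)⁻¹ * w1 a r) + (-(r ^ 2)⁻¹ * w1 a r + r⁻¹ * w2 a r)| := by
        gcongr; exact pi_inv_le
    _ ≤ _ := by rw [one_mul]; exact h3

/-- `sin(cr)/(2πr)` and its derivatives -/
noncomputable def u0 (c r : ℝ) : ℝ := Real.sin (c * r) * ((2 * Real.pi)⁻¹ * r⁻¹)
noncomputable def u1 (c r : ℝ) : ℝ := (2 * Real.pi)⁻¹ * ((c * r * Real.cos (c * r) - Real.sin (c * r)) * (r ^ 2)⁻¹)
noncomputable def u2 (c r : ℝ) : ℝ := (2 * Real.pi)⁻¹ * ((-(c ^ 2 * r * Real.sin (c * r))) * (r ^ 2)⁻¹ -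
  (c * r * Real.cos (c * r) - Real.sin (c * r)) * (2 * (r ^ 3)⁻¹))

theorem u0_deriv {c r : ℝ} (hr : 0 < r) : HasDerivAt (u0 c) (u1 c r) r := by
  have h1 : HasDerivAt (fun r : ℝ => Real.sin (c * r)) (Real.cos (c * r) * c) r := by
    have := ((hasDerivAt_id r).const_mul c).sin
    simpa using this
  have h2 := h1.mul ((inv_deriv hr).const_mul ((2 * Real.pi)⁻¹))
  refine h2.congr_deriv ?_
  unfold u1
  field_simp
  ring

theorem u1_deriv {c r : ℝ} (hr : 0 < r) : HasDerivAt (u1 c) (u2 c r) r := by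
  have h1 : HasDerivAt (fun r : ℝ => Real.sin (c * r)) (Real.cos (c * r) * c) r := by
    have := ((hasDerivAt_id r).const_mul c).sin
    simpa using this
  have h3 : HasDerivAt (fun r : ℝ => Real.cos (c * r)) (-Real.sin (c * r) * c) r := by
    have := ((hasDerivAt_id r).const_mul c).cos
    simpa using this
  have h4 : HasDerivAt (fun r : ℝ => c * r) c r := by
    simpa using (hasDerivAt_id r).const_mul c
  have h5 := (h4.fun_mul h3).fun_sub h1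
  have h6 : HasDerivAt (fun r : ℝ => (r ^ 2)⁻¹) (-(2 * (r ^ 3)⁻¹)) r := by
    have := (inv2_deriv hr).fun_neg
    simpa using this
  have h7 := (h5.mul h6).const_mul ((2 * Real.pi)⁻¹)
  refine h7.congr_deriv ?_
  unfold u2
  ring

theorem aux_x {x : ℝ} (hx : 0 < x) : |x * Real.cos x - Real.sin x| ≤ 2 * x ^ 3 := by
  have h1 := Real.sin_gt_sub_cube hx
  have h2 := Real.sin_lt hx
  have h3 := Real.one_sub_sq_div_two_le_cos (x := x)
  have h4 := Real.cos_le_one x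
  have h5 : 0 < x ^ 3 := by positivity
  rw [abs_le]
  constructor
  · nlinarith
  · nlinarith

/-- the constant -/
noncomputable def Mu : ℝ := 5 * (4 * Real.pi) ^ 3

theorem Mu_pos : 0 < Mu := by unfold Mu; positivity

theorem u0_s {t r : ℝ} (ht : 1 ≤ t) (ht2 : t ≤ 2) (hr : 0 < r) : |u0 (2 * Real.pi * t) r| ≤ 2 := by
  have hpi := Real.pi_pos
  unfold u0
  have hx : 0 < 2 * Real.pi * t * r := by positivity
  have h1 : |Real.sin (2 * Real.pi * t * r)| ≤ 2 * Real.pi * t * r := by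
    have := Real.abs_sin_le_abs (x := 2 * Real.pi * t * r)
    rwa [abs_of_pos hx] at this
  rw [abs_mul, abs_of_pos (by positivity : 0 < (2 * Real.pi)⁻¹ * r⁻¹)]
  calc |Real.sin (2 * Real.pi * t * r)| * ((2 * Real.pi)⁻¹ * r⁻¹) ≤ (2 * Real.pi * t * r) * ((2 * Real.pi)⁻¹ * r⁻¹) := by
        gcongr
    _ = t := by field_simp
    _ ≤ 2 := ht2

theorem c_cube {t : ℝ} (ht : 1 ≤ t) (ht2 : t ≤ 2) : (2 * Real.pi * t) ^ 3 ≤ (4 * Real.pi) ^ 3 := by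
  have hpi := Real.pi_pos
  have h1 : 2 * Real.pi * t ≤ 4 * Real.pi := by nlinarith
  gcongr

theorem u1_s {t r : ℝ} (ht : 1 ≤ t) (ht2 : t ≤ 2) (hr : 0 < r) : |u1 (2 * Real.pi * t) r| ≤ Mu * r := by
  have hpi := Real.pi_pos
  unfold u1 Mu
  have hx : 0 < 2 * Real.pi * t * r := by positivity
  have h1 := aux_x hx
  have h2 := c_cube ht ht2
  rw [abs_mul, abs_mul, abs_of_pos (by positivity : 0 < (2 * Real.pi)⁻¹), abs_of_pos (by positivity : 0 < (r ^ 2)⁻¹)]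
  calc (2 * Real.pi)⁻¹ * (|2 * Real.pi * t * r * Real.cos (2 * Real.pi * t * r) - Real.sin (2 * Real.pi * t * r)| * (r ^ 2)⁻¹)
      ≤ 1 * ((2 * (2 * Real.pi * t * r) ^ 3) * (r ^ 2)⁻¹) := by
        gcongr; exact pi_inv_le
    _ = 2 * (2 * Real.pi * t) ^ 3 * r := by field_simp
    _ ≤ 2 * (4 * Real.pi) ^ 3 * r := by gcongr
    _ ≤ 5 * (4 * Real.pi) ^ 3 * r := by gcongr; norm_num

theorem u2_s {t r : ℝ} (ht : 1 ≤ t) (ht2 : t ≤ 2) (hr : 0 < r) : |u2 (2 * Real.pi * t) r| ≤ Mu := by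
  have hpi := Real.pi_pos
  unfold u2 Mu
  have hx : 0 < 2 * Real.pi * t * r := by positivity
  have h1 := aux_x hx
  have h2 := c_cube ht ht2
  have h3 : |Real.sin (2 * Real.pi * t * r)| ≤ 2 * Real.pi * t * r := by
    have := Real.abs_sin_le_abs (x := 2 * Real.pi * t * r)
    rwa [abs_of_pos hx] at this
  have h4 : |(-((2 * Real.pi * t) ^ 2 * r * Real.sin (2 * Real.pi * t * r))) * (r ^ 2)⁻¹ -
      (2 * Real.pi * t * r * Real.cos (2 * Real.pi * t * r) - Real.sin (2 * Real.pi * t * r)) * (2 * (r ^ 3)⁻¹)| ≤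
      5 * (2 * Real.pi * t) ^ 3 := by
    refine (abs_sub _ _).trans ?_
    rw [abs_mul, abs_neg, abs_mul, abs_mul _ (2 * (r ^ 3)⁻¹), abs_of_pos (by positivity : 0 < (r ^ 2)⁻¹),
      abs_of_pos (by positivity : 0 < 2 * (r ^ 3)⁻¹), abs_of_pos (by positivity : 0 < (2 * Real.pi * t) ^ 2 * r)]
    calc _ ≤ (2 * Real.pi * t) ^ 2 * r * (2 * Real.pi * t * r) * (r ^ 2)⁻¹ + (2 * (2 * Real.pi * t * r) ^ 3) * (2 * (r ^ 3)⁻¹) := by
          gcongr
      _ = 5 * (2 * Real.pi * t) ^ 3 := by field_simp; ring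
  rw [abs_mul, abs_of_pos (by positivity : 0 < (2 * Real.pi)⁻¹)]
  calc _ ≤ 1 * (5 * (2 * Real.pi * t) ^ 3) := by
        gcongr; exact pi_inv_le
    _ ≤ _ := by rw [one_mul]; gcongr

end DSaux

open DSaux in
theorem ds_thm (h : S_DEC) : S_DS := by
  intro n s hn hs
  set a : ℝ := (1 - s) / 2 with ha
  have hpi := Real.pi_pos
  have k0 := W0_pos a
  have k1 := W1_nonneg a
  have k2 := W2_nonneg a
  have kM := Mu_pos
  set C₀ : ℝ := 2 * W0 a + (Mu * W0 a + 2 * W1 a) + (Mu * W0 a + 8 * (Mu * W1 a) + 2 * W2 a) +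
    (2 * W0 a + 2 * W1 a + W2 a) with hC
  have kMW0 : 0 ≤ Mu * W0 a := by positivity
  have kMW1 : 0 ≤ Mu * W1 a := by positivity
  have hC₀ : 0 < C₀ := by rw [hC]; linarith
  obtain ⟨C, hCpos, hmain⟩ := h n s C₀ hn hs hC₀
  refine ⟨C, hCpos, ?_⟩
  intro t ht ht2
  refine hmain t (ms s t) (b0 a) ht ht2 ?_ (Or.inr ?_) ?_ ?_
  · intro r hr
    have hr0 : (0:ℝ) < r := hr
    have h1 : ContDiffAt ℝ 2 (fun r : ℝ => r⁻¹) r := contDiffAt_inv ℝ hr0.ne'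
    have h2 : ContDiffAt ℝ 2 (w0 a) r := by
      have h3 : ContDiffAt ℝ 2 Pf r := by unfold Pf; fun_prop
      exact h3.rpow_const_of_ne (Pf_pos r).ne'
    exact (contDiffAt_const.mul (h1.mul h2)).contDiffWithinAt
  · intro r hr
    unfold ms b0 w0 Pf
    rw [← ha]
    field_simp
  · intro r hr
    obtain ⟨d1, d2⟩ := two_derivs (f := b0 a) (f1 := b1 a) (f2 := b2 a) (fun r hr => b0_deriv hr)
      (fun r hr => b1_deriv hr) r (by linarith)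
    rw [d1, d2]
    have hr0 : 0 < r := by linarith
    have e1 : 2 * a - 1 = -s := by rw [ha]; ring
    have e2 : 2 * a - 2 = -s - 1 := by rw [ha]; ring
    have e3 : 2 * a - 3 = -s - 2 := by rw [ha]; ring
    refine ⟨?_, ?_, ?_⟩
    · refine (b0_l hr).trans ?_
      rw [e1]
      gcongr
      rw [hC]; linarith
    · refine (b1_l hr).trans ?_
      rw [e2]
      gcongr
      rw [hC]; linarith
    · refine (b2_l hr).trans ?_
      rw [e3]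
      gcongr
      rw [hC]; linarith
  · intro r hr hr2
    have hms : ms s t = fun r => u0 (2 * Real.pi * t) r * w0 a r := by
      funext r
      unfold ms u0 w0 Pf
      rw [← ha]
      have e : 2 * Real.pi * (t * r) = 2 * Real.pi * t * r := by ring
      rw [e, div_eq_mul_inv, mul_inv]
    obtain ⟨d1, d2⟩ := two_derivs (f := ms s t)
      (f1 := fun r => u1 (2 * Real.pi * t) r * w0 a r + u0 (2 * Real.pi * t) r * w1 a r)
      (f2 := fun r => (u2 (2 * Real.pi * t) r * w0 a r + u1 (2 * Real.pi * t) r * w1 a r) +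
        (u1 (2 * Real.pi * t) r * w1 a r + u0 (2 * Real.pi * t) r * w2 a r))
      (fun r hr => by rw [hms]; exact (u0_deriv hr).mul (w0_deriv a r))
      (fun r hr => ((u1_deriv hr).mul (w0_deriv a r)).add ((u0_deriv hr).mul (w1_deriv a r))) r hr
    rw [d1, d2, hms]
    have p0 := u0_s ht ht2 hr
    have p1 := u1_s ht ht2 hr
    have p2 := u2_s ht ht2 hr
    have q0 := w0_s (a := a) hr hr2
    have q1 := w1_s (a := a) hr hr2
    have q2 := w2_s (a := a) hr hr2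
    have m00 : |u0 (2 * Real.pi * t) r * w0 a r| ≤ 2 * W0 a := by
      rw [abs_mul]; gcongr
    have m10 : |u1 (2 * Real.pi * t) r * w0 a r| ≤ Mu * r * W0 a := by
      rw [abs_mul]; gcongr
    have m01 : |u0 (2 * Real.pi * t) r * w1 a r| ≤ 2 * (W1 a * r) := by
      rw [abs_mul]; gcongr
    have m20 : |u2 (2 * Real.pi * t) r * w0 a r| ≤ Mu * W0 a := by
      rw [abs_mul]; gcongr
    have m11 : |u1 (2 * Real.pi * t) r * w1 a r| ≤ Mu * r * (W1 a * r) := by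
      rw [abs_mul]; gcongr
    have m02 : |u0 (2 * Real.pi * t) r * w2 a r| ≤ 2 * W2 a := by
      rw [abs_mul]; gcongr
    have hrr : Mu * r * (W1 a * r) ≤ 4 * (Mu * W1 a) := by
      have : r * r ≤ 4 := by nlinarith
      calc Mu * r * (W1 a * r) = (Mu * W1 a) * (r * r) := by ring
        _ ≤ (Mu * W1 a) * 4 := by gcongr
        _ = _ := by ring
    refine ⟨?_, ?_, ?_⟩
    · refine m00.trans ?_
      rw [hC]; linarith
    · refine (abs_add_le _ _).trans ((add_le_add m10 m01).trans ?_)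
      have : Mu * r * W0 a + 2 * (W1 a * r) = (Mu * W0 a + 2 * W1 a) * r := by ring
      rw [this]
      gcongr
      rw [hC]; linarith
    · refine (abs_add_le _ _).trans ((add_le_add (abs_add_le _ _) (abs_add_le _ _)).trans ?_)
      rw [hC]; linarith

end Pool.Agent.R245.WB
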