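import Pool.Agent.R245.WB.Crd

set_option autoImplicit false

/-! Final assembly for MP_ee74d2_an (project WB). -/

open MeasureTheory Set
open scoped ENNReal RealInnerProductSpace FourierTransform SchwartzMap

namespace Pool.Agent.R245.WB

/-- the symbol of `(I - Δ)^(a/2)` -/
noncomputable def bessel {d : ℕ} (a : ℝ) (ζ : E d) : ℝ :=
  (1 + 4 * Real.pi ^ 2 * ‖ζ‖ ^ 2) ^ (a / 2)

/-- the solution of the wave equation -/
noncomputable def wave {d : ℕ} (s : ℝ) (f₀ f₁ : E d → ℂ) (t : ℝ) (z : E d) : ℂ :=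
  ∫ ζ : E d, Complex.exp (((2 * Real.pi * ⟪z, ζ⟫ : ℝ) : ℂ) * Complex.I) *
    (((Real.cos (2 * Real.pi * (t * ‖ζ‖)) * bessel (-s) ζ : ℝ) : ℂ) * 𝓕 f₀ ζ +
      ((Real.sin (2 * Real.pi * (t * ‖ζ‖)) / (2 * Real.pi * ‖ζ‖) * bessel (1 - s) ζ : ℝ) : ℂ) *
        𝓕 f₁ ζ)

/-- the `L^p` norm -/
noncomputable def LN {X : Type} [MeasureSpace X] (p : ℝ) (F : X → ℂ) : ℝ≥0∞ :=
  (∫⁻ z, ‖F z‖ₑ ^ p) ^ (1 / p)

/-- the slice -/
noncomputable def slc {k n d : ℕ} (v : OrthonormalBasis (Fin k ⊕ Fin n) ℝ (E d)) (f : E d → ℂ)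
    (x : E n) (y : E k) : ℂ := f (pt v y x)

/-- the mixed norm -/
noncomputable def mix {k n d : ℕ} (α p : ℝ) (v : OrthonormalBasis (Fin k ⊕ Fin n) ℝ (E d))
    (f : E d → ℂ) : ℝ≥0∞ :=
  (∫⁻ x : E n, bes k α (slc v f x) ^ (p / 2)) ^ (1 / p)

theorem norm_e (x : ℝ) : ‖e x‖ = 1 := by
  unfold e
  rw [Complex.norm_exp_ofReal_mul_I]

theorem cont_e : Continuous e := by
  unfold e
  fun_prop

theorem sym_bound {n : ℕ} {s t C : ℝ} {m : ℝ → ℝ} {g : ℕ → ℝ → ℝ} (hC : 0 < C)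
    (h : Dec n s t C m g) (r : ℝ) (hr : 0 < r) : |m r| ≤ C := by
  obtain ⟨-, h2, -, h4, -⟩ := h
  have a1 : ‖∑' j, g j r‖ₑ ≤ ∑' j, ‖g j r‖ₑ := enorm_tsum_le_tsum_enorm
  rw [(h2 r hr).tsum_eq] at a1
  have a2 : ∑' j, ‖g j r‖ₑ ≤ ENNReal.ofReal C := by
    refine le_trans (le_of_eq ?_) (h4 r hr)
    refine tsum_congr fun j => ?_
    rw [← Real.norm_eq_abs, ofReal_norm]
  have a3 := a1.trans a2
  rw [← ofReal_norm, ENNReal.ofReal_le_ofReal_iff hC.le] at a3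
  exact a3

/-- integrability of the symbol times the Fourier transform -/
theorem int_sym {d : ℕ} {C : ℝ} {m : ℝ → ℝ} (hm : Measurable m)
    (hb : ∀ r, 0 < r → |m r| ≤ C) (f : 𝓢(E d, ℂ)) (hd : 1 ≤ d) :
    Integrable (fun ζ : E d => ((m ‖ζ‖ : ℝ) : ℂ) * 𝓕 (f : E d → ℂ) ζ) := by
  have h1 : Integrable (𝓕 (f : E d → ℂ)) := by
    rw [← SchwartzMap.fourier_coe]
    exact (𝓕 f).integrable
  refine Integrable.mono' (h1.norm.const_mul C) ?_ ?_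
  · exact ((Complex.measurable_ofReal.comp (hm.comp measurable_norm)).aestronglyMeasurable).mul h1.1
  · have : Nonempty (Fin d) := ⟨⟨0, hd⟩⟩
    have h0 : ∀ᵐ ζ : E d, ζ ≠ 0 := by
      refine Measure.ae_ne volume (0 : E d)
    filter_upwards [h0] with ζ hζ
    rw [norm_mul, Complex.norm_real, Real.norm_eq_abs]
    exact mul_le_mul_of_nonneg_right (hb _ (norm_pos_iff.2 hζ)) (norm_nonneg _)

theorem int_e {d : ℕ} {F : E d → ℂ} (hF : Integrable F) (z : E d) :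
    Integrable (fun ζ : E d => e ⟪z, ζ⟫ * F ζ) := by
  refine Integrable.mono' hF.norm ?_ ?_
  · exact (cont_e.comp (by fun_prop)).aestronglyMeasurable.mul hF.1
  · refine Filter.Eventually.of_forall fun ζ => ?_
    rw [norm_mul, norm_e, one_mul]

theorem cont_inv {d : ℕ} {F : E d → ℂ} (hF : Integrable F) :
    Continuous (fun z : E d => ∫ ζ : E d, e ⟪z, ζ⟫ * F ζ) := by
  refine continuous_of_dominated (bound := fun ζ => ‖F ζ‖) ?_ ?_ hF.norm ?_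
  · intro z
    exact (int_e hF z).1
  · intro z
    refine Filter.Eventually.of_forall fun ζ => ?_
    rw [norm_mul, norm_e, one_mul]
  · refine Filter.Eventually.of_forall fun ζ => ?_
    exact (cont_e.comp (by fun_prop)).mul continuous_const

theorem meas_mc (s t : ℝ) : Measurable (mc s t) := by
  unfold mc
  fun_prop

theorem meas_ms (s t : ℝ) : Measurable (ms s t) := by
  unfold ms
  fun_prop

/-- Minkowski's inequality for two functions -/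
theorem LN_add {X : Type} [MeasureSpace X] {p : ℝ} (hp : 1 ≤ p) {F G : X → ℂ}
    (hF : AEMeasurable F) (hG : AEMeasurable G) :
    LN p (fun z => F z + G z) ≤ LN p F + LN p G := by
  unfold LN
  have h := ENNReal.lintegral_Lp_add_le (μ := (volume : Measure X)) hF.enorm hG.enorm hp
  refine le_trans ?_ h
  refine ENNReal.rpow_le_rpow ?_ (by positivity)
  refine lintegral_mono fun z => ?_
  exact ENNReal.rpow_le_rpow (enorm_add_le _ _) (by positivity)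

theorem LN_sum {X ι : Type} [MeasureSpace X] {p : ℝ} (hp : 1 ≤ p) (S : Finset ι) (F : ι → X → ℂ)
    (hF : ∀ i, AEMeasurable (F i)) :
    LN p (fun z => ∑ i ∈ S, F i z) ≤ ∑ i ∈ S, LN p (F i) := by
  classical
  induction S using Finset.induction_on with
  | empty =>
    have hp0 : 0 < p := by linarith
    simp [LN, hp0]
  | insert a S ha ih =>
    simp only [Finset.sum_insert ha]
    refine (LN_add hp (hF a) (Finset.aemeasurable_fun_sum S fun i _ => hF i)).trans ?_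
    gcongr

theorem one_bd {k n : ℕ} {p α C' : ℝ} (hp : 2 < p) (hC' : 0 < C') {m : ℝ → ℝ}
    (h : ∀ f : SchwartzMap (E k × E n) ℂ, ∫⁻ z : E k × E n, ‖mult k n m f z‖ₑ ^ p ≤
      ENNReal.ofReal C' * ∫⁻ x : E n, (bes k α fun y => f (y, x)) ^ (p / 2))
    {d : ℕ} (v : OrthonormalBasis (Fin k ⊕ Fin n) ℝ (E d)) (f : 𝓢(E d, ℂ)) :
    LN p (mu m (f : E d → ℂ)) ≤ ENNReal.ofReal (C' ^ (1 / p)) * mix α p v (f : E d → ℂ) := by
  have h1 := h (fU v f)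
  have e1 : ∫⁻ z : E k × E n, ‖mult k n m (fU v f) z‖ₑ ^ p = ∫⁻ z : E d, ‖mu m f z‖ₑ ^ p := by
    rw [← lint_UL v]
    simp only [mult_fU]
  have e2 : ∀ x : E n, (fun y : E k => fU v f (y, x)) = slc v (f : E d → ℂ) x := by
    intro x
    funext y
    rw [fU_apply, UL_apply]
    rfl
  simp only [e1, e2] at h1
  have h2 := ENNReal.rpow_le_rpow h1 (by positivity : (0 : ℝ) ≤ 1 / p)
  rw [ENNReal.mul_rpow_of_nonneg _ _ (by positivity), ENNReal.ofReal_rpow_of_pos hC'] at h2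
  exact h2

theorem four_sum {d N : ℕ} (f : Fin N → 𝓢(E d, ℂ)) (ζ : E d) :
    𝓕 ((∑ ν, f ν : 𝓢(E d, ℂ)) : E d → ℂ) ζ = ∑ ν, 𝓕 (f ν : E d → ℂ) ζ := by
  have h : ∀ g : 𝓢(E d, ℂ), 𝓕 (g : E d → ℂ) ζ = (𝓕 g) ζ := by
    intro g
    rw [← SchwartzMap.fourier_coe]
  simp only [h]
  have h2 : 𝓕 (∑ ν, f ν) = ∑ ν, 𝓕 (f ν) := by
    have := map_sum (SchwartzMap.fourierTransformCLM ℂ (V := E d) (E := ℂ)) f Finset.univ
    simp
  rw [h2]
  simp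

theorem mu_sum {d N : ℕ} {C : ℝ} {m : ℝ → ℝ} (hm : Measurable m)
    (hb : ∀ r, 0 < r → |m r| ≤ C) (hd : 1 ≤ d) (f : Fin N → 𝓢(E d, ℂ)) (z : E d) :
    mu m ((∑ ν, f ν : 𝓢(E d, ℂ)) : E d → ℂ) z = ∑ ν, mu m (f ν : E d → ℂ) z := by
  unfold mu
  simp only [four_sum, Finset.mul_sum]
  rw [integral_finsetSum]
  intro ν _
  exact int_e (int_sym hm hb (f ν) hd) z

theorem wave_eq {d : ℕ} {C : ℝ} (s t : ℝ) (hb0 : ∀ r, 0 < r → |mc s t r| ≤ C)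
    (hb1 : ∀ r, 0 < r → |ms s t r| ≤ C) (hd : 1 ≤ d) (f₀ f₁ : 𝓢(E d, ℂ)) (z : E d) :
    wave s (f₀ : E d → ℂ) (f₁ : E d → ℂ) t z =
      mu (mc s t) (f₀ : E d → ℂ) z + mu (ms s t) (f₁ : E d → ℂ) z := by
  unfold mu
  rw [← integral_add (int_e (int_sym (meas_mc s t) hb0 f₀ hd) z)
    (int_e (int_sym (meas_ms s t) hb1 f₁ hd) z)]
  unfold wave bessel mc ms e
  refine integral_congr_ae (Filter.Eventually.of_forall fun ζ => ?_)
  simp only [neg_div]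
  push_cast
  ring

/-- part (1) of the theorem -/
theorem part1 (hS : S_SUM) (hc : S_DC) (hd : S_DS) (k n : ℕ) (p s α : ℝ) (hk : 1 ≤ k)
    (hn : 1 ≤ n) (hn3 : n ≤ 3) (hp : 2 < p) (hs : 0 < s) (hα : 0 < α)
    (h1 : ((k : ℝ) + n) * (1 / 2 - 1 / p) - α < s)
    (h2 : ((n : ℝ) - 1) * (1 / 2 - 1 / p) < s) :
    ∃ C : ℝ, 0 < C ∧ ∀ (N : ℕ) (f₀ f₁ : Fin N → 𝓢(E (k + n), ℂ))
      (v₀ v₁ : Fin N → OrthonormalBasis (Fin k ⊕ Fin n) ℝ (E (k + n))) (t : ℝ), 1 ≤ t → t ≤ 2 →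
      LN p (wave s ((∑ ν, f₀ ν : 𝓢(E (k + n), ℂ)) : E (k + n) → ℂ)
        ((∑ ν, f₁ ν : 𝓢(E (k + n), ℂ)) : E (k + n) → ℂ) t) ≤
      ENNReal.ofReal C * ∑ ν, (mix α p (v₀ ν) (f₀ ν : E (k + n) → ℂ) +
        mix α p (v₁ ν) (f₁ ν : E (k + n) → ℂ)) := by
  obtain ⟨C0, hC0, hc⟩ := hc n s hn hs.le
  obtain ⟨C1, hC1, hd⟩ := hd n s hn hs.le
  obtain ⟨D0, hD0, hS0⟩ := hS k n p s α hk hn hn3 hp hs hα h1 h2 C0 hC0
  obtain ⟨D1, hD1, hS1⟩ := hS k n p s α hk hn hn3 hp hs hα h1 h2 C1 hC1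
  refine ⟨max (D0 ^ (1 / p)) (D1 ^ (1 / p)), by positivity, ?_⟩
  intro N f₀ f₁ v₀ v₁ t ht1 ht2
  obtain ⟨g0, hg0⟩ := hc t ht1 ht2
  obtain ⟨g1, hg1⟩ := hd t ht1 ht2
  have hdim : 1 ≤ k + n := by omega
  have hb0 : ∀ r, 0 < r → |mc s t r| ≤ max C0 C1 := fun r hr =>
    (sym_bound hC0 hg0 r hr).trans (le_max_left _ _)
  have hb1 : ∀ r, 0 < r → |ms s t r| ≤ max C0 C1 := fun r hr =>
    (sym_bound hC1 hg1 r hr).trans (le_max_right _ _)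
  have hw : wave s ((∑ ν, f₀ ν : 𝓢(E (k + n), ℂ)) : E (k + n) → ℂ)
      ((∑ ν, f₁ ν : 𝓢(E (k + n), ℂ)) : E (k + n) → ℂ) t =
      fun z => (∑ ν, mu (mc s t) (f₀ ν : E (k + n) → ℂ) z) +
        ∑ ν, mu (ms s t) (f₁ ν : E (k + n) → ℂ) z := by
    funext z
    rw [wave_eq s t hb0 hb1 hdim, mu_sum (meas_mc s t) hb0 hdim, mu_sum (meas_ms s t) hb1 hdim]
  have hm0 : ∀ ν, AEMeasurable (mu (mc s t) (f₀ ν : E (k + n) → ℂ)) := fun ν =>
    (cont_inv (int_sym (meas_mc s t) hb0 (f₀ ν) hdim)).measurable.aemeasurable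
  have hm1 : ∀ ν, AEMeasurable (mu (ms s t) (f₁ ν : E (k + n) → ℂ)) := fun ν =>
    (cont_inv (int_sym (meas_ms s t) hb1 (f₁ ν) hdim)).measurable.aemeasurable
  rw [hw]
  refine (LN_add (by linarith) (Finset.aemeasurable_fun_sum _ fun i _ => hm0 i)
    (Finset.aemeasurable_fun_sum _ fun i _ => hm1 i)).trans ?_
  refine (add_le_add (LN_sum (by linarith) _ _ hm0) (LN_sum (by linarith) _ _ hm1)).trans ?_
  rw [← Finset.sum_add_distrib, Finset.mul_sum]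
  refine Finset.sum_le_sum fun ν _ => ?_
  rw [mul_add]
  refine add_le_add ?_ ?_
  · refine (one_bd hp hD0 (hS0 t _ g0 ht1 ht2 hg0) (v₀ ν) (f₀ ν)).trans ?_
    gcongr
    exact le_max_left _ _
  · refine (one_bd hp hD1 (hS1 t _ g1 ht1 ht2 hg1) (v₁ ν) (f₁ ν)).trans ?_
    gcongr
    exact le_max_right _ _

/-- Tonelli for the slices -/
theorem lint_slc {k n d : ℕ} (v : OrthonormalBasis (Fin k ⊕ Fin n) ℝ (E d)) (f : 𝓢(E d, ℂ))
    (p : ℝ) :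
    ∫⁻ x : E n, ∫⁻ y : E k, ‖slc v (f : E d → ℂ) x y‖ₑ ^ p = ∫⁻ z, ‖f z‖ₑ ^ p := by
  have hm : Measurable (fun z : E k × E n => ‖f (UL v z)‖ₑ ^ p) :=
    ((f.continuous.comp (UL v).continuous).measurable.enorm).pow_const p
  rw [← lint_UL v (fun z => ‖f z‖ₑ ^ p), Measure.volume_eq_prod,
    lintegral_prod_symm' _ hm]
  simp only [slc, UL_apply]

/-- part (2) of the theorem: the mixed norm of regular data -/
theorem mix_reg {k n d : ℕ} {p α Λ : ℝ} (hp : 2 < p) (hΛ : 0 < Λ)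
    (v : OrthonormalBasis (Fin k ⊕ Fin n) ℝ (E d)) (f : 𝓢(E d, ℂ))
    (h : ∀ x : E n, bes k α (slc v (f : E d → ℂ) x) ≤
      ENNReal.ofReal Λ * (∫⁻ y : E k, ‖slc v (f : E d → ℂ) x y‖ₑ ^ p) ^ (2 / p)) :
    mix α p v (f : E d → ℂ) ≤ ENNReal.ofReal (Λ ^ (1 / 2 : ℝ)) * LN p (f : E d → ℂ) := by
  have hp0 : 0 < p := by linarith
  unfold mix LN
  rw [← lint_slc v f p]
  have h1 : ∀ x : E n, bes k α (slc v (f : E d → ℂ) x) ^ (p / 2) ≤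
      ENNReal.ofReal (Λ ^ (p / 2)) * ∫⁻ y : E k, ‖slc v (f : E d → ℂ) x y‖ₑ ^ p := by
    intro x
    refine (ENNReal.rpow_le_rpow (h x) (by positivity)).trans (le_of_eq ?_)
    rw [ENNReal.mul_rpow_of_nonneg _ _ (by positivity), ENNReal.ofReal_rpow_of_pos hΛ,
      ← ENNReal.rpow_mul]
    have : 2 / p * (p / 2) = 1 := by field_simp
    rw [this, ENNReal.rpow_one]
  refine (ENNReal.rpow_le_rpow (lintegral_mono h1) (by positivity)).trans (le_of_eq ?_)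
  rw [lintegral_const_mul' _ _ ENNReal.ofReal_ne_top, ENNReal.mul_rpow_of_nonneg _ _ (by positivity),
    ENNReal.ofReal_rpow_of_pos (by positivity), ← Real.rpow_mul hΛ.le]
  congr 3
  field_simp

/-- the class of data -/
def Reg {k n d : ℕ} (α p Λ : ℝ) (f : 𝓢(E d, ℂ)) : Prop :=
  ∃ (N : ℕ) (g : Fin N → 𝓢(E d, ℂ)) (v : Fin N → OrthonormalBasis (Fin k ⊕ Fin n) ℝ (E d)),
    f = ∑ ν, g ν ∧ (∀ ν x, bes k α (slc (v ν) (g ν : E d → ℂ) x) ≤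
      ENNReal.ofReal Λ * (∫⁻ y : E k, ‖slc (v ν) (g ν : E d → ℂ) x y‖ₑ ^ p) ^ (2 / p)) ∧
    ∑ ν, LN p (g ν : E d → ℂ) ≤ ENNReal.ofReal Λ * LN p (f : E d → ℂ)

theorem part2 (hS : S_SUM) (hc : S_DC) (hd : S_DS) (k n : ℕ) (p s α : ℝ) (hk : 1 ≤ k)
    (hn : 1 ≤ n) (hn3 : n ≤ 3) (hp : 2 < p) (hs : 0 < s) (hα : 0 < α)
    (h1 : ((k : ℝ) + n) * (1 / 2 - 1 / p) - α < s)
    (h2 : ((n : ℝ) - 1) * (1 / 2 - 1 / p) < s) :
    ∃ C : ℝ, 0 < C ∧ ∀ (Λ : ℝ), 0 < Λ → ∀ (f₀ f₁ : 𝓢(E (k + n), ℂ)) (t : ℝ), 1 ≤ t → t ≤ 2 →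
      Reg (k := k) (n := n) α p Λ f₀ → Reg (k := k) (n := n) α p Λ f₁ →
      LN p (wave s (f₀ : E (k + n) → ℂ) (f₁ : E (k + n) → ℂ) t) ≤
      ENNReal.ofReal (C * Λ ^ (3 / 2 : ℝ)) *
        (LN p (f₀ : E (k + n) → ℂ) + LN p (f₁ : E (k + n) → ℂ)) := by
  obtain ⟨C, hC, h⟩ := part1 hS hc hd k n p s α hk hn hn3 hp hs hα h1 h2
  refine ⟨C, hC, ?_⟩
  intro Λ hΛ f₀ f₁ t ht1 ht2 hf0 hf1
  obtain ⟨N0, g0, v0, e0, r0, s0⟩ := hf0
  obtain ⟨N1, g1, v1, e1, r1, s1⟩ := hf1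
  -- one datum at a time
  have key : ∀ (N : ℕ) (g : Fin N → 𝓢(E (k + n), ℂ))
      (v : Fin N → OrthonormalBasis (Fin k ⊕ Fin n) ℝ (E (k + n))) (f : 𝓢(E (k + n), ℂ)),
      (∀ ν x, bes k α (slc (v ν) (g ν : E (k + n) → ℂ) x) ≤
        ENNReal.ofReal Λ * (∫⁻ y : E k, ‖slc (v ν) (g ν : E (k + n) → ℂ) x y‖ₑ ^ p) ^ (2 / p)) →
      ∑ ν, LN p (g ν : E (k + n) → ℂ) ≤ ENNReal.ofReal Λ * LN p (f : E (k + n) → ℂ) →
      ENNReal.ofReal C * ∑ ν, mix α p (v ν) (g ν : E (k + n) → ℂ) ≤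
        ENNReal.ofReal (C * Λ ^ (3 / 2 : ℝ)) * LN p (f : E (k + n) → ℂ) := by
    intro N g v f hr hsum
    have a1 : ∑ ν, mix α p (v ν) (g ν : E (k + n) → ℂ) ≤
        ENNReal.ofReal (Λ ^ (1 / 2 : ℝ)) * ∑ ν, LN p (g ν : E (k + n) → ℂ) := by
      rw [Finset.mul_sum]
      exact Finset.sum_le_sum fun ν _ => mix_reg hp hΛ (v ν) (g ν) (hr ν)
    calc ENNReal.ofReal C * ∑ ν, mix α p (v ν) (g ν : E (k + n) → ℂ)
        ≤ ENNReal.ofReal C * (ENNReal.ofReal (Λ ^ (1 / 2 : ℝ)) *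
            (ENNReal.ofReal Λ * LN p (f : E (k + n) → ℂ))) := by
          gcongr
          exact a1.trans (by gcongr)
      _ = _ := by
          rw [← mul_assoc, ← mul_assoc, ← ENNReal.ofReal_mul hC.le,
            ← ENNReal.ofReal_mul (by positivity)]
          congr 2
          rw [mul_assoc]
          congr 1
          nth_rewrite 2 [← Real.rpow_one Λ]
          rw [← Real.rpow_add hΛ]
          norm_num
  -- combine: the data with N0 + N1 pieces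
  have hz0 : ∑ ν, (Fin.append g0 (fun _ : Fin N1 => (0 : 𝓢(E (k + n), ℂ)))) ν = f₀ := by
    rw [Fin.sum_univ_add, e0]
    simp
  have hz1 : ∑ ν, (Fin.append (fun _ : Fin N0 => (0 : 𝓢(E (k + n), ℂ))) g1) ν = f₁ := by
    rw [Fin.sum_univ_add, e1]
    simp
  have hh := h (N0 + N1) (Fin.append g0 (fun _ : Fin N1 => (0 : 𝓢(E (k + n), ℂ))))
    (Fin.append (fun _ : Fin N0 => (0 : 𝓢(E (k + n), ℂ))) g1) (Fin.append v0 v1)
    (Fin.append v0 v1) t ht1 ht2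
  rw [hz0, hz1] at hh
  refine hh.trans ?_
  have hmix0 : ∀ v : OrthonormalBasis (Fin k ⊕ Fin n) ℝ (E (k + n)),
      mix α p v ((0 : 𝓢(E (k + n), ℂ)) : E (k + n) → ℂ) = 0 := by
    intro v
    have hp0 : 0 < p := by linarith
    have hb : ∀ x : E n, bes k α (slc v ((0 : 𝓢(E (k + n), ℂ)) : E (k + n) → ℂ) x) = 0 := by
      intro x
      unfold bes slc
      simp
    unfold mix
    simp only [hb]
    rw [ENNReal.zero_rpow_of_pos (by positivity), lintegral_zero,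
      ENNReal.zero_rpow_of_pos (by positivity)]
  rw [Fin.sum_univ_add]
  simp only [Fin.append_left, Fin.append_right, hmix0, add_zero, zero_add]
  rw [mul_add, mul_add]
  exact add_le_add (key N0 g0 v0 f₀ r0 s0) (key N1 g1 v1 f₁ r1 s1)

end Pool.Agent.R245.WB
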