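import Pool.Agent.R245.WB.Pl

set_option autoImplicit false

/-! WB-L2: the `L²` bound for the mixed operator, by Plancherel (proof of S_L2) -/

open MeasureTheory Set
open scoped ENNReal RealInnerProductSpace

namespace Pool.Agent.R245.WB

namespace L2aux

lemma cont_e : Continuous e := by
  unfold e
  fun_prop

lemma norm_e (x : ℝ) : ‖e x‖ = 1 := by
  unfold e
  rw [Complex.norm_exp_ofReal_mul_I]

lemma e_add (x y : ℝ) : e (x + y) = e x * e y := by
  unfold e
  rw [← Complex.exp_add]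
  congr 1
  push_cast
  ring

/-- the symbol, extended by zero -/
noncomputable def gi (g : ℝ → ℝ) : ℝ → ℝ := (Ioi (0 : ℝ)).indicator g

lemma meas_gi {g : ℝ → ℝ} (hg : ContinuousOn g (Ioi 0)) : Measurable (gi g) := by
  classical
  have h := ContinuousOn.measurable_piecewise (f := g) (g := fun _ : ℝ => (0 : ℝ)) hg
    continuousOn_const (measurableSet_Ioi (a := (0 : ℝ)))
  have h2 : (Ioi (0 : ℝ)).piecewise g (fun _ : ℝ => (0 : ℝ)) = gi g := by
    funext r
    unfold gi Set.piecewise Set.indicator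
    rfl
  rw [← h2]
  exact h

variable {k n : ℕ}

/-- the symbol as a function of both frequencies -/
noncomputable def Gs (g : ℝ → ℝ) (p : E k × E n) : ℂ :=
  ((gi g (Real.sqrt (‖p.1‖ ^ 2 + ‖p.2‖ ^ 2)) : ℝ) : ℂ)

lemma meas_Gs {g : ℝ → ℝ} (hg : ContinuousOn g (Ioi 0)) :
    Measurable (Gs g : E k × E n → ℂ) := by
  unfold Gs
  apply Complex.measurable_ofReal.comp
  apply (meas_gi hg).comp
  have : Continuous fun p : E k × E n => Real.sqrt (‖p.1‖ ^ 2 + ‖p.2‖ ^ 2) := by fun_prop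
  exact this.measurable

lemma norm_Gs_le {A Λ R : ℝ} {g : ℝ → ℝ} {M : Set (E k)} (hG : AdmG k A Λ R g M)
    (p : E k × E n) :
    ‖Gs g p‖ ≤ (Metric.closedBall (0 : E n) Λ).indicator (fun _ => A) p.2 := by
  obtain ⟨hA, hΛ, hgc, hg0, hgA, hM, hMR⟩ := hG
  have hnn : 0 ≤ (Metric.closedBall (0 : E n) Λ).indicator (fun _ => A) p.2 :=
    Set.indicator_nonneg (fun _ _ => hA) _
  unfold Gs gi
  rw [Complex.norm_real, Real.norm_eq_abs]
  by_cases hr : 0 < Real.sqrt (‖p.1‖ ^ 2 + ‖p.2‖ ^ 2)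
  · rw [Set.indicator_of_mem (Set.mem_Ioi.mpr hr)]
    by_cases hp : ‖p.2‖ ≤ Λ
    · rw [Set.indicator_of_mem (mem_closedBall_zero_iff.mpr hp)]
      exact hgA _ hr
    · have h1 : Λ < Real.sqrt (‖p.1‖ ^ 2 + ‖p.2‖ ^ 2) := by
        apply (not_le.mp hp).trans_le
        apply Real.le_sqrt_of_sq_le
        have := sq_nonneg ‖p.1‖
        linarith
      rw [hg0 _ h1, abs_zero]
      exact hnn
  · rw [Set.indicator_of_notMem (fun h => hr (Set.mem_Ioi.mp h)), abs_zero]
    exact hnn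

lemma norm_Gs_le_A {A Λ R : ℝ} {g : ℝ → ℝ} {M : Set (E k)} (hG : AdmG k A Λ R g M)
    (p : E k × E n) : ‖Gs g p‖ ≤ A := by
  refine (norm_Gs_le hG p).trans ?_
  exact Set.indicator_le_self' (fun _ _ => hG.1) _

/-- partial Fourier transform in `x` -/
noncomputable def Fh (F : E k × E n → ℂ) (w : E k × E n) : ℂ :=
  ∫ x : E n, e (-⟪x, w.2⟫) * F (w.1, x)

lemma meas_Fh {F : E k × E n → ℂ} (hF : Measurable F) : Measurable (Fh F) := by
  have h : Measurable (fun p : (E k × E n) × E n => e (-⟪p.2, p.1.2⟫) * F (p.1.1, p.2)) := by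
    apply Measurable.mul
    · have : Continuous fun p : (E k × E n) × E n => e (-⟪p.2, p.1.2⟫) :=
        cont_e.comp (by fun_prop)
      exact this.measurable
    · exact hF.comp (by fun_prop)
  exact h.stronglyMeasurable.integral_prod_right'.measurable

lemma norm_Fh_le {F : E k × E n → ℂ} {h : E n → ℝ} (hh : Integrable h)
    (hFh : ∀ η x, ‖F (η, x)‖ ≤ h x) (w : E k × E n) : ‖Fh F w‖ ≤ ∫ x, h x := by
  unfold Fh
  apply norm_integral_le_of_norm_le hh
  refine Filter.Eventually.of_forall fun x => ?_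
  rw [norm_mul, norm_e, one_mul]
  exact hFh _ _

/-- the function `K(η, x)` -/
noncomputable def KK (g : ℝ → ℝ) (F : E k × E n → ℂ) (w : E k × E n) : ℂ :=
  ∫ ξ : E n, e ⟪w.2, ξ⟫ * (Gs g (w.1, ξ) * Fh F (w.1, ξ))

lemma meas_KK {g : ℝ → ℝ} (hg : ContinuousOn g (Ioi 0)) {F : E k × E n → ℂ}
    (hF : Measurable F) : Measurable (KK g F) := by
  have h : Measurable (fun p : (E k × E n) × E n =>
      e ⟪p.1.2, p.2⟫ * (Gs g (p.1.1, p.2) * Fh F (p.1.1, p.2))) := by
    apply Measurable.mul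
    · have : Continuous fun p : (E k × E n) × E n => e ⟪p.1.2, p.2⟫ :=
        cont_e.comp (by fun_prop)
      exact this.measurable
    · exact ((meas_Gs hg).comp (by fun_prop)).mul ((meas_Fh hF).comp (by fun_prop))
  exact h.stronglyMeasurable.integral_prod_right'.measurable

lemma norm_prod_le {A Λ R : ℝ} {g : ℝ → ℝ} {M : Set (E k)} (hG : AdmG k A Λ R g M)
    {F : E k × E n → ℂ} {h : E n → ℝ} (hh : Integrable h)
    (hFh : ∀ η x, ‖F (η, x)‖ ≤ h x) (η : E k) (ξ : E n) :
    ‖Gs g (η, ξ) * Fh F (η, ξ)‖ ≤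
      (Metric.closedBall (0 : E n) Λ).indicator (fun _ => A * ∫ x, h x) ξ := by
  rw [norm_mul]
  have h1 := norm_Gs_le hG (η, ξ)
  have h2 := norm_Fh_le hh hFh (η, ξ)
  have h3 : (Metric.closedBall (0 : E n) Λ).indicator (fun _ => A * ∫ x, h x) ξ =
      (Metric.closedBall (0 : E n) Λ).indicator (fun _ => A) ξ * ∫ x, h x := by
    by_cases hξ : ξ ∈ Metric.closedBall (0 : E n) Λ
    · rw [Set.indicator_of_mem hξ, Set.indicator_of_mem hξ]
    · rw [Set.indicator_of_notMem hξ, Set.indicator_of_notMem hξ, zero_mul]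
  rw [h3]
  exact mul_le_mul h1 h2 (norm_nonneg _) ((norm_nonneg _).trans h1)

/-- bounded functions that vanish off a bounded set -/
lemma memLp_of_bdd {m : ℕ} {f : E m → ℂ} (hf : Measurable f) {ρ B : ℝ}
    (h : ∀ x, ‖f x‖ ≤ (Metric.closedBall (0 : E m) ρ).indicator (fun _ => B) x) (p : ℝ≥0∞) :
    MemLp f p := by
  have h1 : MemLp ((Metric.closedBall (0 : E m) ρ).indicator (fun _ => B)) p
      (volume : Measure (E m)) :=
    memLp_indicator_const p Metric.isClosed_closedBall.measurableSet B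
      (Or.inr measure_closedBall_lt_top.ne)
  refine h1.mono hf.aestronglyMeasurable (Filter.Eventually.of_forall fun x => ?_)
  exact (h x).trans (le_abs_self _)

lemma norm_KK_le {A Λ R : ℝ} {g : ℝ → ℝ} {M : Set (E k)} (hG : AdmG k A Λ R g M)
    {F : E k × E n → ℂ} {h : E n → ℝ} (hh : Integrable h)
    (hFh : ∀ η x, ‖F (η, x)‖ ≤ h x) (w : E k × E n) :
    ‖KK g F w‖ ≤
      ∫ ξ : E n, (Metric.closedBall (0 : E n) Λ).indicator (fun _ => A * ∫ x, h x) ξ := by
  unfold KK
  apply norm_integral_le_of_norm_le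
  · rw [← memLp_one_iff_integrable]
    exact memLp_indicator_const 1 Metric.isClosed_closedBall.measurableSet _
      (Or.inr measure_closedBall_lt_top.ne)
  · refine Filter.Eventually.of_forall fun ξ => ?_
    rw [norm_mul, norm_e, one_mul]
    exact norm_prod_le hG hh hFh _ _

/-- Fubini -/
lemma inner_eq {A Λ R : ℝ} {g : ℝ → ℝ} {M : Set (E k)} (hG : AdmG k A Λ R g M)
    {F : E k × E n → ℂ} (hF : Measurable F) {h : E n → ℝ} (hh : Integrable h)
    (hFh : ∀ η x, ‖F (η, x)‖ ≤ h x) {η : E k} (hη : 0 < ‖η‖) (x : E n) :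
    ∫ x' : E n, Ker n g ‖η‖ (x - x') * F (η, x') = KK g F (η, x) := by
  have hker : ∀ u : E n, Ker n g ‖η‖ u = ∫ ξ : E n, e ⟪u, ξ⟫ * Gs g (η, ξ) := by
    intro u
    unfold Ker
    apply integral_congr_ae
    refine Filter.Eventually.of_forall fun ξ => ?_
    simp only
    congr 1
    unfold Gs gi
    rw [Set.indicator_of_mem]
    rw [Set.mem_Ioi]
    apply Real.sqrt_pos.mpr
    positivity
  have h1 : ∀ x' : E n, Ker n g ‖η‖ (x - x') * F (η, x') =
      ∫ ξ : E n, e ⟪x - x', ξ⟫ * Gs g (η, ξ) * F (η, x') := by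
    intro x'
    rw [hker, integral_mul_const]
  simp_rw [h1]
  have hint : Integrable (Function.uncurry fun (x' ξ : E n) =>
      e ⟪x - x', ξ⟫ * Gs g (η, ξ) * F (η, x')) (volume.prod volume) := by
    have hb : Integrable (fun ξ : E n =>
        (Metric.closedBall (0 : E n) Λ).indicator (fun _ => A) ξ) := by
      rw [← memLp_one_iff_integrable]
      exact memLp_indicator_const 1 Metric.isClosed_closedBall.measurableSet _
        (Or.inr measure_closedBall_lt_top.ne)
    have hp := hh.mul_prod hb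
    refine hp.mono' ?_ (Filter.Eventually.of_forall fun p => ?_)
    · apply Measurable.aestronglyMeasurable
      unfold Function.uncurry
      apply Measurable.mul
      · apply Measurable.mul
        · have : Continuous fun p : E n × E n => e ⟪x - p.1, p.2⟫ :=
            cont_e.comp (by fun_prop)
          exact this.measurable
        · exact (meas_Gs hG.2.2.1).comp (by fun_prop)
      · exact hF.comp (by fun_prop)
    · unfold Function.uncurry
      simp only
      rw [norm_mul, norm_mul, norm_e, one_mul, mul_comm]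
      have h2 := hFh η p.1
      have h3 := norm_Gs_le (n := n) hG (η, p.2)
      exact mul_le_mul h2 h3 (norm_nonneg _) ((norm_nonneg _).trans h2)
  rw [integral_integral_swap hint]
  unfold KK Fh
  apply integral_congr_ae
  refine Filter.Eventually.of_forall fun ξ => ?_
  simp only
  rw [← integral_const_mul, ← integral_const_mul]
  apply integral_congr_ae
  refine Filter.Eventually.of_forall fun x' => ?_
  simp only
  rw [inner_sub_left, sub_eq_add_neg, e_add]
  ring

/-- Plancherel in `x` -/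
lemma planch_x {A Λ R : ℝ} {g : ℝ → ℝ} {M : Set (E k)} (hG : AdmG k A Λ R g M)
    {F : E k × E n → ℂ} (hF : Measurable F) {h : E n → ℝ} {b : ℝ} (hh : Integrable h)
    (hb : ∀ x, h x ≤ b) (hFh : ∀ η x, ‖F (η, x)‖ ≤ h x) (η : E k) :
    ∫⁻ x : E n, ‖KK g F (η, x)‖ₑ ^ 2 ≤
      ENNReal.ofReal (A ^ 2) * ∫⁻ x : E n, ‖F (η, x)‖ₑ ^ 2 := by
  have hm : Measurable (fun ξ : E n => Gs g (η, ξ) * Fh F (η, ξ)) :=
    ((meas_Gs hG.2.2.1).comp (by fun_prop)).mul ((meas_Fh hF).comp (by fun_prop))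
  have h2 := (pl_thm n (fun ξ : E n => Gs g (η, ξ) * Fh F (η, ξ))
    (memLp_one_iff_integrable.mp (memLp_of_bdd hm (norm_prod_le hG hh hFh η) 1))
    (memLp_of_bdd hm (norm_prod_le hG hh hFh η) 2)).2
  have hFm : Measurable (fun x : E n => F (η, x)) := hF.comp (by fun_prop)
  have hF1 : Integrable (fun x : E n => F (η, x)) :=
    hh.mono' hFm.aestronglyMeasurable (Filter.Eventually.of_forall fun x => hFh η x)
  have hF2 : MemLp (fun x : E n => F (η, x)) 2 := by
    rw [memLp_two_iff_integrable_sq_norm hFm.aestronglyMeasurable]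
    refine (hh.const_mul b).mono' (hFm.norm.pow_const 2).aestronglyMeasurable
      (Filter.Eventually.of_forall fun x => ?_)
    rw [Real.norm_of_nonneg (by positivity), sq]
    have h3 := hFh η x
    exact mul_le_mul (h3.trans (hb x)) h3 (norm_nonneg _)
      (((norm_nonneg _).trans h3).trans (hb x))
  have h1 := (pl_thm n (fun x : E n => F (η, x)) hF1 hF2).1
  calc ∫⁻ x : E n, ‖KK g F (η, x)‖ₑ ^ 2
      = ∫⁻ ξ : E n, ‖Gs g (η, ξ) * Fh F (η, ξ)‖ₑ ^ 2 := h2
    _ ≤ ∫⁻ ξ : E n, ENNReal.ofReal (A ^ 2) * ‖Fh F (η, ξ)‖ₑ ^ 2 := by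
        refine lintegral_mono fun ξ => ?_
        rw [enorm_mul, mul_pow]
        refine mul_le_mul_left ?_ _
        rw [ENNReal.ofReal_pow hG.1]
        apply pow_le_pow_left'
        rw [← ofReal_norm]
        exact ENNReal.ofReal_le_ofReal (norm_Gs_le_A hG _)
    _ = ENNReal.ofReal (A ^ 2) * ∫⁻ ξ : E n, ‖Fh F (η, ξ)‖ₑ ^ 2 :=
        lintegral_const_mul' _ _ ENNReal.ofReal_ne_top
    _ = ENNReal.ofReal (A ^ 2) * ∫⁻ x : E n, ‖F (η, x)‖ₑ ^ 2 := by
        rw [← h1]
        rfl

end L2aux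

open L2aux

theorem l2_thm : S_L2 := by
  intro k n A Λ R g M hk hn hG F hAF
  obtain ⟨hF, h, b, hh, hb, hFh⟩ := hAF
  have hMm : MeasurableSet M := hG.2.2.2.2.2.1
  have hMR := hG.2.2.2.2.2.2
  have hgc := hG.2.2.1
  have hKm := meas_KK hgc hF
  -- the operator
  have hT : ∀ z : E k × E n, T k n g M F z =
      ∫ η : E k, e ⟪z.1, η⟫ * M.indicator (fun η => KK g F (η, z.2)) η := by
    intro z
    unfold T
    rw [← integral_indicator hMm]
    apply integral_congr_ae
    refine Filter.Eventually.of_forall fun η => ?_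
    simp only
    by_cases hη : η ∈ M
    · rw [Set.indicator_of_mem hη, Set.indicator_of_mem hη,
        inner_eq hG hF hh hFh (hMR η hη).1]
    · rw [Set.indicator_of_notMem hη, Set.indicator_of_notMem hη, mul_zero]
  have hmT : Measurable (fun z : E k × E n => ‖T k n g M F z‖ₑ ^ 2) := by
    have h1 : Measurable (fun p : (E k × E n) × E k =>
        e ⟪p.1.1, p.2⟫ * M.indicator (fun η => KK g F (η, p.1.2)) p.2) := by
      apply Measurable.mul
      · have : Continuous fun p : (E k × E n) × E k => e ⟪p.1.1, p.2⟫ :=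
          cont_e.comp (by fun_prop)
        exact this.measurable
      · have h2 : (fun p : (E k × E n) × E k => M.indicator (fun η => KK g F (η, p.1.2)) p.2) =
            (Prod.snd ⁻¹' M).indicator (fun p : (E k × E n) × E k => KK g F (p.2, p.1.2)) := by
          funext p
          unfold Set.indicator
          rfl
        rw [h2]
        exact (hKm.comp (by fun_prop)).indicator (measurable_snd hMm)
    have h3 : Measurable (T k n g M F) := by
      have h4 : T k n g M F = fun z => ∫ η : E k, e ⟪z.1, η⟫ *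
          M.indicator (fun η => KK g F (η, z.2)) η := funext hT
      rw [h4]
      exact h1.stronglyMeasurable.integral_prod_right'.measurable
    exact h3.enorm.pow_const 2
  -- Plancherel in `y`
  have hpy : ∀ x : E n, ∫⁻ y : E k, ‖T k n g M F (y, x)‖ₑ ^ 2 =
      ∫⁻ η in M, ‖KK g F (η, x)‖ₑ ^ 2 := by
    intro x
    set f : E k → ℂ := M.indicator (fun η => KK g F (η, x)) with hf
    have hfm : Measurable f := (hKm.comp (by fun_prop)).indicator hMm
    have hfb : ∀ η, ‖f η‖ ≤ (Metric.closedBall (0 : E k) R).indicator (fun _ =>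
        ∫ ξ : E n, (Metric.closedBall (0 : E n) Λ).indicator (fun _ => A * ∫ x, h x) ξ) η := by
      intro η
      by_cases hη : η ∈ M
      · rw [hf, Set.indicator_of_mem hη, Set.indicator_of_mem
          (mem_closedBall_zero_iff.mpr (hMR η hη).2.le)]
        exact norm_KK_le hG hh hFh _
      · rw [hf, Set.indicator_of_notMem hη, norm_zero]
        apply Set.indicator_nonneg
        intro _ _
        exact (norm_nonneg _).trans (norm_KK_le hG hh hFh (0, x))
    have h2 := (pl_thm k f (memLp_one_iff_integrable.mp (memLp_of_bdd hfm hfb 1))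
      (memLp_of_bdd hfm hfb 2)).2
    calc ∫⁻ y : E k, ‖T k n g M F (y, x)‖ₑ ^ 2
        = ∫⁻ y : E k, ‖∫ η : E k, e ⟪y, η⟫ * f η‖ₑ ^ 2 := by
          refine lintegral_congr fun y => ?_
          rw [hT]
      _ = ∫⁻ η : E k, ‖f η‖ₑ ^ 2 := h2
      _ = ∫⁻ η in M, ‖KK g F (η, x)‖ₑ ^ 2 := by
          rw [← lintegral_indicator hMm]
          refine lintegral_congr fun η => ?_
          by_cases hη : η ∈ M
          · rw [hf, Set.indicator_of_mem hη, Set.indicator_of_mem hη]
          · rw [hf, Set.indicator_of_notMem hη, Set.indicator_of_notMem hη, enorm_zero]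
            norm_num
  have hKe : Measurable (fun p : E k × E n => ‖KK g F p‖ₑ ^ 2) := hKm.enorm.pow_const 2
  have hFe : Measurable (fun p : E k × E n => ‖F p‖ₑ ^ 2) := hF.enorm.pow_const 2
  calc ∫⁻ z : E k × E n, ‖T k n g M F z‖ₑ ^ 2
      = ∫⁻ x : E n, ∫⁻ y : E k, ‖T k n g M F (y, x)‖ₑ ^ 2 :=
        lintegral_prod_symm _ hmT.aemeasurable
    _ = ∫⁻ x : E n, ∫⁻ η in M, ‖KK g F (η, x)‖ₑ ^ 2 := lintegral_congr hpy
    _ = ∫⁻ η in M, ∫⁻ x : E n, ‖KK g F (η, x)‖ₑ ^ 2 :=
        lintegral_lintegral_swap (f := fun x η => ‖KK g F (η, x)‖ₑ ^ 2)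
          (hKe.comp measurable_swap).aemeasurable
    _ ≤ ∫⁻ η in M, ENNReal.ofReal (A ^ 2) * ∫⁻ x : E n, ‖F (η, x)‖ₑ ^ 2 :=
        lintegral_mono fun η => planch_x hG hF hh hb hFh η
    _ = ENNReal.ofReal (A ^ 2) * ∫⁻ η in M, ∫⁻ x : E n, ‖F (η, x)‖ₑ ^ 2 :=
        lintegral_const_mul' _ _ ENNReal.ofReal_ne_top
    _ = ENNReal.ofReal (A ^ 2) * ∫⁻ x : E n, ∫⁻ η in M, ‖F (η, x)‖ₑ ^ 2 := by
        congr 1
        exact lintegral_lintegral_swap (f := fun η x => ‖F (η, x)‖ₑ ^ 2) hFe.aemeasurable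

end Pool.Agent.R245.WB
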