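import Pool.Agent.R245.WB.Pl

set_option autoImplicit false

/-! LAP: the weighted `L²` bound for the kernel, from Plancherel's theorem -/

open MeasureTheory Set
open scoped ENNReal RealInnerProductSpace

namespace Pool.Agent.R245.WB

namespace LAPaux

lemma norm_e (x : ℝ) : ‖e x‖ = 1 := by
  unfold e
  exact Complex.norm_exp_ofReal_mul_I _

lemma hasDerivAt_e (x : ℝ) : HasDerivAt e ((2 * Real.pi * Complex.I) * e x) x := by
  have h1 : HasDerivAt (fun y : ℝ => ((2 * Real.pi * y : ℝ) : ℂ) * Complex.I)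
      (((2 * Real.pi : ℝ) : ℂ) * Complex.I) x := by
    have h0 : HasDerivAt (fun y : ℝ => 2 * Real.pi * y) (2 * Real.pi) x := by
      simpa using (hasDerivAt_id x).const_mul (2 * Real.pi)
    exact h0.ofReal_comp.mul_const Complex.I
  have h2 := h1.cexp
  have h3 : (2 * Real.pi * Complex.I) * e x =
      Complex.exp (((2 * Real.pi * x : ℝ) : ℂ) * Complex.I) *
        (((2 * Real.pi : ℝ) : ℂ) * Complex.I) := by
    unfold e
    push_cast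
    ring
  rw [h3]
  exact h2

lemma continuous_e : Continuous e := by
  unfold e
  fun_prop

lemma norm_line {n : ℕ} (x : E n) (i : Fin n) (t : ℝ) :
    ‖x + t • EuclideanSpace.single i (1 : ℝ)‖ ^ 2 = ‖x‖ ^ 2 + 2 * t * x i + t ^ 2 := by
  rw [norm_add_sq_real, inner_smul_right, norm_smul, EuclideanSpace.inner_single_right]
  simp
  ring

lemma rpos {n : ℕ} {a : ℝ} (ha : 0 < a) (x : E n) : 0 < Real.sqrt (a ^ 2 + ‖x‖ ^ 2) :=
  Real.sqrt_pos.mpr (by positivity)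

lemma rge {n : ℕ} {a : ℝ} (x : E n) : a ≤ Real.sqrt (a ^ 2 + ‖x‖ ^ 2) :=
  Real.le_sqrt_of_sq_le (by nlinarith [sq_nonneg ‖x‖])

lemma rge' {n : ℕ} {a : ℝ} (x : E n) : ‖x‖ ≤ Real.sqrt (a ^ 2 + ‖x‖ ^ 2) :=
  Real.le_sqrt_of_sq_le (by nlinarith [sq_nonneg a])

lemma hasDerivAt_r {n : ℕ} {a : ℝ} (ha : 0 < a) (x : E n) (i : Fin n) :
    HasDerivAt (fun t : ℝ => Real.sqrt (a ^ 2 + ‖x + t • EuclideanSpace.single i (1 : ℝ)‖ ^ 2))
      (x i / Real.sqrt (a ^ 2 + ‖x‖ ^ 2)) 0 := by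
  simp only [norm_line]
  have h2 : HasDerivAt (fun t : ℝ => a ^ 2 + (‖x‖ ^ 2 + 2 * t * x i + t ^ 2)) (2 * x i) 0 := by
    have h0 := hasDerivAt_id (0 : ℝ)
    have h := ((((h0.const_mul 2).mul_const (x i)).const_add (‖x‖ ^ 2)).add (h0.pow 2)).const_add
      (a ^ 2)
    have h' : 2 * x i = 2 * 1 * x i + ((2 : ℕ) : ℝ) * id (0 : ℝ) ^ (2 - 1) * 1 := by simp
    rw [h']
    exact h
  have hne : a ^ 2 + (‖x‖ ^ 2 + 2 * 0 * x i + 0 ^ 2) ≠ 0 := by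
    have h5 : 0 < a ^ 2 := by positivity
    nlinarith [sq_nonneg ‖x‖]
  have h3 := h2.sqrt hne
  have h4 : x i / Real.sqrt (a ^ 2 + ‖x‖ ^ 2) =
      2 * x i / (2 * Real.sqrt (a ^ 2 + (‖x‖ ^ 2 + 2 * 0 * x i + 0 ^ 2))) := by
    have := (rpos ha x).ne'
    simp only [mul_zero, zero_mul, add_zero, ne_eq, OfNat.ofNat_ne_zero, not_false_eq_true,
      zero_pow]
    field_simp
  rw [h4]
  exact h3

/-- the first derivative -/
noncomputable def G1 {n : ℕ} (a : ℝ) (g : ℝ → ℝ) (i : Fin n) (x : E n) : ℝ :=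
  deriv g (Real.sqrt (a ^ 2 + ‖x‖ ^ 2)) * (x i / Real.sqrt (a ^ 2 + ‖x‖ ^ 2))

/-- the second derivative -/
noncomputable def G2 {n : ℕ} (a : ℝ) (g : ℝ → ℝ) (i : Fin n) (x : E n) : ℝ :=
  deriv (deriv g) (Real.sqrt (a ^ 2 + ‖x‖ ^ 2)) *
      ((x i) ^ 2 / (Real.sqrt (a ^ 2 + ‖x‖ ^ 2)) ^ 2) +
    deriv g (Real.sqrt (a ^ 2 + ‖x‖ ^ 2)) *
      (1 / Real.sqrt (a ^ 2 + ‖x‖ ^ 2) - (x i) ^ 2 / (Real.sqrt (a ^ 2 + ‖x‖ ^ 2)) ^ 3)

lemma hasLine0 {n : ℕ} {a : ℝ} (ha : 0 < a) {g : ℝ → ℝ} (hg : DifferentiableOn ℝ g (Ioi 0))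
    (x : E n) (i : Fin n) :
    HasLineDerivAt ℝ (fun y : E n => ((g (Real.sqrt (a ^ 2 + ‖y‖ ^ 2)) : ℝ) : ℂ))
      ((G1 a g i x : ℝ) : ℂ) x (EuclideanSpace.single i (1 : ℝ)) := by
  unfold HasLineDerivAt
  have h1 := hasDerivAt_r ha x i
  have h0 : Real.sqrt (a ^ 2 + ‖x + (0 : ℝ) • EuclideanSpace.single i (1 : ℝ)‖ ^ 2) =
      Real.sqrt (a ^ 2 + ‖x‖ ^ 2) := by simp
  have h2 : HasDerivAt g (deriv g (Real.sqrt (a ^ 2 + ‖x‖ ^ 2)))
      (Real.sqrt (a ^ 2 + ‖x + (0 : ℝ) • EuclideanSpace.single i (1 : ℝ)‖ ^ 2)) := by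
    rw [h0]
    exact (hg.differentiableAt (isOpen_Ioi.mem_nhds (rpos ha x))).hasDerivAt
  exact (h2.comp (0 : ℝ) h1).ofReal_comp

lemma hasLine1 {n : ℕ} {a : ℝ} (ha : 0 < a) {g : ℝ → ℝ}
    (hg : DifferentiableOn ℝ (deriv g) (Ioi 0)) (x : E n) (i : Fin n) :
    HasLineDerivAt ℝ (fun y : E n => ((G1 a g i y : ℝ) : ℂ))
      ((G2 a g i x : ℝ) : ℂ) x (EuclideanSpace.single i (1 : ℝ)) := by
  unfold HasLineDerivAt
  have h1 := hasDerivAt_r ha x i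
  have h0 : Real.sqrt (a ^ 2 + ‖x + (0 : ℝ) • EuclideanSpace.single i (1 : ℝ)‖ ^ 2) =
      Real.sqrt (a ^ 2 + ‖x‖ ^ 2) := by simp
  have h2 : HasDerivAt (deriv g) (deriv (deriv g) (Real.sqrt (a ^ 2 + ‖x‖ ^ 2)))
      (Real.sqrt (a ^ 2 + ‖x + (0 : ℝ) • EuclideanSpace.single i (1 : ℝ)‖ ^ 2)) := by
    rw [h0]
    exact (hg.differentiableAt (isOpen_Ioi.mem_nhds (rpos ha x))).hasDerivAt
  have h3 := h2.comp (0 : ℝ) h1
  have h4 : HasDerivAt (fun t : ℝ => (x + t • EuclideanSpace.single i (1 : ℝ) : E n) i) 1 0 := by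
    have : (fun t : ℝ => (x + t • EuclideanSpace.single i (1 : ℝ) : E n) i) =
        fun t : ℝ => x i + t := by
      funext t
      simp
    rw [this]
    exact (hasDerivAt_id (0 : ℝ)).const_add (x i)
  have h5 := h4.div h1 (by rw [h0]; exact (rpos ha x).ne')
  have h6 := (h3.mul h5).ofReal_comp
  have h7 : ((G2 a g i x : ℝ) : ℂ) = ((deriv (deriv g) (Real.sqrt (a ^ 2 + ‖x‖ ^ 2)) *
      (x i / Real.sqrt (a ^ 2 + ‖x‖ ^ 2)) *
      ((x + (0 : ℝ) • EuclideanSpace.single i (1 : ℝ) : E n) i /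
        Real.sqrt (a ^ 2 + ‖x + (0 : ℝ) • EuclideanSpace.single i (1 : ℝ)‖ ^ 2)) +
      deriv g (Real.sqrt (a ^ 2 + ‖x + (0 : ℝ) • EuclideanSpace.single i (1 : ℝ)‖ ^ 2)) *
      ((1 * Real.sqrt (a ^ 2 + ‖x + (0 : ℝ) • EuclideanSpace.single i (1 : ℝ)‖ ^ 2) -
        (x + (0 : ℝ) • EuclideanSpace.single i (1 : ℝ) : E n) i *
          (x i / Real.sqrt (a ^ 2 + ‖x‖ ^ 2))) /
        (Real.sqrt (a ^ 2 + ‖x + (0 : ℝ) • EuclideanSpace.single i (1 : ℝ)‖ ^ 2)) ^ 2) : ℝ) : ℂ) := by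
    congr 1
    have h8 : (x + (0 : ℝ) • EuclideanSpace.single i (1 : ℝ) : E n) = x := by simp
    rw [h8]
    unfold G2
    have := (rpos ha x).ne'
    field_simp
  rw [h7]
  exact h6

lemma hasLineE {n : ℕ} (u x : E n) (i : Fin n) :
    HasLineDerivAt ℝ (fun y : E n => e ⟪u, y⟫) ((2 * Real.pi * Complex.I * (u i : ℝ)) * e ⟪u, x⟫)
      x (EuclideanSpace.single i (1 : ℝ)) := by
  unfold HasLineDerivAt
  have h1 : HasDerivAt (fun t : ℝ => ⟪u, x + t • EuclideanSpace.single i (1 : ℝ)⟫) (u i) 0 := by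
    have : (fun t : ℝ => ⟪u, x + t • EuclideanSpace.single i (1 : ℝ)⟫) =
        fun t : ℝ => ⟪u, x⟫ + t * u i := by
      funext t
      rw [inner_add_right, inner_smul_right, EuclideanSpace.inner_single_right]
      simp
    rw [this]
    simpa using ((hasDerivAt_id (0 : ℝ)).mul_const (u i)).const_add ⟪u, x⟫
  have h0 : ⟪u, x + (0 : ℝ) • EuclideanSpace.single i (1 : ℝ)⟫ = ⟪u, x⟫ := by simp
  have h2 : HasDerivAt e ((2 * Real.pi * Complex.I) * e ⟪u, x⟫)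
      ⟪u, x + (0 : ℝ) • EuclideanSpace.single i (1 : ℝ)⟫ := by
    rw [h0]
    exact hasDerivAt_e _
  have h3 := h2.scomp (0 : ℝ) h1
  have h4 : (2 * Real.pi * Complex.I * (u i : ℝ)) * e ⟪u, x⟫ =
      (u i) • ((2 * Real.pi * Complex.I) * e ⟪u, x⟫) := by
    rw [Complex.real_smul]
    ring
  rw [h4]
  exact h3

lemma ibp {n : ℕ} (u : E n) (i : Fin n) (F F' : E n → ℂ) (hF : Continuous F)
    (hF' : Continuous F') (cF : HasCompactSupport F) (cF' : HasCompactSupport F')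
    (h : ∀ x, HasLineDerivAt ℝ F (F' x) x (EuclideanSpace.single i (1 : ℝ))) :
    ∫ x, e ⟪u, x⟫ * F' x = -(2 * Real.pi * Complex.I * (u i : ℝ)) * ∫ x, e ⟪u, x⟫ * F x := by
  have ce : Continuous (fun x : E n => e ⟪u, x⟫) := continuous_e.comp (by fun_prop)
  have i1 : Integrable (fun x : E n => e ⟪u, x⟫ * F x) :=
    (ce.mul hF).integrable_of_hasCompactSupport cF.mul_left
  have i2 : Integrable (fun x : E n => e ⟪u, x⟫ * F' x) :=
    (ce.mul hF').integrable_of_hasCompactSupport cF'.mul_left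
  have i3 : Integrable (fun x : E n => ((2 * Real.pi * Complex.I * (u i : ℝ)) * e ⟪u, x⟫) * F x) := by
    have := i1.const_mul (2 * Real.pi * Complex.I * (u i : ℝ))
    refine this.congr (Filter.Eventually.of_forall fun x => ?_)
    simp only [mul_assoc]
  have key := integral_bilinear_hasLineDerivAt_right_eq_neg_left_of_integrable
    (μ := (volume : Measure (E n)))
    (f := fun x : E n => e ⟪u, x⟫)
    (f' := fun x : E n => (2 * Real.pi * Complex.I * (u i : ℝ)) * e ⟪u, x⟫) (g := F) (g' := F')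
    (v := EuclideanSpace.single i (1 : ℝ)) (B := ContinuousLinearMap.mul ℝ ℂ) i3 i2 i1
    (fun x _ => hasLineE u x i) (fun x _ => h x)
  simp only [ContinuousLinearMap.mul_apply'] at key
  rw [key, ← integral_const_mul, ← integral_neg]
  refine integral_congr_ae (Filter.Eventually.of_forall fun x => ?_)
  beta_reduce
  ring

lemma cr {n : ℕ} {a : ℝ} : Continuous (fun x : E n => Real.sqrt (a ^ 2 + ‖x‖ ^ 2)) := by
  fun_prop

lemma deriv_zero {Λ : ℝ} {g : ℝ → ℝ} (h : ∀ r, Λ < r → g r = 0) : ∀ r, Λ < r → deriv g r = 0 := by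
  intro r hr
  have h1 : g =ᶠ[nhds r] fun _ => (0 : ℝ) := by
    filter_upwards [isOpen_Ioi.mem_nhds hr] with s hs using h s hs
  rw [h1.deriv_eq]
  simp

lemma comp_cont {n : ℕ} {a : ℝ} (ha : 0 < a) {φ : ℝ → ℝ} (hφ : ContinuousOn φ (Ioi 0)) :
    Continuous (fun x : E n => φ (Real.sqrt (a ^ 2 + ‖x‖ ^ 2))) :=
  hφ.comp_continuous cr fun x => rpos ha x

lemma coord_cont {n : ℕ} (i : Fin n) : Continuous (fun x : E n => x i) := by
  fun_prop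

lemma G1_cont {n : ℕ} {a : ℝ} (ha : 0 < a) {g : ℝ → ℝ} (h : ContinuousOn (deriv g) (Ioi 0))
    (i : Fin n) : Continuous (G1 a g i) := by
  unfold G1
  exact (comp_cont ha h).mul ((coord_cont i).div cr fun x => (rpos ha x).ne')

lemma G2_cont {n : ℕ} {a : ℝ} (ha : 0 < a) {g : ℝ → ℝ} (h : ContinuousOn (deriv g) (Ioi 0))
    (h2 : ContinuousOn (deriv (deriv g)) (Ioi 0)) (i : Fin n) : Continuous (G2 a g i) := by
  unfold G2
  refine ((comp_cont ha h2).mul (((coord_cont i).pow 2).div (cr.pow 2)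
    fun x => pow_ne_zero 2 (rpos ha x).ne')).add ((comp_cont ha h).mul ?_)
  exact (continuous_const.div cr fun x => (rpos ha x).ne').sub
    (((coord_cont i).pow 2).div (cr.pow 3) fun x => pow_ne_zero 3 (rpos ha x).ne')

lemma supp_of {n : ℕ} {Λ : ℝ} (F : E n → ℂ) (h : ∀ x, Λ < ‖x‖ → F x = 0) :
    HasCompactSupport F := by
  refine HasCompactSupport.intro (isCompact_closedBall (0 : E n) Λ) fun x hx => h x ?_
  rw [Metric.mem_closedBall, dist_zero_right, not_le] at hx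
  exact hx

lemma sum_G2 {n : ℕ} {a t : ℝ} (ha : 0 < a) (g : ℝ → ℝ) (x : E n) :
    (∑ i, G2 a g i x) + 4 * Real.pi ^ 2 * t ^ 2 * g (Real.sqrt (a ^ 2 + ‖x‖ ^ 2)) =
      H n t a g (Real.sqrt (a ^ 2 + ‖x‖ ^ 2)) := by
  unfold G2 H
  have h1 : ∑ i, (x i) ^ 2 = ‖x‖ ^ 2 := by
    rw [EuclideanSpace.real_norm_sq_eq]
  have hr := rpos ha x
  have hr2 : Real.sqrt (a ^ 2 + ‖x‖ ^ 2) ^ 2 = a ^ 2 + ‖x‖ ^ 2 := Real.sq_sqrt (by positivity)
  generalize hrr : Real.sqrt (a ^ 2 + ‖x‖ ^ 2) = r at *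
  have h2 : ∑ i, (deriv (deriv g) r * ((x i) ^ 2 / r ^ 2) +
      deriv g r * (1 / r - (x i) ^ 2 / r ^ 3)) =
      deriv (deriv g) r * (‖x‖ ^ 2 / r ^ 2) + deriv g r * (n / r - ‖x‖ ^ 2 / r ^ 3) := by
    have e1 : ∑ i, (x i) ^ 2 / r ^ 2 = ‖x‖ ^ 2 / r ^ 2 := by rw [← Finset.sum_div, h1]
    have e2 : ∑ i, (x i) ^ 2 / r ^ 3 = ‖x‖ ^ 2 / r ^ 3 := by rw [← Finset.sum_div, h1]
    have e3 : ∑ _i : Fin n, 1 / r = n / r := by simp [div_eq_mul_inv]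
    rw [Finset.sum_add_distrib, ← Finset.mul_sum, ← Finset.mul_sum, Finset.sum_sub_distrib,
      e1, e2, e3]
  rw [h2]
  have h3 : ‖x‖ ^ 2 = r ^ 2 - a ^ 2 := by rw [hr2]; ring
  rw [h3]
  have := hr.ne'
  field_simp
  ring

lemma fourier_id {n : ℕ} {a t Λ : ℝ} {g : ℝ → ℝ} (ha : 0 < a) (hg : ContDiffOn ℝ 2 g (Ioi 0))
    (h0 : ∀ r, Λ < r → g r = 0) (u : E n) :
    ∫ ξ : E n, e ⟪u, ξ⟫ * ((H n t a g (Real.sqrt (a ^ 2 + ‖ξ‖ ^ 2)) : ℝ) : ℂ) =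
      (4 * Real.pi ^ 2 * (t ^ 2 - ‖u‖ ^ 2) : ℝ) * Ker n g a u := by
  have d0 : DifferentiableOn ℝ g (Ioi 0) := hg.differentiableOn (by norm_num)
  have g1 : ContDiffOn ℝ 1 (deriv g) (Ioi 0) :=
    ((contDiffOn_succ_iff_deriv_of_isOpen (n := 1) isOpen_Ioi).1 hg).2.2
  have d1 : DifferentiableOn ℝ (deriv g) (Ioi 0) := g1.differentiableOn (by norm_num)
  have g2 : ContDiffOn ℝ 0 (deriv (deriv g)) (Ioi 0) :=
    ((contDiffOn_succ_iff_deriv_of_isOpen (n := 0) isOpen_Ioi).1 g1).2.2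
  have c0 : Continuous (fun x : E n => ((g (Real.sqrt (a ^ 2 + ‖x‖ ^ 2)) : ℝ) : ℂ)) :=
    Complex.continuous_ofReal.comp (comp_cont ha hg.continuousOn)
  have c1 : ∀ i, Continuous (fun x : E n => ((G1 a g i x : ℝ) : ℂ)) := fun i =>
    Complex.continuous_ofReal.comp (G1_cont ha g1.continuousOn i)
  have c2 : ∀ i, Continuous (fun x : E n => ((G2 a g i x : ℝ) : ℂ)) := fun i =>
    Complex.continuous_ofReal.comp (G2_cont ha g1.continuousOn g2.continuousOn i)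
  have z1 := deriv_zero h0
  have z2 := deriv_zero z1
  have s0 : HasCompactSupport (fun x : E n => ((g (Real.sqrt (a ^ 2 + ‖x‖ ^ 2)) : ℝ) : ℂ)) :=
    supp_of _ fun x hx => by rw [h0 _ (hx.trans_le (rge' x))]; simp
  have s1 : ∀ i, HasCompactSupport (fun x : E n => ((G1 a g i x : ℝ) : ℂ)) := fun i =>
    supp_of _ fun x hx => by unfold G1; rw [z1 _ (hx.trans_le (rge' x))]; simp
  have s2 : ∀ i, HasCompactSupport (fun x : E n => ((G2 a g i x : ℝ) : ℂ)) := fun i =>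
    supp_of _ fun x hx => by
      unfold G2
      rw [z1 _ (hx.trans_le (rge' x)), z2 _ (hx.trans_le (rge' x))]
      simp
  have ce : Continuous (fun x : E n => e ⟪u, x⟫) := continuous_e.comp (by fun_prop)
  have k1 : ∀ i, ∫ x, e ⟪u, x⟫ * ((G2 a g i x : ℝ) : ℂ) =
      ((-(4 * Real.pi ^ 2) * (u i) ^ 2 : ℝ) : ℂ) * Ker n g a u := by
    intro i
    rw [ibp u i _ _ (c1 i) (c2 i) (s1 i) (s2 i) (fun x => hasLine1 ha d1 x i),
      ibp u i _ _ c0 (c1 i) s0 (s1 i) (fun x => hasLine0 ha d0 x i)]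
    unfold Ker
    push_cast
    have : Complex.I ^ 2 = -1 := Complex.I_sq
    linear_combination (4 * (Real.pi : ℂ) ^ 2 * ((u i : ℝ) : ℂ) ^ 2 *
      ∫ (x : E n), e ⟪u, x⟫ * ((g (Real.sqrt (a ^ 2 + ‖x‖ ^ 2)) : ℝ) : ℂ)) * this
  have i2 : ∀ i, Integrable (fun x : E n => e ⟪u, x⟫ * ((G2 a g i x : ℝ) : ℂ)) := fun i =>
    (ce.mul (c2 i)).integrable_of_hasCompactSupport (s2 i).mul_left
  have i0 : Integrable (fun x : E n => e ⟪u, x⟫ *
      ((g (Real.sqrt (a ^ 2 + ‖x‖ ^ 2)) : ℝ) : ℂ)) :=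
    (ce.mul c0).integrable_of_hasCompactSupport s0.mul_left
  have k2 : ∀ ξ : E n, e ⟪u, ξ⟫ * ((H n t a g (Real.sqrt (a ^ 2 + ‖ξ‖ ^ 2)) : ℝ) : ℂ) =
      (∑ i, e ⟪u, ξ⟫ * ((G2 a g i ξ : ℝ) : ℂ)) + ((4 * Real.pi ^ 2 * t ^ 2 : ℝ) : ℂ) *
        (e ⟪u, ξ⟫ * ((g (Real.sqrt (a ^ 2 + ‖ξ‖ ^ 2)) : ℝ) : ℂ)) := by
    intro ξ
    rw [← sum_G2 ha g ξ, ← Finset.mul_sum]
    push_cast
    ring
  have k3 : ∑ i, (u i) ^ 2 = ‖u‖ ^ 2 := by
    rw [EuclideanSpace.real_norm_sq_eq]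
  calc ∫ ξ : E n, e ⟪u, ξ⟫ * ((H n t a g (Real.sqrt (a ^ 2 + ‖ξ‖ ^ 2)) : ℝ) : ℂ)
      = ∫ ξ : E n, ((∑ i, e ⟪u, ξ⟫ * ((G2 a g i ξ : ℝ) : ℂ)) +
          ((4 * Real.pi ^ 2 * t ^ 2 : ℝ) : ℂ) *
          (e ⟪u, ξ⟫ * ((g (Real.sqrt (a ^ 2 + ‖ξ‖ ^ 2)) : ℝ) : ℂ))) :=
        integral_congr_ae (Filter.Eventually.of_forall k2)
    _ = (∑ i, ∫ ξ : E n, e ⟪u, ξ⟫ * ((G2 a g i ξ : ℝ) : ℂ)) +
          ((4 * Real.pi ^ 2 * t ^ 2 : ℝ) : ℂ) * Ker n g a u := by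
        rw [integral_add (integrable_finsetSum _ fun i _ => i2 i) (i0.const_mul _),
          integral_finsetSum _ (fun i _ => i2 i), integral_const_mul]
        rfl
    _ = _ := by
        rw [Finset.sum_congr rfl fun i _ => k1 i, ← Finset.sum_mul, ← Complex.ofReal_sum,
          ← Finset.mul_sum, k3, ← add_mul, ← Complex.ofReal_add]
        congr 2
        ring

lemma H_cont {n : ℕ} {a t : ℝ} (ha : 0 < a) {g : ℝ → ℝ} (hg : ContDiffOn ℝ 2 g (Ioi 0)) :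
    Continuous (fun x : E n => H n t a g (Real.sqrt (a ^ 2 + ‖x‖ ^ 2))) := by
  have g1 : ContDiffOn ℝ 1 (deriv g) (Ioi 0) :=
    ((contDiffOn_succ_iff_deriv_of_isOpen (n := 1) isOpen_Ioi).1 hg).2.2
  have g2 : ContDiffOn ℝ 0 (deriv (deriv g)) (Ioi 0) :=
    ((contDiffOn_succ_iff_deriv_of_isOpen (n := 0) isOpen_Ioi).1 g1).2.2
  have : (fun x : E n => H n t a g (Real.sqrt (a ^ 2 + ‖x‖ ^ 2))) =
      fun x => (∑ i, G2 a g i x) + 4 * Real.pi ^ 2 * t ^ 2 * g (Real.sqrt (a ^ 2 + ‖x‖ ^ 2)) := by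
    funext x
    rw [sum_G2 ha g x]
  rw [this]
  exact (continuous_finsetSum _ fun i _ => G2_cont ha g1.continuousOn g2.continuousOn i).add
    (continuous_const.mul (comp_cont ha hg.continuousOn))

/-- the bound for the `L²` norm of a function supported in a ball -/
lemma l2_bound {n : ℕ} {Λ B : ℝ} (hΛ : 0 < Λ) (F : E n → ℂ)
    (h0 : ∀ x, Λ < ‖x‖ → F x = 0) (hB : ∀ x, ‖F x‖ ≤ B) :
    ∫⁻ x, ‖F x‖ₑ ^ 2 ≤ ENNReal.ofReal (B ^ 2) *
      (ENNReal.ofReal (Λ ^ n) * volume (Metric.ball (0 : E n) 1)) := by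
  have hB0 : 0 ≤ B := (norm_nonneg _).trans (hB 0)
  calc ∫⁻ x, ‖F x‖ₑ ^ 2 ≤ ∫⁻ x, (Metric.closedBall (0 : E n) Λ).indicator
        (fun _ => ENNReal.ofReal (B ^ 2)) x := by
        refine lintegral_mono fun x => ?_
        by_cases hx : x ∈ Metric.closedBall (0 : E n) Λ
        · rw [indicator_of_mem hx, ENNReal.ofReal_pow hB0, ← ofReal_norm]
          gcongr
          exact hB x
        · rw [indicator_of_notMem hx]
          rw [Metric.mem_closedBall, dist_zero_right, not_le] at hx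
          simp [h0 x hx]
    _ = _ := by
        rw [lintegral_indicator_const Metric.isClosed_closedBall.measurableSet,
          Measure.addHaar_closedBall _ _ hΛ.le]
        simp

end LAPaux

open LAPaux in
theorem lap_thm : S_LAP := by
  intro n hn
  have v0 : 0 < (volume (Metric.ball (0 : E n) 1)).toReal :=
    ENNReal.toReal_pos (Metric.measure_ball_pos _ _ one_pos).ne' measure_ball_lt_top.ne
  refine ⟨2 * (volume (Metric.ball (0 : E n) 1)).toReal, by positivity, ?_⟩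
  intro a t A δ Λ g ha hδ hA hΛ hg h0 hgA hH
  have z1 := deriv_zero h0
  have z2 := deriv_zero z1
  set G : E n → ℂ := fun x => ((g (Real.sqrt (a ^ 2 + ‖x‖ ^ 2)) : ℝ) : ℂ) with hG
  set K : E n → ℂ := fun x => ((H n t a g (Real.sqrt (a ^ 2 + ‖x‖ ^ 2)) : ℝ) : ℂ) with hK
  have cG : Continuous G := Complex.continuous_ofReal.comp (comp_cont ha hg.continuousOn)
  have cK : Continuous K := Complex.continuous_ofReal.comp (H_cont ha hg)
  have G0 : ∀ x, Λ < ‖x‖ → G x = 0 := fun x hx => by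
    simp only [hG]
    rw [h0 _ (hx.trans_le (rge' x))]; simp
  have K0 : ∀ x, Λ < ‖x‖ → K x = 0 := fun x hx => by
    simp only [hK]
    unfold H
    rw [h0 _ (hx.trans_le (rge' x)), z1 _ (hx.trans_le (rge' x)), z2 _ (hx.trans_le (rge' x))]
    simp
  have sG := supp_of G G0
  have sK := supp_of K K0
  have bG : ∀ x, ‖G x‖ ≤ A := fun x => by
    simp only [hG]
    rw [Complex.norm_real, Real.norm_eq_abs]
    exact hgA _ (rge x)
  have bK : ∀ x, ‖K x‖ ≤ A * δ := fun x => by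
    simp only [hK]
    rw [Complex.norm_real, Real.norm_eq_abs]
    exact hH _ (rge x)
  have pG := (pl_thm n G (cG.integrable_of_hasCompactSupport sG)
    (cG.memLp_of_hasCompactSupport sG)).2
  have pK := (pl_thm n K (cK.integrable_of_hasCompactSupport sK)
    (cK.memLp_of_hasCompactSupport sK)).2
  have lG := l2_bound hΛ G G0 bG
  have lK := l2_bound hΛ K K0 bK
  have mK : Measurable (fun u : E n => Ker n g a u) := by
    have hc : Continuous (Function.uncurry fun (u ξ : E n) => e ⟪u, ξ⟫ * G ξ) := by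
      have h1 : Continuous (fun p : E n × E n => e ⟪p.1, p.2⟫) :=
        continuous_e.comp (by fun_prop)
      exact h1.mul (cG.comp continuous_snd)
    exact (hc.stronglyMeasurable.integral_prod_right).measurable
  have mf : Measurable (fun u : E n => ENNReal.ofReal (δ ^ 2) * ‖Ker n g a u‖ₑ ^ 2) :=
    (mK.enorm.pow_const 2).const_mul _
  have hK2 : ∀ u : E n, ENNReal.ofReal ((‖u‖ ^ 2 - t ^ 2) ^ 2) * ‖Ker n g a u‖ₑ ^ 2 ≤
      ‖∫ ξ : E n, e ⟪u, ξ⟫ * K ξ‖ₑ ^ 2 := by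
    intro u
    have h1 : ∫ ξ : E n, e ⟪u, ξ⟫ * K ξ =
        (4 * Real.pi ^ 2 * (t ^ 2 - ‖u‖ ^ 2) : ℝ) * Ker n g a u := fourier_id ha hg h0 u
    rw [h1, enorm_mul, mul_pow]
    gcongr
    rw [← ofReal_norm, Complex.norm_real, ← ENNReal.ofReal_pow (norm_nonneg _)]
    refine ENNReal.ofReal_le_ofReal ?_
    rw [Real.norm_eq_abs, sq_abs]
    have hpi : 1 ≤ (4 * Real.pi ^ 2) ^ 2 := by
      have := Real.pi_gt_three
      have h3 : 1 ≤ 4 * Real.pi ^ 2 := by nlinarith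
      nlinarith
    have : (4 * Real.pi ^ 2 * (t ^ 2 - ‖u‖ ^ 2)) ^ 2 =
        (4 * Real.pi ^ 2) ^ 2 * (‖u‖ ^ 2 - t ^ 2) ^ 2 := by ring
    rw [this]
    exact le_mul_of_one_le_left (sq_nonneg _) hpi
  have hvol : volume (Metric.ball (0 : E n) 1) =
      ENNReal.ofReal (volume (Metric.ball (0 : E n) 1)).toReal :=
    (ENNReal.ofReal_toReal measure_ball_lt_top.ne).symm
  set c := (volume (Metric.ball (0 : E n) 1)).toReal with hc
  calc ∫⁻ u : E n, ENNReal.ofReal (δ ^ 2 + (‖u‖ ^ 2 - t ^ 2) ^ 2) * ‖Ker n g a u‖ₑ ^ 2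
      = ∫⁻ u : E n, (ENNReal.ofReal (δ ^ 2) * ‖Ker n g a u‖ₑ ^ 2 +
          ENNReal.ofReal ((‖u‖ ^ 2 - t ^ 2) ^ 2) * ‖Ker n g a u‖ₑ ^ 2) := by
        refine lintegral_congr fun u => ?_
        rw [ENNReal.ofReal_add (sq_nonneg _) (sq_nonneg _), add_mul]
    _ = (∫⁻ u : E n, ENNReal.ofReal (δ ^ 2) * ‖Ker n g a u‖ₑ ^ 2) +
          ∫⁻ u : E n, ENNReal.ofReal ((‖u‖ ^ 2 - t ^ 2) ^ 2) * ‖Ker n g a u‖ₑ ^ 2 :=
        lintegral_add_left mf _
    _ ≤ ENNReal.ofReal (δ ^ 2) * (ENNReal.ofReal (A ^ 2) *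
          (ENNReal.ofReal (Λ ^ n) * ENNReal.ofReal c)) +
        ENNReal.ofReal ((A * δ) ^ 2) * (ENNReal.ofReal (Λ ^ n) * ENNReal.ofReal c) := by
        refine add_le_add ?_ ?_
        · rw [lintegral_const_mul _ (mK.enorm.pow_const 2), ← hvol]
          gcongr
          calc ∫⁻ u : E n, ‖Ker n g a u‖ₑ ^ 2 = ∫⁻ y, ‖G y‖ₑ ^ 2 := pG
            _ ≤ _ := lG
        · rw [← hvol]
          calc ∫⁻ u : E n, ENNReal.ofReal ((‖u‖ ^ 2 - t ^ 2) ^ 2) * ‖Ker n g a u‖ₑ ^ 2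
              ≤ ∫⁻ u : E n, ‖∫ ξ : E n, e ⟪u, ξ⟫ * K ξ‖ₑ ^ 2 := lintegral_mono hK2
            _ = ∫⁻ y, ‖K y‖ₑ ^ 2 := pK
            _ ≤ _ := lK
    _ = ENNReal.ofReal (2 * c * A ^ 2 * δ ^ 2 * Λ ^ n) := by
        rw [← ENNReal.ofReal_mul (by positivity), ← ENNReal.ofReal_mul (by positivity),
          ← ENNReal.ofReal_mul (by positivity), ← ENNReal.ofReal_mul (by positivity),
          ← ENNReal.ofReal_add (by positivity) (by positivity)]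
        congr 1
        ring

end Pool.Agent.R245.WB
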