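import Pool.Agent.R245.WB.Stm

/-!
# WB-OP: the `L^p` bound by the layer cake formula (helper515)
-/

set_option autoImplicit false

open MeasureTheory Set
open scoped ENNReal RealInnerProductSpace

namespace Pool.Agent.R245.WB

namespace OPaux

/-- square of the `L²` norm in `η` -/
noncomputable def Phi2 (k n : ℕ) (M : Set (E k)) (F : E k × E n → ℂ) (x : E n) : ℝ≥0∞ :=
  ∫⁻ η in M, ‖F (η, x)‖ₑ ^ 2

theorem meas_Phi2 {k n : ℕ} {M : Set (E k)} {F : E k × E n → ℂ} (hF : Measurable F) :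
    Measurable (Phi2 k n M F) := by
  unfold Phi2
  exact (hF.enorm.pow_const 2).lintegral_prod_left'

theorem Phi2_lt_top {k n : ℕ} {M : Set (E k)} {F : E k × E n → ℂ} {R : ℝ}
    (hM : ∀ η ∈ M, 0 < ‖η‖ ∧ ‖η‖ < R) (hF : Adm k n F) (x : E n) : Phi2 k n M F x < ⊤ := by
  obtain ⟨-, h, b, -, -, hh⟩ := hF
  have hMf : volume M < ⊤ := by
    refine lt_of_le_of_lt (measure_mono (t := Metric.ball (0 : E k) R) fun η hη => ?_)
      Metric.isBounded_ball.measure_lt_top
    rw [mem_ball_zero_iff]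
    exact (hM η hη).2
  have h1 : Phi2 k n M F x ≤ ∫⁻ _ in M, (ENNReal.ofReal (h x)) ^ 2 := by
    refine lintegral_mono fun η => ?_
    have : ‖F (η, x)‖ₑ ≤ ENNReal.ofReal (h x) := by
      rw [← ofReal_norm]
      exact ENNReal.ofReal_le_ofReal (hh η x)
    gcongr
  refine lt_of_le_of_lt h1 ?_
  rw [setLIntegral_const]
  exact ENNReal.mul_lt_top (ENNReal.pow_lt_top ENNReal.ofReal_lt_top) hMf

theorem level (h1 : S_TM) (h2 : S_L2) (h3 : S_SUP) {k n : ℕ} {A Λ R Q : ℝ} {g : ℝ → ℝ}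
    {M : Set (E k)} (hk : 1 ≤ k) (hn : 1 ≤ n) (hG : AdmG k A Λ R g M) (hQ : 0 < Q)
    {F : E k × E n → ℂ} (hF : Adm k n F)
    (hq : ∫⁻ u : E n, (∫⁻ η in M, ‖Ker n g ‖η‖ u‖ₑ ^ 2) ^ (1 / 2 : ℝ) ≤ ENNReal.ofReal Q)
    {l : ℝ} (hl : 0 < l) :
    volume {z : E k × E n | l < ‖T k n g M F z‖} ≤ ENNReal.ofReal (4 * A ^ 2 / l ^ 2) *
      ∫⁻ x in {x | ENNReal.ofReal (l / (2 * Q)) < (Phi2 k n M F x) ^ (1 / 2 : ℝ)},
        Phi2 k n M F x := by
  classical
  set S : Set (E n) := {x | ENNReal.ofReal (l / (2 * Q)) < (Phi2 k n M F x) ^ (1 / 2 : ℝ)} with hS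
  have hSm : MeasurableSet S :=
    measurableSet_lt measurable_const ((meas_Phi2 hF.1).pow_const _)
  set F1 : E k × E n → ℂ := fun w => if w.2 ∈ S then F w else 0 with hF1
  set F2 : E k × E n → ℂ := fun w => if w.2 ∈ S then 0 else F w with hF2
  have hSm' : MeasurableSet {w : E k × E n | w.2 ∈ S} := measurable_snd hSm
  have aF1 : Adm k n F1 := by
    obtain ⟨hFm, h, b, hi, hb, hh⟩ := hF
    refine ⟨Measurable.ite hSm' hFm measurable_const, h, b, hi, hb, fun η x => ?_⟩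
    simp only [hF1]
    split_ifs
    · exact hh η x
    · rw [norm_zero]; exact (norm_nonneg _).trans (hh η x)
  have aF2 : Adm k n F2 := by
    obtain ⟨hFm, h, b, hi, hb, hh⟩ := hF
    refine ⟨Measurable.ite hSm' measurable_const hFm, h, b, hi, hb, fun η x => ?_⟩
    simp only [hF2]
    split_ifs
    · rw [norm_zero]; exact (norm_nonneg _).trans (hh η x)
    · exact hh η x
  have hsum : ∀ z, T k n g M F z = T k n g M F1 z + T k n g M F2 z := by
    intro z
    rw [← (h1 k n A Λ R g M hk hn hG).2 F1 F2 aF1 aF2 z]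
    congr 1
    funext w
    simp only [hF1, hF2]
    split_ifs <;> simp
  have hT2 : ∀ z, ‖T k n g M F2 z‖ₑ ≤ ENNReal.ofReal (l / 2) := by
    intro z
    have h := h3 k n A Λ R g M (ENNReal.ofReal Q) (ENNReal.ofReal (l / (2 * Q))) hk hn hG F2 aF2 hq
      (fun x => ?_) z
    · rw [← ENNReal.ofReal_mul hQ.le] at h
      have e1 : Q * (l / (2 * Q)) = l / 2 := by field_simp
      rwa [e1] at h
    · by_cases hx : x ∈ S
      · simp [hF2, hx]
      · simp only [hF2, hx, if_false]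
        exact not_lt.1 hx
  have hm1 : Measurable (T k n g M F1) := (h1 k n A Λ R g M hk hn hG).1 F1 aF1
  have hsub : {z : E k × E n | l < ‖T k n g M F z‖} ⊆
      {z | ENNReal.ofReal (l / 2) ^ 2 ≤ ‖T k n g M F1 z‖ₑ ^ 2} := by
    intro z hz
    have hz' : l < ‖T k n g M F z‖ := hz
    rw [mem_ofPred_eq]
    have h4 : ‖T k n g M F2 z‖ ≤ l / 2 := by
      have := hT2 z
      rw [← ofReal_norm] at this
      exact (ENNReal.ofReal_le_ofReal_iff (by positivity)).1 this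
    have h5 : l / 2 ≤ ‖T k n g M F1 z‖ := by
      have := norm_add_le (T k n g M F1 z) (T k n g M F2 z)
      rw [← hsum z] at this
      linarith
    have h6 : ENNReal.ofReal (l / 2) ≤ ‖T k n g M F1 z‖ₑ := by
      rw [← ofReal_norm]
      exact ENNReal.ofReal_le_ofReal h5
    gcongr
  have hch := mul_meas_ge_le_lintegral (μ := (volume : Measure (E k × E n)))
    (hm1.enorm.pow_const 2) (ENNReal.ofReal (l / 2) ^ 2)
  have hL2 := h2 k n A Λ R g M hk hn hG F1 aF1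
  have hin : ∫⁻ x : E n, ∫⁻ η in M, ‖F1 (η, x)‖ₑ ^ 2 = ∫⁻ x in S, Phi2 k n M F x := by
    rw [← lintegral_indicator hSm]
    refine lintegral_congr fun x => ?_
    by_cases hx : x ∈ S
    · rw [indicator_of_mem hx]
      simp only [hF1, hx, if_true]
      rfl
    · rw [indicator_of_notMem hx]
      simp [hF1, hx]
  rw [hin] at hL2
  have h7 : ENNReal.ofReal (l / 2) ^ 2 * volume {z : E k × E n | l < ‖T k n g M F z‖} ≤
      ENNReal.ofReal (A ^ 2) * ∫⁻ x in S, Phi2 k n M F x :=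
    (mul_le_mul_right (measure_mono hsub) _).trans (hch.trans hL2)
  have h8 : ENNReal.ofReal (l / 2) ^ 2 ≠ 0 := by
    simp; positivity
  have h9 : ENNReal.ofReal (l / 2) ^ 2 ≠ ⊤ := ENNReal.pow_ne_top ENNReal.ofReal_ne_top
  calc volume {z : E k × E n | l < ‖T k n g M F z‖}
      = (ENNReal.ofReal (l / 2) ^ 2)⁻¹ * (ENNReal.ofReal (l / 2) ^ 2 *
        volume {z : E k × E n | l < ‖T k n g M F z‖}) := by
        rw [← mul_assoc, ENNReal.inv_mul_cancel h8 h9, one_mul]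
    _ ≤ (ENNReal.ofReal (l / 2) ^ 2)⁻¹ * (ENNReal.ofReal (A ^ 2) *
        ∫⁻ x in S, Phi2 k n M F x) := by gcongr
    _ = ENNReal.ofReal (4 * A ^ 2 / l ^ 2) * ∫⁻ x in S, Phi2 k n M F x := by
        rw [← mul_assoc]
        congr 1
        rw [← ENNReal.ofReal_pow (by positivity), ← ENNReal.ofReal_inv_of_pos (by positivity),
          ← ENNReal.ofReal_mul (by positivity)]
        congr 1
        field_simp
        ring

end OPaux

open OPaux

theorem op_thm (h1 : S_TM) (h2 : S_L2) (h3 : S_SUP) : S_OP := by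
  intro p hp
  have hp2 : 0 < p - 2 := by linarith
  refine ⟨4 * p * 2 ^ (p - 2) / (p - 2), by positivity, ?_⟩
  intro k n A Λ R Q g M hk hn hG hA hQ F hF hq
  have hTm : Measurable (T k n g M F) := (h1 k n A Λ R g M hk hn hG).1 F hF
  have hΦm : Measurable (Phi2 k n M F) := meas_Phi2 hF.1
  have hΦT : ∀ x, Phi2 k n M F x < ⊤ := Phi2_lt_top hG.2.2.2.2.2.2 hF
  set φ : E n → ℝ := fun x => 2 * Q * ((Phi2 k n M F x) ^ (1 / 2 : ℝ)).toReal with hφ
  have hφm : Measurable φ := ((hΦm.pow_const _).ennreal_toReal).const_mul _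
  have hφ0 : ∀ x, 0 ≤ φ x := fun x => by positivity
  set ν : Measure (E n) := volume.withDensity (Phi2 k n M F) with hν
  have hset : ∀ l : ℝ, 0 < l → {x : E n | ENNReal.ofReal (l / (2 * Q)) <
      (Phi2 k n M F x) ^ (1 / 2 : ℝ)} = {x | l < φ x} := by
    intro l hl
    ext x
    rw [mem_ofPred_eq, mem_ofPred_eq]
    have hT : (Phi2 k n M F x) ^ (1 / 2 : ℝ) ≠ ⊤ :=
      ENNReal.rpow_ne_top_of_nonneg (by norm_num) (hΦT x).ne
    rw [ENNReal.ofReal_lt_iff_lt_toReal (by positivity) hT, div_lt_iff₀ (by positivity), hφ]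
    simp only
    rw [mul_comm (2 * Q)]
  have e1 : ∫⁻ z : E k × E n, ‖T k n g M F z‖ₑ ^ p =
      ENNReal.ofReal p * ∫⁻ l in Ioi (0 : ℝ), volume {z : E k × E n | l < ‖T k n g M F z‖} *
        ENNReal.ofReal (l ^ (p - 1)) := by
    rw [← lintegral_rpow_eq_lintegral_meas_lt_mul volume
      (Filter.Eventually.of_forall fun z => norm_nonneg _) hTm.norm.aemeasurable (by linarith)]
    refine lintegral_congr fun z => ?_
    rw [← ofReal_norm, ENNReal.ofReal_rpow_of_nonneg (norm_nonneg _) (by linarith)]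
  have e2 : ∫⁻ l in Ioi (0 : ℝ), volume {z : E k × E n | l < ‖T k n g M F z‖} *
        ENNReal.ofReal (l ^ (p - 1)) ≤ ∫⁻ l in Ioi (0 : ℝ), ENNReal.ofReal (4 * A ^ 2) *
          (ν {x | l < φ x} * ENNReal.ofReal (l ^ (p - 2 - 1))) := by
    refine setLIntegral_mono' measurableSet_Ioi fun l hl => ?_
    have hl0 : (0 : ℝ) < l := hl
    have h := level h1 h2 h3 hk hn hG hQ hF hq hl0
    rw [hset l hl0] at h
    have hν2 : ν {x | l < φ x} = ∫⁻ x in {x | l < φ x}, Phi2 k n M F x :=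
      withDensity_apply _ (measurableSet_lt measurable_const hφm)
    rw [← hν2] at h
    calc volume {z : E k × E n | l < ‖T k n g M F z‖} * ENNReal.ofReal (l ^ (p - 1))
        ≤ ENNReal.ofReal (4 * A ^ 2 / l ^ 2) * ν {x | l < φ x} * ENNReal.ofReal (l ^ (p - 1)) := by
          gcongr
      _ = ENNReal.ofReal (4 * A ^ 2) * (ν {x | l < φ x} * ENNReal.ofReal (l ^ (p - 2 - 1))) := by
          have e3 : ENNReal.ofReal (4 * A ^ 2 / l ^ 2) * ENNReal.ofReal (l ^ (p - 1)) =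
              ENNReal.ofReal (4 * A ^ 2) * ENNReal.ofReal (l ^ (p - 2 - 1)) := by
            rw [← ENNReal.ofReal_mul (by positivity), ← ENNReal.ofReal_mul (by positivity)]
            congr 1
            have : l ^ (p - 1) = l ^ (2 : ℝ) * l ^ (p - 2 - 1) := by
              rw [← Real.rpow_add hl0]; ring_nf
            rw [this, Real.rpow_two]
            field_simp
          calc _ = (ENNReal.ofReal (4 * A ^ 2 / l ^ 2) * ENNReal.ofReal (l ^ (p - 1))) *
                ν {x | l < φ x} := by ring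
            _ = _ := by rw [e3]; ring
  have e4 : ENNReal.ofReal (p - 2) * ∫⁻ l in Ioi (0 : ℝ), ν {x | l < φ x} *
      ENNReal.ofReal (l ^ (p - 2 - 1)) = ∫⁻ x, ENNReal.ofReal (φ x ^ (p - 2)) ∂ν :=
    (lintegral_rpow_eq_lintegral_meas_lt_mul ν (Filter.Eventually.of_forall hφ0)
      hφm.aemeasurable hp2).symm
  have e5 : ∫⁻ x, ENNReal.ofReal (φ x ^ (p - 2)) ∂ν = ENNReal.ofReal ((2 * Q) ^ (p - 2)) *
      ∫⁻ x : E n, (∫⁻ η in M, ‖F (η, x)‖ₑ ^ 2) ^ (p / 2) := by
    rw [hν, lintegral_withDensity_eq_lintegral_mul _ hΦm (hφm.pow_const _).ennreal_ofReal,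
      ← lintegral_const_mul' _ _ ENNReal.ofReal_ne_top]
    refine lintegral_congr fun x => ?_
    have hT : (Phi2 k n M F x) ^ (1 / 2 : ℝ) ≠ ⊤ :=
      ENNReal.rpow_ne_top_of_nonneg (by norm_num) (hΦT x).ne
    change Phi2 k n M F x * ENNReal.ofReal (φ x ^ (p - 2)) =
      ENNReal.ofReal ((2 * Q) ^ (p - 2)) * (Phi2 k n M F x) ^ (p / 2)
    rw [hφ]
    simp only
    rw [Real.mul_rpow (by positivity) ENNReal.toReal_nonneg, ENNReal.ofReal_mul (by positivity),
      ← ENNReal.ofReal_rpow_of_nonneg ENNReal.toReal_nonneg hp2.le, ENNReal.ofReal_toReal hT,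
      ← ENNReal.rpow_mul, ← mul_assoc, mul_comm (Phi2 k n M F x), mul_assoc]
    congr 1
    have e6 : p / 2 = 1 + 1 / 2 * (p - 2) := by ring
    rw [e6, ENNReal.rpow_add_of_nonneg _ _ (by norm_num) (by positivity), ENNReal.rpow_one]
  have hp2' : ENNReal.ofReal (p - 2) ≠ 0 := by simp; linarith
  have e7 : ∫⁻ l in Ioi (0 : ℝ), ν {x | l < φ x} * ENNReal.ofReal (l ^ (p - 2 - 1)) =
      (ENNReal.ofReal (p - 2))⁻¹ * (ENNReal.ofReal ((2 * Q) ^ (p - 2)) *
      ∫⁻ x : E n, (∫⁻ η in M, ‖F (η, x)‖ₑ ^ 2) ^ (p / 2)) := by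
    rw [← e5, ← e4, ← mul_assoc, ENNReal.inv_mul_cancel hp2' ENNReal.ofReal_ne_top, one_mul]
  rw [e1]
  refine (mul_le_mul_right e2 _).trans (le_of_eq ?_)
  rw [lintegral_const_mul' _ _ ENNReal.ofReal_ne_top, e7, ← ENNReal.ofReal_inv_of_pos hp2,
    ← mul_assoc, ← mul_assoc, ← mul_assoc, ← ENNReal.ofReal_mul (by linarith),
    ← ENNReal.ofReal_mul (by positivity), ← ENNReal.ofReal_mul (by positivity)]
  congr 2
  rw [Real.mul_rpow (by norm_num) hQ.le, Real.rpow_two]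
  field_simp

end Pool.Agent.R245.WB
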