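import Pool.Agent.R245.WB.Stm
import Pool.Agent.H153R4.Pl

set_option autoImplicit false

/-! Plancherel's theorem (proof of S_PL) -/

open MeasureTheory Set
open scoped ENNReal RealInnerProductSpace FourierTransform

namespace Pool.Agent.R245.WB

theorem fourier_eq_e {n : ℕ} (f : E n → ℂ) (η : E n) :
    𝓕 f η = ∫ y : E n, e (-⟪y, η⟫) * f y := by
  rw [Real.fourier_eq']
  refine integral_congr_ae (Filter.Eventually.of_forall fun y => ?_)
  simp only [e, smul_eq_mul]
  congr 2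
  push_cast
  ring

theorem pl_thm : S_PL := by
  intro n f h1 h2
  have a1 : ∫⁻ η : E n, ‖∫ y : E n, e (-⟪y, η⟫) * f y‖ₑ ^ 2 = ∫⁻ y, ‖f y‖ₑ ^ 2 := by
    have h := Pool.Agent.H153R4.plancherel f h1 h2
    simp only [fourier_eq_e] at h
    exact h
  refine ⟨a1, ?_⟩
  rw [← a1, ← lintegral_neg_eq_self (fun y : E n => ‖∫ η : E n, e ⟪y, η⟫ * f η‖ₑ ^ 2)]
  refine lintegral_congr fun y => ?_
  congr 3
  funext η
  rw [inner_neg_left, real_inner_comm]

end Pool.Agent.R245.WB
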