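import Pool.Agent.R245.WB.Stm

set_option autoImplicit false

/-!
# Project WB, piece Q: the square function of the kernels
-/

open MeasureTheory Set
open scoped ENNReal RealInnerProductSpace

namespace Pool.Agent.R245.WB

namespace Qaux

theorem continuous_e : Continuous e := by
  unfold e
  fun_prop

/-- the kernel only depends on the values of the symbol at positive numbers -/
theorem ker_congr (n : ℕ) (g g' : ℝ → ℝ) (h : ∀ r, 0 < r → g r = g' r) (a : ℝ) (ha : 0 < a)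
    (u : E n) : Ker n g a u = Ker n g' a u := by
  unfold Ker
  congr 1
  funext ξ
  have h1 : 0 < Real.sqrt (a ^ 2 + ‖ξ‖ ^ 2) := Real.sqrt_pos.2 (by positivity)
  rw [h _ h1]

theorem meas_ker (k n : ℕ) (g : ℝ → ℝ) (hg : Measurable g) :
    Measurable (fun z : E k × E n => Ker n g ‖z.1‖ z.2) := by
  unfold Ker
  have h1 : Measurable (fun w : (E k × E n) × E n =>
      e ⟪w.1.2, w.2⟫ * ((g (Real.sqrt (‖w.1.1‖ ^ 2 + ‖w.2‖ ^ 2)) : ℝ) : ℂ)) := by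
    apply Measurable.mul
    · have h2 : Continuous (fun w : (E k × E n) × E n => (⟪w.1.2, w.2⟫ : ℝ)) := by fun_prop
      exact (continuous_e.comp h2).measurable
    · have h2 : Continuous (fun w : (E k × E n) × E n =>
        Real.sqrt (‖w.1.1‖ ^ 2 + ‖w.2‖ ^ 2)) := by fun_prop
      exact Complex.measurable_ofReal.comp (hg.comp h2.measurable)
  exact (h1.stronglyMeasurable.integral_prod_right' (ν := volume)).measurable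

/-- the arithmetic of the constants -/
theorem arith (k n : ℕ) (K A δ Λ R : ℝ) (hK : 0 ≤ K) (hA : 0 ≤ A) (hδ : 0 < δ) (hΛ : 0 < Λ)
    (hR : 0 < R) : (K * A ^ 2 * δ * Λ ^ n * R ^ k) ^ (1 / 2 : ℝ) =
      K ^ (1 / 2 : ℝ) * A * δ ^ (1 / 2 : ℝ) * Λ ^ ((n : ℝ) / 2) * R ^ ((k : ℝ) / 2) := by
  rw [Real.mul_rpow (by positivity) (by positivity), Real.mul_rpow (by positivity) (by positivity),
    Real.mul_rpow (by positivity) (by positivity), Real.mul_rpow (by positivity) (by positivity)]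
  have h1 : (A ^ 2) ^ (1 / 2 : ℝ) = A := by
    rw [← Real.sqrt_eq_rpow, Real.sqrt_sq hA]
  have h2 : ∀ (x : ℝ) (m : ℕ), 0 < x → (x ^ m) ^ (1 / 2 : ℝ) = x ^ ((m : ℝ) / 2) := by
    intro x m hx
    rw [← Real.rpow_natCast, ← Real.rpow_mul hx.le]
    congr 1
    ring
  rw [h1, h2 Λ n hΛ, h2 R k hR]

/-- Cauchy-Schwarz and Tonelli -/
theorem cs_tonelli {α β : Type*} [MeasurableSpace α] [MeasurableSpace β] (μ : Measure α)
    (ν : Measure β) [SFinite μ] [SFinite ν] (K : α → β → ℝ≥0∞) (W : α → ℝ≥0∞)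
    (hK : Measurable (Function.uncurry K)) (hW : Measurable W) (hW0 : ∀ u, W u ≠ 0)
    (hWt : ∀ u, W u ≠ ⊤) :
    ∫⁻ u, (∫⁻ v, K u v ∂ν) ^ (1 / 2 : ℝ) ∂μ ≤
      (∫⁻ u, (W u)⁻¹ ∂μ) ^ (1 / 2 : ℝ) * (∫⁻ v, ∫⁻ u, W u * K u v ∂μ ∂ν) ^ (1 / 2 : ℝ) := by
  have hSm : Measurable (fun u => ∫⁻ v, K u v ∂ν) := Measurable.lintegral_prod_right hK
  have e2 : ∀ u, (∫⁻ v, K u v ∂ν) ^ (1 / 2 : ℝ) =
      (W u)⁻¹ ^ (1 / 2 : ℝ) * (W u * ∫⁻ v, K u v ∂ν) ^ (1 / 2 : ℝ) := by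
    intro u
    rw [← ENNReal.mul_rpow_of_nonneg _ _ (by norm_num : (0 : ℝ) ≤ 1 / 2), ← mul_assoc,
      ENNReal.inv_mul_cancel (hW0 u) (hWt u), one_mul]
  have e3 : ∫⁻ u, (∫⁻ v, K u v ∂ν) ^ (1 / 2 : ℝ) ∂μ ≤
      (∫⁻ u, (W u)⁻¹ ∂μ) ^ (1 / 2 : ℝ) * (∫⁻ u, W u * ∫⁻ v, K u v ∂ν ∂μ) ^ (1 / 2 : ℝ) := by
    rw [lintegral_congr e2]
    exact ENNReal.lintegral_mul_norm_pow_le hW.inv.aemeasurable (hW.mul hSm).aemeasurable
      (by norm_num) (by norm_num) (by norm_num)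
  have f1 : ∀ u, W u * ∫⁻ v, K u v ∂ν = ∫⁻ v, W u * K u v ∂ν := by
    intro u
    rw [lintegral_const_mul]
    exact hK.comp measurable_prodMk_left
  have f2 : ∫⁻ u, W u * ∫⁻ v, K u v ∂ν ∂μ = ∫⁻ v, ∫⁻ u, W u * K u v ∂μ ∂ν := by
    rw [lintegral_congr f1, lintegral_lintegral_swap]
    exact ((hW.comp measurable_fst).mul hK).aemeasurable
  rw [f2] at e3
  exact e3

/-- the bound for the constants -/
theorem const_le (k n : ℕ) (CW CL c A δ Λ R : ℝ) (hCW : 0 < CW) (hCL : 0 < CL) (hc : 0 < c)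
    (hA : 0 ≤ A) (hδ : 0 < δ) (hΛ : 0 < Λ) (hR : 0 < R) (X Y : ℝ≥0∞)
    (hX : X ≤ ENNReal.ofReal (CW / δ))
    (hY : Y ≤ ENNReal.ofReal (CL * A ^ 2 * δ ^ 2 * Λ ^ n) * ENNReal.ofReal (R ^ k * c)) :
    X ^ (1 / 2 : ℝ) * Y ^ (1 / 2 : ℝ) ≤ ENNReal.ofReal ((CW * CL * c) ^ (1 / 2 : ℝ) * A *
      δ ^ (1 / 2 : ℝ) * Λ ^ ((n : ℝ) / 2) * R ^ ((k : ℝ) / 2)) := by
  have g1 : X ^ (1 / 2 : ℝ) ≤ (ENNReal.ofReal (CW / δ)) ^ (1 / 2 : ℝ) :=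
    ENNReal.rpow_le_rpow hX (by norm_num)
  have g2 : Y ^ (1 / 2 : ℝ) ≤ (ENNReal.ofReal (CL * A ^ 2 * δ ^ 2 * Λ ^ n) *
      ENNReal.ofReal (R ^ k * c)) ^ (1 / 2 : ℝ) :=
    ENNReal.rpow_le_rpow hY (by norm_num)
  refine (mul_le_mul' g1 g2).trans (le_of_eq ?_)
  rw [← ENNReal.mul_rpow_of_nonneg _ _ (by norm_num : (0 : ℝ) ≤ 1 / 2),
    ← ENNReal.ofReal_mul (by positivity), ← ENNReal.ofReal_mul (by positivity),
    ENNReal.ofReal_rpow_of_nonneg (by positivity) (by norm_num)]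
  congr 1
  rw [← arith k n (CW * CL * c) A δ Λ R (by positivity) hA hδ hΛ hR]
  congr 1
  field_simp

/-- the measure of a set contained in a ball -/
theorem meas_le (k : ℕ) (M : Set (E k)) (R : ℝ) (hR : 0 < R) (hM : ∀ η ∈ M, ‖η‖ < R) :
    volume M ≤ ENNReal.ofReal (R ^ k * (volume (Metric.ball (0 : E k) 1)).toReal) := by
  have hctop : volume (Metric.ball (0 : E k) 1) ≠ ⊤ := measure_ball_lt_top.ne
  have f5 : M ⊆ Metric.ball (0 : E k) R := fun η hη => by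
    rw [mem_ball_zero_iff]
    exact hM η hη
  refine (measure_mono f5).trans (le_of_eq ?_)
  rw [Measure.addHaar_ball_of_pos _ _ hR, finrank_euclideanSpace_fin,
    ENNReal.ofReal_mul (by positivity), ENNReal.ofReal_toReal hctop]

theorem exists_meas (g : ℝ → ℝ) (hg : ContinuousOn g (Ioi 0)) :
    ∃ gi : ℝ → ℝ, Measurable gi ∧ ∀ r, 0 < r → g r = gi r := by
  classical
  refine ⟨(Ioi (0 : ℝ)).piecewise g (fun _ => 0), ?_, ?_⟩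
  · exact hg.measurable_piecewise continuousOn_const measurableSet_Ioi
  · intro r hr
    rw [Set.piecewise_eq_of_mem _ _ _ (Set.mem_Ioi.2 hr)]

theorem meas_sq_aux {α β : Type*} [MeasurableSpace α] [MeasurableSpace β] (F : β → α → ℂ)
    (hF : Measurable (fun z : β × α => F z.1 z.2)) :
    Measurable (Function.uncurry fun (u : α) (v : β) => ‖F v u‖ₑ ^ 2) := by
  have h1 : Measurable (fun z : α × β => F z.2 z.1) := hF.comp measurable_swap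
  exact h1.enorm.pow_const 2

theorem meas_ker_sq (k n : ℕ) (gi : ℝ → ℝ) (hgi : Measurable gi) :
    Measurable (Function.uncurry fun (u : E n) (η : E k) => ‖Ker n gi ‖η‖ u‖ₑ ^ 2) :=
  meas_sq_aux (fun (η : E k) (u : E n) => Ker n gi ‖η‖ u) (meas_ker k n gi hgi)

theorem meas_W (n : ℕ) (t δ : ℝ) :
    Measurable (fun u : E n => ENNReal.ofReal (δ ^ 2 + (‖u‖ ^ 2 - t ^ 2) ^ 2)) := by
  have : Continuous (fun u : E n => δ ^ 2 + (‖u‖ ^ 2 - t ^ 2) ^ 2) := by fun_prop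
  exact ENNReal.measurable_ofReal.comp this.measurable

theorem step (k n : ℕ) (t δ : ℝ) (hδ : 0 < δ) (g gi : ℝ → ℝ) (hgi : Measurable gi)
    (hgg : ∀ r, 0 < r → g r = gi r) (M : Set (E k)) (hM : MeasurableSet M)
    (hMη : ∀ η ∈ M, 0 < ‖η‖) (B : ℝ≥0∞)
    (hB : ∀ η ∈ M, ∫⁻ u : E n, ENNReal.ofReal (δ ^ 2 + (‖u‖ ^ 2 - t ^ 2) ^ 2) *
      ‖Ker n g ‖η‖ u‖ₑ ^ 2 ≤ B) :
    ∫⁻ u : E n, (∫⁻ η in M, ‖Ker n g ‖η‖ u‖ₑ ^ 2) ^ (1 / 2 : ℝ) ≤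
      (∫⁻ u : E n, (ENNReal.ofReal (δ ^ 2 + (‖u‖ ^ 2 - t ^ 2) ^ 2))⁻¹) ^ (1 / 2 : ℝ) *
        (B * volume M) ^ (1 / 2 : ℝ) := by
  have e1 : ∀ u : E n, (∫⁻ η in M, ‖Ker n g ‖η‖ u‖ₑ ^ 2) ^ (1 / 2 : ℝ) =
      (∫⁻ η in M, ‖Ker n gi ‖η‖ u‖ₑ ^ 2) ^ (1 / 2 : ℝ) := by
    intro u
    congr 1
    refine setLIntegral_congr_fun hM fun η hη => ?_
    show ‖Ker n g ‖η‖ u‖ₑ ^ 2 = ‖Ker n gi ‖η‖ u‖ₑ ^ 2
    rw [ker_congr n g gi hgg ‖η‖ (hMη η hη) u]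
  rw [lintegral_congr e1]
  refine (cs_tonelli volume (volume.restrict M) (fun (u : E n) (η : E k) =>
    ‖Ker n gi ‖η‖ u‖ₑ ^ 2) (fun u : E n => ENNReal.ofReal (δ ^ 2 + (‖u‖ ^ 2 - t ^ 2) ^ 2))
    (meas_ker_sq k n gi hgi) (meas_W n t δ) ?_ ?_).trans ?_
  · intro u
    have : 0 < δ ^ 2 + (‖u‖ ^ 2 - t ^ 2) ^ 2 := by positivity
    exact (ENNReal.ofReal_pos.2 this).ne'
  · intro u
    exact ENNReal.ofReal_ne_top
  · refine mul_le_mul' le_rfl (ENNReal.rpow_le_rpow ?_ (by norm_num))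
    have f2 : ∀ η ∈ M, ∫⁻ u : E n, ENNReal.ofReal (δ ^ 2 + (‖u‖ ^ 2 - t ^ 2) ^ 2) *
        ‖Ker n gi ‖η‖ u‖ₑ ^ 2 ≤ B := by
      intro η hη
      have f4 : ∀ u : E n, ENNReal.ofReal (δ ^ 2 + (‖u‖ ^ 2 - t ^ 2) ^ 2) *
          ‖Ker n gi ‖η‖ u‖ₑ ^ 2 =
          ENNReal.ofReal (δ ^ 2 + (‖u‖ ^ 2 - t ^ 2) ^ 2) * ‖Ker n g ‖η‖ u‖ₑ ^ 2 := by
        intro u
        rw [ker_congr n g gi hgg ‖η‖ (hMη η hη) u]
      rw [lintegral_congr f4]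
      exact hB η hη
    refine (setLIntegral_mono' hM f2).trans ?_
    rw [setLIntegral_const]

end Qaux

open Qaux in
theorem q_thm (h1 : S_LAP) (h2 : S_WT) : S_Q := by
  intro k n _ hn hn3
  obtain ⟨CL, hCL, hLAP⟩ := h1 n hn
  obtain ⟨CW, hCW, hWT⟩ := h2 n hn hn3
  have hctop : volume (Metric.ball (0 : E k) 1) ≠ ⊤ := measure_ball_lt_top.ne
  have hc0 : 0 < (volume (Metric.ball (0 : E k) 1)).toReal :=
    ENNReal.toReal_pos (Metric.measure_ball_pos volume _ one_pos).ne' hctop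
  refine ⟨(CW * CL * (volume (Metric.ball (0 : E k) 1)).toReal) ^ (1 / 2 : ℝ),
    Real.rpow_pos_of_pos (mul_pos (mul_pos hCW hCL) hc0) _, ?_⟩
  intro t A δ Λ R g M ht1 ht2 hδ hδ20 hA hΛ hR hg hgΛ hgA hH hM hMη
  obtain ⟨gi, hgi, hgg⟩ := exists_meas g hg.continuousOn
  have hB : ∀ η ∈ M, ∫⁻ u : E n, ENNReal.ofReal (δ ^ 2 + (‖u‖ ^ 2 - t ^ 2) ^ 2) *
      ‖Ker n g ‖η‖ u‖ₑ ^ 2 ≤ ENNReal.ofReal (CL * A ^ 2 * δ ^ 2 * Λ ^ n) := by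
    intro η hη
    obtain ⟨hη1, hη2⟩ := hMη η hη
    exact hLAP ‖η‖ t A δ Λ g hη1 hδ hA hΛ hg hgΛ
      (fun r hr => hgA r (hη1.trans_le hr)) (fun r hr => hH ‖η‖ r hη1 hη2 hr)
  refine (step k n t δ hδ g gi hgi hgg M hM (fun η hη => (hMη η hη).1) _ hB).trans ?_
  exact const_le k n CW CL _ A δ Λ R hCW hCL hc0 hA hδ hΛ hR _ _
    (hWT t δ ht1 ht2 hδ hδ20)
    (mul_le_mul' le_rfl (meas_le k M R hR fun η hη => (hMη η hη).2))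

end Pool.Agent.R245.WB
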