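import Pool.Agent.R245.WB.Stm

set_option autoImplicit false

/-! Project WB, piece REP: the multiplier operator as a sum of pieces. -/

open MeasureTheory Set
open scoped ENNReal RealInnerProductSpace

namespace Pool.Agent.R245.WB

namespace REPaux

lemma e_add (x y : ℝ) : e (x + y) = e x * e y := by
  unfold e
  rw [← Complex.exp_add]
  congr 1
  push_cast
  ring

lemma norm_e (x : ℝ) : ‖e x‖ = 1 := by
  unfold e
  exact Complex.norm_exp_ofReal_mul_I _

lemma cont_e : Continuous e := by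
  unfold e
  fun_prop

/-- standing hypotheses on the one-variable function -/
structure GG (A Λ : ℝ) (g : ℝ → ℝ) : Prop where
  cont : ContinuousOn g (Ioi 0)
  bd : ∀ r, 0 < r → |g r| ≤ A
  van : ∀ r, Λ < r → g r = 0

lemma G_cont {A Λ : ℝ} {g : ℝ → ℝ} (hg : GG A Λ g) {n : ℕ} {a : ℝ} (ha : 0 < a) :
    Continuous (fun ξ : E n => ((g (Real.sqrt (a ^ 2 + ‖ξ‖ ^ 2)) : ℝ) : ℂ)) := by
  apply Complex.continuous_ofReal.comp
  apply hg.cont.comp_continuous
  · fun_prop
  · intro ξ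
    exact Real.sqrt_pos.2 (by positivity)

lemma G_int {A Λ : ℝ} {g : ℝ → ℝ} (hg : GG A Λ g) {n : ℕ} {a : ℝ} (ha : 0 < a) :
    Integrable (fun ξ : E n => ((g (Real.sqrt (a ^ 2 + ‖ξ‖ ^ 2)) : ℝ) : ℂ)) := by
  apply (G_cont hg ha).integrable_of_hasCompactSupport
  apply HasCompactSupport.intro (isCompact_closedBall (0 : E n) Λ)
  intro ξ hξ
  rw [mem_closedBall_zero_iff, not_le] at hξ
  rw [hg.van, Complex.ofReal_zero]
  refine hξ.trans_le ?_
  apply Real.le_sqrt_of_sq_le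
  nlinarith [sq_nonneg a]

/-- the inner integral -/
lemma inner_eq {A Λ : ℝ} {g : ℝ → ℝ} (hg : GG A Λ g) {n : ℕ} {a : ℝ} (ha : 0 < a) (z : E n)
    {P : E n → ℂ} (hP : Integrable P) :
    ∫ x : E n, Ker n g a (z - x) * P x =
      ∫ ξ : E n, e ⟪z, ξ⟫ * (((g (Real.sqrt (a ^ 2 + ‖ξ‖ ^ 2)) : ℝ) : ℂ) *
        ∫ x : E n, e (-⟪x, ξ⟫) * P x) := by
  set G : E n → ℂ := fun ξ => ((g (Real.sqrt (a ^ 2 + ‖ξ‖ ^ 2)) : ℝ) : ℂ) with hG
  have hGi : Integrable G := G_int hg ha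
  have hint : Integrable (Function.uncurry fun (x ξ : E n) => e ⟪z - x, ξ⟫ * (P x * G ξ))
      (volume.prod volume) := by
    have h1 : Integrable (fun w : E n × E n => P w.1 * G w.2) (volume.prod volume) :=
      hP.mul_prod hGi
    refine h1.bdd_mul (c := 1) ?_ ?_
    · apply Continuous.aestronglyMeasurable
      exact cont_e.comp (by fun_prop)
    · exact Filter.Eventually.of_forall fun w => (norm_e _).le
  have h1 : ∀ x, Ker n g a (z - x) * P x = ∫ ξ, e ⟪z - x, ξ⟫ * (P x * G ξ) := by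
    intro x
    unfold Ker
    rw [← integral_mul_const]
    apply integral_congr_ae
    filter_upwards with ξ
    ring
  have h2 : ∀ ξ, e ⟪z, ξ⟫ * (G ξ * ∫ x : E n, e (-⟪x, ξ⟫) * P x) =
      ∫ x, e ⟪z - x, ξ⟫ * (P x * G ξ) := by
    intro ξ
    rw [← mul_assoc, ← integral_const_mul]
    apply integral_congr_ae
    filter_upwards with x
    rw [inner_sub_left, sub_eq_add_neg, e_add]
    ring
  calc ∫ x : E n, Ker n g a (z - x) * P x = ∫ x, ∫ ξ, e ⟪z - x, ξ⟫ * (P x * G ξ) := by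
        simp only [h1]
    _ = ∫ ξ, ∫ x, e ⟪z - x, ξ⟫ * (P x * G ξ) := integral_integral_swap hint
    _ = ∫ ξ, e ⟪z, ξ⟫ * (G ξ * ∫ x : E n, e (-⟪x, ξ⟫) * P x) :=
        integral_congr_ae (Filter.Eventually.of_forall fun ξ => (h2 ξ).symm)

/-- the radius -/
noncomputable def rad {k n : ℕ} (w : E k × E n) : ℝ := Real.sqrt (‖w.1‖ ^ 2 + ‖w.2‖ ^ 2)

lemma rad_pos {k n : ℕ} {w : E k × E n} (hw : 0 < ‖w.1‖) : 0 < rad w :=
  Real.sqrt_pos.2 (by positivity)

/-- the exponential -/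
noncomputable def ex {k n : ℕ} (z w : E k × E n) : ℂ := e (⟪z.1, w.1⟫ + ⟪z.2, w.2⟫)

lemma meas_g {A Λ : ℝ} {g : ℝ → ℝ} (hg : GG A Λ g) :
    Measurable ((Ioi (0 : ℝ)).indicator g) := by
  classical
  rw [← piecewise_eq_indicator]
  exact hg.cont.measurable_piecewise continuousOn_const measurableSet_Ioi

/-- integrability of the pieces -/
lemma Phi_int {A Λ : ℝ} {g : ℝ → ℝ} (hA : 0 ≤ A) (hg : GG A Λ g) {k n : ℕ}
    {fh : E k × E n → ℂ} (hfh : Integrable fh) (z : E k × E n) {M : Set (E k)}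
    (hM : MeasurableSet M) (hMp : ∀ η ∈ M, 0 < ‖η‖) :
    Integrable ((M ×ˢ (univ : Set (E n))).indicator
      (fun w => ex z w * (((g (rad w) : ℝ) : ℂ) * fh w))) := by
  have hMm : MeasurableSet (M ×ˢ (univ : Set (E n))) := hM.prod MeasurableSet.univ
  have e1 : (M ×ˢ (univ : Set (E n))).indicator
      (fun w => ex z w * (((g (rad w) : ℝ) : ℂ) * fh w)) =
      (M ×ˢ (univ : Set (E n))).indicator
      (fun w => (ex z w * ((((Ioi (0 : ℝ)).indicator g (rad w) : ℝ) : ℂ))) * fh w) := by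
    funext w
    by_cases hw : w ∈ M ×ˢ (univ : Set (E n))
    · rw [indicator_of_mem hw, indicator_of_mem hw]
      have hr : rad w ∈ Ioi (0 : ℝ) := rad_pos (hMp _ hw.1)
      rw [indicator_of_mem hr]
      ring
    · rw [indicator_of_notMem hw, indicator_of_notMem hw]
  rw [e1]
  apply Integrable.indicator _ hMm
  refine hfh.bdd_mul (c := A) ?_ ?_
  · apply Measurable.aestronglyMeasurable
    apply Measurable.mul
    · exact (cont_e.comp (by fun_prop)).measurable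
    · apply Complex.measurable_ofReal.comp
      apply (meas_g hg).comp
      unfold rad
      fun_prop
  · refine Filter.Eventually.of_forall fun w => ?_
    rw [norm_mul, ex, norm_e, one_mul, Complex.norm_real, Real.norm_eq_abs]
    by_cases hr : rad w ∈ Ioi (0 : ℝ)
    · rw [indicator_of_mem hr]
      exact hg.bd _ hr
    · rw [indicator_of_notMem hr, abs_zero]
      exact hA

/-- the operator as an integral over `M × ℝ^n` -/
lemma T_eq {A Λ : ℝ} {g : ℝ → ℝ} (hA : 0 ≤ A) (hg : GG A Λ g) {k n : ℕ}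
    {fh F : E k × E n → ℂ} (hfh : Integrable fh) (hF : ∀ η, Integrable fun x : E n => F (η, x))
    (hfF : ∀ η ξ, fh (η, ξ) = ∫ x : E n, e (-⟪x, ξ⟫) * F (η, x))
    (z : E k × E n) {M : Set (E k)} (hM : MeasurableSet M) (hMp : ∀ η ∈ M, 0 < ‖η‖) :
    T k n g M F z = ∫ w, (M ×ˢ (univ : Set (E n))).indicator
      (fun w => ex z w * (((g (rad w) : ℝ) : ℂ) * fh w)) w := by
  have hMm : MeasurableSet (M ×ˢ (univ : Set (E n))) := hM.prod MeasurableSet.univ
  have hint := Phi_int hA hg hfh z hM hMp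
  rw [integral_indicator hMm]
  rw [integrable_indicator_iff hMm] at hint
  rw [Measure.volume_eq_prod] at hint ⊢
  rw [setIntegral_prod _ hint]
  unfold T
  apply setIntegral_congr_fun hM
  intro η hη
  have hη0 := hMp η hη
  simp only [Measure.restrict_univ]
  rw [inner_eq hg hη0 z.2 (hF η), ← integral_const_mul]
  apply integral_congr_ae
  filter_upwards with ξ
  rw [hfF]
  unfold ex rad
  simp only
  rw [e_add]
  ring

lemma Mi_meas (k i : ℕ) : MeasurableSet (Mi k i) := by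
  cases i with
  | zero =>
    exact (measurableSet_lt measurable_const measurable_norm).inter
      (measurableSet_lt measurable_norm measurable_const)
  | succ i =>
    exact (measurableSet_le measurable_const measurable_norm).inter
      (measurableSet_lt measurable_norm measurable_const)

lemma Mi_pos {k i : ℕ} {η : E k} (h : η ∈ Mi k i) : 0 < ‖η‖ := by
  cases i with
  | zero => exact h.1
  | succ i => exact lt_of_lt_of_le (by positivity) h.1

lemma Mi_exists {k : ℕ} {η : E k} (h : 0 < ‖η‖) : ∃ i, η ∈ Mi k i := by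
  by_cases h1 : ‖η‖ < 1
  · exact ⟨0, h, h1⟩
  · obtain ⟨i, hi1, hi2⟩ := exists_nat_pow_near (not_lt.1 h1) (one_lt_two (α := ℝ))
    exact ⟨i + 1, hi1, by rw [pow_succ] at hi2; linarith⟩

lemma Mi_lt {k i i' : ℕ} {η : E k} (h : η ∈ Mi k i) (h' : η ∈ Mi k i') : ¬ i < i' := by
  intro hlt
  obtain ⟨j, rfl⟩ : ∃ j, i' = j + 1 := ⟨i' - 1, by omega⟩
  have h1 : (2 : ℝ) ^ j ≤ ‖η‖ := h'.1
  cases i with
  | zero =>
    have h2 : ‖η‖ < 1 := h.2
    have h3 : (1 : ℝ) ≤ 2 ^ j := one_le_pow₀ (by norm_num)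
    linarith
  | succ i =>
    have h2 : ‖η‖ < 2 * 2 ^ i := h.2
    have h3 : (2 : ℝ) ^ (i + 1) ≤ 2 ^ j := pow_le_pow_right₀ (by norm_num) (by omega)
    rw [pow_succ] at h3
    linarith

lemma Mi_unique {k i i' : ℕ} {η : E k} (h : η ∈ Mi k i) (h' : η ∈ Mi k i') : i = i' := by
  rcases lt_trichotomy i i' with h1 | h1 | h1
  · exact absurd h1 (Mi_lt h h')
  · exact h1
  · exact absurd h1 (Mi_lt h' h)

lemma ae_pos {k n : ℕ} (hk : 1 ≤ k) : ∀ᵐ w : E k × E n, 0 < ‖w.1‖ := by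
  haveI : Nonempty (Fin k) := ⟨⟨0, hk⟩⟩
  haveI : Nontrivial (E k) := inferInstance
  rw [ae_iff]
  have e1 : {w : E k × E n | ¬ 0 < ‖w.1‖} = ({0} : Set (E k)) ×ˢ (univ : Set (E n)) := by
    ext w
    simp
  rw [e1, Measure.volume_eq_prod, Measure.prod_prod, measure_singleton, zero_mul]

end REPaux

open REPaux in
theorem rep_thm (h : S_ADM) : S_REP := by
  intro k n s t C m g hk hn hs hC hdec f z
  obtain ⟨hcont, hsum, hbd, htsum, hvan, _⟩ := hdec
  obtain ⟨⟨hFm, h1, b1, hh1, hb1, hFb⟩, hfh, hfF, _⟩ := h k n f hk hn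
  have hGG : ∀ j : ℕ, GG (C * (2 : ℝ) ^ (-(s * j))) (2 * (2 : ℝ) ^ j) (g j) := fun j =>
    ⟨(hcont j).continuousOn, fun r hr => hbd r hr j, fun r hr => hvan j r hr⟩
  have hA : ∀ j : ℕ, 0 ≤ C * (2 : ℝ) ^ (-(s * j)) := fun j => by positivity
  have hF : ∀ η, Integrable fun x : E n => pft k n f (η, x) := by
    intro η
    refine hh1.mono' ?_ (Filter.Eventually.of_forall fun x => hFb η x)
    exact (hFm.comp (measurable_const.prodMk measurable_id)).aestronglyMeasurable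
  set Φ : ℕ × ℕ → E k × E n → ℂ := fun q => (Mi k q.2 ×ˢ (univ : Set (E n))).indicator
      (fun w => ex z w * (((g q.1 (rad w) : ℝ) : ℂ) * fft k n f w)) with hΦ
  have hT : ∀ q : ℕ × ℕ, T k n (g q.1) (Mi k q.2) (pft k n f) z = ∫ w, Φ q w := fun q =>
    T_eq (hA q.1) (hGG q.1) hfh hF hfF z (Mi_meas k q.2) fun η hη => Mi_pos hη
  have hΦi : ∀ q, Integrable (Φ q) := fun q =>
    Phi_int (hA q.1) (hGG q.1) hfh z (Mi_meas k q.2) fun η hη => Mi_pos hη
  have hinj : ∀ i0 : ℕ, Function.Injective (fun j : ℕ => (j, i0)) := by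
    intro i0 a b hab
    exact (Prod.mk.inj hab).1
  have hΦ1 : ∀ w : E k × E n, ∀ i0, w.1 ∈ Mi k i0 → ∀ j,
      Φ (j, i0) w = ex z w * (((g j (rad w) : ℝ) : ℂ) * fft k n f w) := by
    intro w i0 hi0 j
    simp only [hΦ]
    rw [indicator_of_mem]
    exact ⟨hi0, mem_univ _⟩
  have hΦ0 : ∀ w : E k × E n, ∀ i0, w.1 ∈ Mi k i0 → ∀ q ∉ range (fun j : ℕ => (j, i0)),
      Φ q w = 0 := by
    intro w i0 hi0 q hq
    simp only [hΦ]
    rw [indicator_of_notMem]
    intro hw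
    apply hq
    exact ⟨q.1, by rw [Mi_unique hi0 hw.1]⟩
  have hlint : ∑' q, ∫⁻ w, ‖Φ q w‖ₑ ≠ ∞ := by
    rw [← lintegral_tsum (fun q => (hΦi q).1.enorm)]
    have hle : ∫⁻ w, ∑' q, ‖Φ q w‖ₑ ≤ ∫⁻ w, ENNReal.ofReal C * ‖fft k n f w‖ₑ := by
      apply lintegral_mono_ae
      filter_upwards [ae_pos (k := k) (n := n) hk] with w hw
      obtain ⟨i0, hi0⟩ := Mi_exists hw
      have e1 : ∑' q, ‖Φ q w‖ₑ = ∑' j, ‖Φ (j, i0) w‖ₑ := by
        symm
        apply (hinj i0).tsum_eq (f := fun q => ‖Φ q w‖ₑ)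
        intro q hq
        by_contra hcon
        apply hq
        simp only [hΦ0 w i0 hi0 q hcon, enorm_zero]
      rw [e1]
      have e2 : ∀ j, ‖Φ (j, i0) w‖ₑ = ENNReal.ofReal |g j (rad w)| * ‖fft k n f w‖ₑ := by
        intro j
        rw [hΦ1 w i0 hi0 j, enorm_mul, enorm_mul]
        have e3 : ‖ex z w‖ₑ = 1 := by
          rw [← ofReal_norm_eq_enorm, ex, norm_e, ENNReal.ofReal_one]
        rw [e3, one_mul, ← ofReal_norm_eq_enorm (((g j (rad w) : ℝ) : ℂ)), Complex.norm_real,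
          Real.norm_eq_abs]
      simp only [e2]
      rw [ENNReal.tsum_mul_right]
      gcongr
      exact htsum _ (rad_pos hw)
    refine ne_top_of_le_ne_top ?_ hle
    rw [lintegral_const_mul' _ _ ENNReal.ofReal_ne_top]
    exact ENNReal.mul_ne_top ENNReal.ofReal_ne_top hfh.2.ne
  have hsumn : Summable fun q => ∫ w, ‖Φ q w‖ := by
    have e1 : ∀ q, ∫ w, ‖Φ q w‖ = (∫⁻ w, ‖Φ q w‖ₑ).toReal := fun q =>
      integral_norm_eq_lintegral_enorm (hΦi q).1
    simp only [e1]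
    exact ENNReal.summable_toReal hlint
  have hmain := hasSum_integral_of_summable_integral_norm hΦi hsumn
  simp only [hT]
  refine ⟨hmain.summable, ?_⟩
  rw [hmain.tsum_eq]
  unfold mult
  apply integral_congr_ae
  filter_upwards [ae_pos (k := k) (n := n) hk] with w hw
  obtain ⟨i0, hi0⟩ := Mi_exists hw
  have hS : HasSum (fun j => Φ (j, i0) w)
      (ex z w * (((m (rad w) : ℝ) : ℂ) * fft k n f w)) := by
    simp only [hΦ1 w i0 hi0]
    apply HasSum.mul_left
    apply HasSum.mul_right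
    exact_mod_cast hsum (rad w) (rad_pos hw)
  have hS2 : HasSum (fun q => Φ q w) (ex z w * (((m (rad w) : ℝ) : ℂ) * fft k n f w)) := by
    rw [← (hinj i0).hasSum_iff (hΦ0 w i0 hi0)]
    exact hS
  rw [hS2.tsum_eq]
  rfl

end Pool.Agent.R245.WB
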