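import Mathlib

set_option autoImplicit false

/-!
# MP_ee74d2_an, project WB: definitions and statements of the steps

Data on `ℝ^k × ℝ^n`, in the Besov space `B^α_{2,∞}` in `k` variables and arbitrary in `n ≤ 3`
variables; fixed time estimate for the wave equation. See NOTES.md in this directory.
-/

open MeasureTheory Set
open scoped ENNReal RealInnerProductSpace

namespace Pool.Agent.R245.WB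

/-- `ℝ^n` -/
abbrev E (n : ℕ) : Type := EuclideanSpace ℝ (Fin n)

/-- `exp(2πix)` -/
noncomputable def e (x : ℝ) : ℂ := Complex.exp (((2 * Real.pi * x : ℝ) : ℂ) * Complex.I)

/-- the kernel on `ℝ^n` with symbol `g(√(a²+|ξ|²))` -/
noncomputable def Ker (n : ℕ) (g : ℝ → ℝ) (a : ℝ) (u : E n) : ℂ :=
  ∫ ξ : E n, e ⟪u, ξ⟫ * ((g (Real.sqrt (a ^ 2 + ‖ξ‖ ^ 2)) : ℝ) : ℂ)

/-- `(Δ + 4π²t²)` of the function `g(√(a²+|ξ|²))` of `ξ ∈ ℝ^n`, as a function of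
`r = √(a²+|ξ|²)` -/
noncomputable def H (n : ℕ) (t a : ℝ) (g : ℝ → ℝ) (r : ℝ) : ℝ :=
  deriv (deriv g) r * (1 - a ^ 2 / r ^ 2) +
    deriv g r * (((n : ℝ) - 1) / r + a ^ 2 / r ^ 3) + 4 * Real.pi ^ 2 * t ^ 2 * g r

/-- PL: Plancherel's theorem -/
def S_PL : Prop := ∀ (n : ℕ) (f : E n → ℂ), Integrable f → MemLp f 2 →
  (∫⁻ η : E n, ‖∫ y : E n, e (-⟪y, η⟫) * f y‖ₑ ^ 2 = ∫⁻ y, ‖f y‖ₑ ^ 2) ∧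
  (∫⁻ y : E n, ‖∫ η : E n, e ⟪y, η⟫ * f η‖ₑ ^ 2 = ∫⁻ y, ‖f y‖ₑ ^ 2)

/-- LAP: weighted `L²` bound for the kernel -/
def S_LAP : Prop := ∀ n : ℕ, 1 ≤ n → ∃ C : ℝ, 0 < C ∧ ∀ (a t A δ Λ : ℝ) (g : ℝ → ℝ),
  0 < a → 0 < δ → 0 ≤ A → 0 < Λ → ContDiffOn ℝ 2 g (Ioi 0) → (∀ r, Λ < r → g r = 0) →
  (∀ r, a ≤ r → |g r| ≤ A) → (∀ r, a ≤ r → |H n t a g r| ≤ A * δ) →
  ∫⁻ u : E n, ENNReal.ofReal (δ ^ 2 + (‖u‖ ^ 2 - t ^ 2) ^ 2) * ‖Ker n g a u‖ₑ ^ 2 ≤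
    ENNReal.ofReal (C * A ^ 2 * δ ^ 2 * Λ ^ n)

/-- WT: the integral of the inverse of the weight, `n ≤ 3` -/
def S_WT : Prop := ∀ n : ℕ, 1 ≤ n → n ≤ 3 → ∃ C : ℝ, 0 < C ∧ ∀ (t δ : ℝ), 1 ≤ t → t ≤ 2 →
  0 < δ → δ ≤ 20 →
  ∫⁻ u : E n, (ENNReal.ofReal (δ ^ 2 + (‖u‖ ^ 2 - t ^ 2) ^ 2))⁻¹ ≤ ENNReal.ofReal (C / δ)

/-- Q: the square function of the kernels -/
def S_Q : Prop := ∀ k n : ℕ, 1 ≤ k → 1 ≤ n → n ≤ 3 → ∃ C : ℝ, 0 < C ∧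
  ∀ (t A δ Λ R : ℝ) (g : ℝ → ℝ) (M : Set (E k)), 1 ≤ t → t ≤ 2 → 0 < δ → δ ≤ 20 → 0 ≤ A →
  0 < Λ → 0 < R → ContDiffOn ℝ 2 g (Ioi 0) → (∀ r, Λ < r → g r = 0) →
  (∀ r, 0 < r → |g r| ≤ A) → (∀ a r, 0 < a → a < R → a ≤ r → |H n t a g r| ≤ A * δ) →
  MeasurableSet M → (∀ η ∈ M, 0 < ‖η‖ ∧ ‖η‖ < R) →
  ∫⁻ u : E n, (∫⁻ η in M, ‖Ker n g ‖η‖ u‖ₑ ^ 2) ^ (1 / 2 : ℝ) ≤
    ENNReal.ofReal (C * A * δ ^ (1 / 2 : ℝ) * Λ ^ ((n : ℝ) / 2) * R ^ ((k : ℝ) / 2))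

/-- the operator, applied to a function `F(η, x)` (partial Fourier transform in `k` variables) -/
noncomputable def T (k n : ℕ) (g : ℝ → ℝ) (M : Set (E k)) (F : E k × E n → ℂ)
    (z : E k × E n) : ℂ :=
  ∫ η in M, e ⟪z.1, η⟫ * ∫ x : E n, Ker n g ‖η‖ (z.2 - x) * F (η, x)

/-- admissible functions -/
def Adm (k n : ℕ) (F : E k × E n → ℂ) : Prop :=
  Measurable F ∧ ∃ (h : E n → ℝ) (b : ℝ), Integrable h ∧ (∀ x, h x ≤ b) ∧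
    ∀ η x, ‖F (η, x)‖ ≤ h x

/-- admissible symbols and sets -/
def AdmG (k : ℕ) (A Λ R : ℝ) (g : ℝ → ℝ) (M : Set (E k)) : Prop :=
  0 ≤ A ∧ 0 < Λ ∧ ContinuousOn g (Ioi 0) ∧ (∀ r, Λ < r → g r = 0) ∧
    (∀ r, 0 < r → |g r| ≤ A) ∧ MeasurableSet M ∧ ∀ η ∈ M, 0 < ‖η‖ ∧ ‖η‖ < R

/-- TM: measurability and additivity -/
def S_TM : Prop := ∀ (k n : ℕ) (A Λ R : ℝ) (g : ℝ → ℝ) (M : Set (E k)), 1 ≤ k → 1 ≤ n →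
  AdmG k A Λ R g M → (∀ F : E k × E n → ℂ, Adm k n F → Measurable (T k n g M F)) ∧
  ∀ F F' : E k × E n → ℂ, Adm k n F → Adm k n F' → ∀ z,
    T k n g M (fun w => F w + F' w) z = T k n g M F z + T k n g M F' z

/-- L2: the `L²` bound -/
def S_L2 : Prop := ∀ (k n : ℕ) (A Λ R : ℝ) (g : ℝ → ℝ) (M : Set (E k)), 1 ≤ k → 1 ≤ n →
  AdmG k A Λ R g M → ∀ F : E k × E n → ℂ, Adm k n F →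
  ∫⁻ z : E k × E n, ‖T k n g M F z‖ₑ ^ 2 ≤
    ENNReal.ofReal (A ^ 2) * ∫⁻ x : E n, ∫⁻ η in M, ‖F (η, x)‖ₑ ^ 2

/-- SUP: the supremum bound -/
def S_SUP : Prop := ∀ (k n : ℕ) (A Λ R : ℝ) (g : ℝ → ℝ) (M : Set (E k)) (Q ρ : ℝ≥0∞), 1 ≤ k →
  1 ≤ n → AdmG k A Λ R g M → ∀ F : E k × E n → ℂ, Adm k n F →
  (∫⁻ u : E n, (∫⁻ η in M, ‖Ker n g ‖η‖ u‖ₑ ^ 2) ^ (1 / 2 : ℝ) ≤ Q) →
  (∀ x : E n, (∫⁻ η in M, ‖F (η, x)‖ₑ ^ 2) ^ (1 / 2 : ℝ) ≤ ρ) →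
  ∀ z, ‖T k n g M F z‖ₑ ≤ Q * ρ

/-- OP: the `L^p` bound -/
def S_OP : Prop := ∀ p : ℝ, 2 < p → ∃ C : ℝ, 0 < C ∧ ∀ (k n : ℕ) (A Λ R Q : ℝ) (g : ℝ → ℝ)
  (M : Set (E k)), 1 ≤ k → 1 ≤ n → AdmG k A Λ R g M → 0 < A → 0 < Q →
  ∀ F : E k × E n → ℂ, Adm k n F →
  (∫⁻ u : E n, (∫⁻ η in M, ‖Ker n g ‖η‖ u‖ₑ ^ 2) ^ (1 / 2 : ℝ) ≤ ENNReal.ofReal Q) →
  ∫⁻ z : E k × E n, ‖T k n g M F z‖ₑ ^ p ≤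
    ENNReal.ofReal (C * A ^ (2 : ℝ) * Q ^ (p - 2)) *
      ∫⁻ x : E n, (∫⁻ η in M, ‖F (η, x)‖ₑ ^ 2) ^ (p / 2)

/-- the square of the norm of the Besov space `B^α_{2,∞}(ℝ^k)`, `0 < α < 1` -/
noncomputable def bes (k : ℕ) (α : ℝ) (f : E k → ℂ) : ℝ≥0∞ :=
  max (∫⁻ y : E k, ‖f y‖ₑ ^ 2)
    (⨆ h : {h : E k // h ≠ 0},
      (∫⁻ y : E k, ‖f (y + h.1) - f y‖ₑ ^ 2) / ENNReal.ofReal (‖h.1‖ ^ (2 * α)))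

/-- partial Fourier transform in `y ∈ ℝ^k` -/
noncomputable def pft (k n : ℕ) (f : E k × E n → ℂ) (w : E k × E n) : ℂ :=
  ∫ y : E k, e (-⟪y, w.1⟫) * f (y, w.2)

/-- BES: frequency localised bounds for functions in the Besov space -/
def S_BES : Prop := ∀ (k : ℕ) (α : ℝ), 1 ≤ k → 0 < α → ∃ C : ℝ, 0 < C ∧ ∀ f : E k → ℂ,
  Integrable f → MemLp f 2 →
  (∫⁻ η : E k, ‖∫ y : E k, e (-⟪y, η⟫) * f y‖ₑ ^ 2 ≤ bes k α f) ∧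
  ∀ μ : ℝ, 0 < μ → ∫⁻ η in {η : E k | μ ≤ ‖η‖ ∧ ‖η‖ < 2 * μ},
    ‖∫ y : E k, e (-⟪y, η⟫) * f y‖ₑ ^ 2 ≤ ENNReal.ofReal (C * μ ^ (-(2 * α))) * bes k α f

/-- Fourier transform on `ℝ^k × ℝ^n` -/
noncomputable def fft (k n : ℕ) (f : E k × E n → ℂ) (w : E k × E n) : ℂ :=
  ∫ z : E k × E n, e (-(⟪z.1, w.1⟫ + ⟪z.2, w.2⟫)) * f z

/-- multiplier operator with symbol `m(|(η,ξ)|)` on `ℝ^k × ℝ^n` -/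
noncomputable def mult (k n : ℕ) (m : ℝ → ℝ) (f : E k × E n → ℂ) (z : E k × E n) : ℂ :=
  ∫ w : E k × E n, e (⟪z.1, w.1⟫ + ⟪z.2, w.2⟫) *
    (((m (Real.sqrt (‖w.1‖ ^ 2 + ‖w.2‖ ^ 2)) : ℝ) : ℂ) * fft k n f w)

/-- `M_0 = {0 < |η| < 1}`, `M_{i+1} = {2^i ≤ |η| < 2^{i+1}}` -/
def Mi (k : ℕ) : ℕ → Set (E k)
  | 0 => {η | 0 < ‖η‖ ∧ ‖η‖ < 1}
  | i + 1 => {η | (2 : ℝ) ^ i ≤ ‖η‖ ∧ ‖η‖ < 2 * 2 ^ i}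

/-- decompositions of a symbol of order `-s` into dyadic pieces -/
def Dec (n : ℕ) (s t C : ℝ) (m : ℝ → ℝ) (g : ℕ → ℝ → ℝ) : Prop :=
  (∀ j, ContDiffOn ℝ 2 (g j) (Ioi 0)) ∧ (∀ r, 0 < r → HasSum (fun j => g j r) (m r)) ∧
  (∀ r, 0 < r → ∀ j, |g j r| ≤ C * (2 : ℝ) ^ (-(s * j))) ∧
  (∀ r, 0 < r → ∑' j, ENNReal.ofReal |g j r| ≤ ENNReal.ofReal C) ∧
  (∀ j r, 2 * (2 : ℝ) ^ j < r → g j r = 0) ∧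
  ∀ j a r, 0 < a → a ≤ r →
    |H n t a (g j) r| ≤ C * (2 : ℝ) ^ (-(s * j)) * (a ^ 2 / (2 ^ j) ^ 2 + 1 / 2 ^ j)

/-- DEC: the dyadic decomposition of `cos(2πtr) β(r)` or `sin(2πtr) β(r)`, `β` of order `-s` -/
def S_DEC : Prop := ∀ (n : ℕ) (s C₀ : ℝ), 1 ≤ n → 0 ≤ s → 0 < C₀ → ∃ C : ℝ, 0 < C ∧
  ∀ (t : ℝ) (m β : ℝ → ℝ), 1 ≤ t → t ≤ 2 → ContDiffOn ℝ 2 β (Ioi 0) →
  ((∀ r, 0 < r → m r = Real.cos (2 * Real.pi * (t * r)) * β r) ∨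
    (∀ r, 0 < r → m r = Real.sin (2 * Real.pi * (t * r)) * β r)) →
  (∀ r, 1 ≤ r → |β r| ≤ C₀ * r ^ (-s) ∧ |deriv β r| ≤ C₀ * r ^ (-s - 1) ∧
    |deriv (deriv β) r| ≤ C₀ * r ^ (-s - 2)) →
  (∀ r, 0 < r → r ≤ 2 → |m r| ≤ C₀ ∧ |deriv m r| ≤ C₀ * r ∧ |deriv (deriv m) r| ≤ C₀) →
  ∃ g : ℕ → ℝ → ℝ, Dec n s t C m g

/-- the cosine and sine symbols -/
noncomputable def mc (s t r : ℝ) : ℝ :=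
  Real.cos (2 * Real.pi * (t * r)) * (1 + 4 * Real.pi ^ 2 * r ^ 2) ^ (-(s / 2))

noncomputable def ms (s t r : ℝ) : ℝ :=
  Real.sin (2 * Real.pi * (t * r)) / (2 * Real.pi * r) *
    (1 + 4 * Real.pi ^ 2 * r ^ 2) ^ ((1 - s) / 2)

/-- DC, DS: the decompositions of the symbols -/
def S_DC : Prop := ∀ (n : ℕ) (s : ℝ), 1 ≤ n → 0 ≤ s → ∃ C : ℝ, 0 < C ∧ ∀ t : ℝ, 1 ≤ t →
  t ≤ 2 → ∃ g : ℕ → ℝ → ℝ, Dec n s t C (mc s t) g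

def S_DS : Prop := ∀ (n : ℕ) (s : ℝ), 1 ≤ n → 0 ≤ s → ∃ C : ℝ, 0 < C ∧ ∀ t : ℝ, 1 ≤ t →
  t ≤ 2 → ∃ g : ℕ → ℝ → ℝ, Dec n s t C (ms s t) g

/-- ADM: facts about Schwartz functions -/
def S_ADM : Prop := ∀ (k n : ℕ) (f : SchwartzMap (E k × E n) ℂ), 1 ≤ k → 1 ≤ n →
  Adm k n (pft k n f) ∧ Integrable (fft k n f) ∧
  (∀ η ξ, fft k n f (η, ξ) = ∫ x : E n, e (-⟪x, ξ⟫) * pft k n f (η, x)) ∧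
  ∀ x : E n, Integrable (fun y : E k => f (y, x)) ∧ MemLp (fun y : E k => f (y, x)) 2

/-- REP: the multiplier operator as a sum of the operators `T` -/
def S_REP : Prop := ∀ (k n : ℕ) (s t C : ℝ) (m : ℝ → ℝ) (g : ℕ → ℝ → ℝ), 1 ≤ k → 1 ≤ n →
  0 ≤ s → 0 < C → Dec n s t C m g → ∀ f : SchwartzMap (E k × E n) ℂ, ∀ z,
    Summable (fun q : ℕ × ℕ => T k n (g q.1) (Mi k q.2) (pft k n f) z) ∧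
    mult k n m f z = ∑' q : ℕ × ℕ, T k n (g q.1) (Mi k q.2) (pft k n f) z

/-- TERM: the `L^p` bound for each piece -/
def S_TERM : Prop := ∀ (k n : ℕ) (p s α : ℝ), 1 ≤ k → 1 ≤ n → n ≤ 3 → 2 < p → 0 < s → 0 < α →
  ((k : ℝ) + n) * (1 / 2 - 1 / p) - α < s → ((n : ℝ) - 1) * (1 / 2 - 1 / p) < s →
  ∃ ε : ℝ, 0 < ε ∧ ∀ C : ℝ, 0 < C → ∃ C' : ℝ, 0 < C' ∧
  ∀ (t : ℝ) (m : ℝ → ℝ) (g : ℕ → ℝ → ℝ), 1 ≤ t → t ≤ 2 → Dec n s t C m g →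
  ∀ (f : SchwartzMap (E k × E n) ℂ) (j i : ℕ),
  (∫⁻ z : E k × E n, ‖T k n (g j) (Mi k i) (pft k n f) z‖ₑ ^ p ≤
    ENNReal.ofReal (C' * (2 : ℝ) ^ (-(ε * j))) *
      ∫⁻ x : E n, (bes k α fun y => f (y, x)) ^ (p / 2)) ∧
  (j + 2 < i → ∀ z, T k n (g j) (Mi k i) (pft k n f) z = 0)

/-- SUM: the `L^p` bound for the multiplier operator -/
def S_SUM : Prop := ∀ (k n : ℕ) (p s α : ℝ), 1 ≤ k → 1 ≤ n → n ≤ 3 → 2 < p → 0 < s → 0 < α →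
  ((k : ℝ) + n) * (1 / 2 - 1 / p) - α < s → ((n : ℝ) - 1) * (1 / 2 - 1 / p) < s →
  ∀ C : ℝ, 0 < C → ∃ C' : ℝ, 0 < C' ∧ ∀ (t : ℝ) (m : ℝ → ℝ) (g : ℕ → ℝ → ℝ), 1 ≤ t → t ≤ 2 →
  Dec n s t C m g → ∀ f : SchwartzMap (E k × E n) ℂ,
  ∫⁻ z : E k × E n, ‖mult k n m f z‖ₑ ^ p ≤
    ENNReal.ofReal C' * ∫⁻ x : E n, (bes k α fun y => f (y, x)) ^ (p / 2)

end Pool.Agent.R245.WB
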