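import Pool.Agent.R245.WB.Stm

set_option autoImplicit false

/-!
# MP_ee74d2_an, project WB: the supremum bound (S_SUP)
-/

open MeasureTheory Set
open scoped ENNReal RealInnerProductSpace

namespace Pool.Agent.R245.WB

namespace SUPaux

lemma enorm_e (x : ℝ) : ‖e x‖ₑ = 1 := by
  have h : ‖e x‖ = 1 := by
    rw [e, Complex.norm_exp_ofReal_mul_I]
  rw [← ofReal_norm, h, ENNReal.ofReal_one]

lemma continuous_e : Continuous e := by
  unfold e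
  fun_prop

/-- the cut off of a symbol -/
noncomputable def gc (g : ℝ → ℝ) : ℝ → ℝ := (Ioi (0 : ℝ)).indicator g

lemma measurable_gc {g : ℝ → ℝ} (hg : ContinuousOn g (Ioi 0)) : Measurable (gc g) := by
  classical
  have h := hg.measurable_piecewise (g := fun _ => (0 : ℝ)) continuousOn_const measurableSet_Ioi
  have h2 : gc g = (Ioi (0 : ℝ)).piecewise g (fun _ => 0) := by
    unfold gc
    rw [← Set.piecewise_eq_indicator]
    rfl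
  rw [h2]
  exact h

lemma ker_gc {n : ℕ} {g : ℝ → ℝ} {a : ℝ} (ha : 0 < a) (u : E n) :
    Ker n (gc g) a u = Ker n g a u := by
  unfold Ker
  congr 1
  funext ξ
  have h : 0 < Real.sqrt (a ^ 2 + ‖ξ‖ ^ 2) := Real.sqrt_pos.mpr (by positivity)
  rw [gc, indicator_of_mem (show Real.sqrt (a ^ 2 + ‖ξ‖ ^ 2) ∈ Ioi (0 : ℝ) from h)]

lemma measurable_ker {n : ℕ} {g : ℝ → ℝ} (hg : Measurable g) :
    Measurable (fun w : ℝ × E n => Ker n g w.1 w.2) := by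
  have h1 : Measurable (fun q : (ℝ × E n) × E n =>
      e ⟪q.1.2, q.2⟫ * ((g (Real.sqrt (q.1.1 ^ 2 + ‖q.2‖ ^ 2)) : ℝ) : ℂ)) := by
    apply Measurable.mul
    · exact continuous_e.measurable.comp
        ((measurable_fst.snd).inner measurable_snd)
    · exact Complex.measurable_ofReal.comp (hg.comp (Real.continuous_sqrt.measurable.comp
        ((measurable_fst.fst.pow_const 2).add (measurable_snd.norm.pow_const 2))))
  have h2 : StronglyMeasurable (fun w : ℝ × E n => ∫ ξ : E n,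
      e ⟪w.2, ξ⟫ * ((g (Real.sqrt (w.1 ^ 2 + ‖ξ‖ ^ 2)) : ℝ) : ℂ)) :=
    StronglyMeasurable.integral_prod_right (f := fun (w : ℝ × E n) (ξ : E n) =>
      e ⟪w.2, ξ⟫ * ((g (Real.sqrt (w.1 ^ 2 + ‖ξ‖ ^ 2)) : ℝ) : ℂ)) h1.stronglyMeasurable
  exact h2.measurable


lemma s1 {k n : ℕ} {g : ℝ → ℝ} {M : Set (E k)} (hM : MeasurableSet M) (hM0 : ∀ η ∈ M, 0 < ‖η‖)
    (F : E k × E n → ℂ) (z : E k × E n) :
    ‖T k n g M F z‖ₑ ≤ ∫⁻ η in M, ∫⁻ x : E n,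
      ‖Ker n (gc g) ‖η‖ (z.2 - x)‖ₑ * ‖F (η, x)‖ₑ := by
  unfold T
  refine (enorm_integral_le_lintegral_enorm _).trans ?_
  apply setLIntegral_mono' hM
  intro η hη
  rw [enorm_mul, enorm_e, one_mul]
  refine (enorm_integral_le_lintegral_enorm _).trans ?_
  apply lintegral_mono
  intro x
  show ‖Ker n g ‖η‖ (z.2 - x) * F (η, x)‖ₑ ≤
    ‖Ker n (gc g) ‖η‖ (z.2 - x)‖ₑ * ‖F (η, x)‖ₑ
  rw [enorm_mul, ker_gc (hM0 η hη)]

lemma s2 {k n : ℕ} {M : Set (E k)} (A B : E k × E n → ℝ≥0∞) (hA : Measurable A)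
    (hB : Measurable B) :
    ∫⁻ η in M, ∫⁻ x : E n, A (η, x) * B (η, x) =
      ∫⁻ x : E n, ∫⁻ η in M, A (η, x) * B (η, x) :=
  lintegral_lintegral_swap (f := fun (η : E k) (x : E n) => A (η, x) * B (η, x))
    (hA.mul hB).aemeasurable

lemma s3 {k : ℕ} {M : Set (E k)} (A B : E k → ℝ≥0∞) (hA : Measurable A)
    (hB : Measurable B) (ρ : ℝ≥0∞) (hρ : (∫⁻ η in M, B η ^ 2) ^ (1 / 2 : ℝ) ≤ ρ) :
    ∫⁻ η in M, A η * B η ≤ (∫⁻ η in M, A η ^ 2) ^ (1 / 2 : ℝ) * ρ := by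
  have h3 := ENNReal.lintegral_mul_le_Lp_mul_Lq (volume.restrict M)
    (Real.HolderConjugate.two_two) hA.aemeasurable hB.aemeasurable
  simp only [ENNReal.rpow_two] at h3
  refine le_trans h3 ?_
  exact mul_le_mul_right hρ _

lemma s4 {k n : ℕ} {M : Set (E k)} (A : E k × E n → ℝ≥0∞) (hA : Measurable A) (ρ : ℝ≥0∞) :
    ∫⁻ x : E n, (∫⁻ η in M, A (η, x) ^ 2) ^ (1 / 2 : ℝ) * ρ =
      (∫⁻ x : E n, (∫⁻ η in M, A (η, x) ^ 2) ^ (1 / 2 : ℝ)) * ρ := by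
  apply lintegral_mul_const
  apply Measurable.pow_const
  exact Measurable.lintegral_prod_left' (f := fun w : E k × E n => A w ^ 2) (hA.pow_const 2)

lemma s5 {n : ℕ} (f : E n → ℝ≥0∞) (z : E n) : ∫⁻ x : E n, f (z - x) = ∫⁻ u, f u :=
  lintegral_sub_left_eq_self f z


lemma s6 {k n : ℕ} {g : ℝ → ℝ} {M : Set (E k)} (hM : MeasurableSet M)
    (hM0 : ∀ η ∈ M, 0 < ‖η‖) (u : E n) :
    ∫⁻ η in M, ‖Ker n (gc g) ‖η‖ u‖ₑ ^ 2 = ∫⁻ η in M, ‖Ker n g ‖η‖ u‖ₑ ^ 2 := by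
  apply setLIntegral_congr_fun hM
  intro η hη
  show ‖Ker n (gc g) ‖η‖ u‖ₑ ^ 2 = ‖Ker n g ‖η‖ u‖ₑ ^ 2
  rw [ker_gc (hM0 η hη)]

end SUPaux

open SUPaux in
theorem sup_thm : S_SUP := by
  intro k n A Λ R g M Q ρ hk hn hG F hF hQ hρ z
  obtain ⟨hA, hΛ, hgc, hg0, hgA, hM, hMR⟩ := hG
  obtain ⟨hFm, -⟩ := hF
  have hM0 : ∀ η ∈ M, 0 < ‖η‖ := fun η hη => (hMR η hη).1
  have hgm := measurable_gc hgc
  have hKm : Measurable (fun w : E k × E n => ‖Ker n (gc g) ‖w.1‖ (z.2 - w.2)‖ₑ) :=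
    ((measurable_ker (n := n) hgm).comp
      (measurable_fst.norm.prodMk (measurable_const.sub measurable_snd))).enorm
  have hFe : Measurable (fun w : E k × E n => ‖F w‖ₑ) := hFm.enorm
  have t1 := s1 (g := g) hM hM0 F z
  have t2 := s2 (M := M) _ _ hKm hFe
  have t3 : ∀ x : E n, ∫⁻ η in M, ‖Ker n (gc g) ‖η‖ (z.2 - x)‖ₑ * ‖F (η, x)‖ₑ ≤
      (∫⁻ η in M, ‖Ker n (gc g) ‖η‖ (z.2 - x)‖ₑ ^ 2) ^ (1 / 2 : ℝ) * ρ := by
    intro x
    have h1 : Measurable (fun η : E k => ‖Ker n (gc g) ‖η‖ (z.2 - x)‖ₑ) :=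
      Measurable.comp (f := fun η : E k => (η, x)) hKm measurable_prodMk_right
    have h2 : Measurable (fun η : E k => ‖F (η, x)‖ₑ) :=
      Measurable.comp (f := fun η : E k => (η, x)) hFe measurable_prodMk_right
    exact s3 _ _ h1 h2 ρ (hρ x)
  have t4 := s4 (M := M) _ hKm ρ
  have t5 := s5 (fun u : E n => (∫⁻ η in M, ‖Ker n (gc g) ‖η‖ u‖ₑ ^ 2) ^ (1 / 2 : ℝ)) z.2
  have t6 : ∫⁻ u : E n, (∫⁻ η in M, ‖Ker n (gc g) ‖η‖ u‖ₑ ^ 2) ^ (1 / 2 : ℝ) ≤ Q := by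
    refine le_trans (le_of_eq ?_) hQ
    apply lintegral_congr
    intro u
    rw [s6 hM hM0 u]
  refine t1.trans ?_
  refine (le_of_eq t2).trans ?_
  refine (lintegral_mono t3).trans ?_
  refine (le_of_eq t4).trans ?_
  refine (le_of_eq (congrArg (· * ρ) t5)).trans ?_
  exact mul_le_mul_left t6 ρ

end Pool.Agent.R245.WB
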