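import Pool.Agent.R245.WB.Stm

set_option autoImplicit false

/-!
# MP_ee74d2_an, project WB, step TERM: the `L^p` bound for each piece
-/

open MeasureTheory Set
open scoped ENNReal RealInnerProductSpace

namespace Pool.Agent.R245.WB

namespace TERMaux

lemma Mi_meas (k i : ℕ) : MeasurableSet (Mi k i) := by
  cases i with
  | zero =>
    exact (measurableSet_lt measurable_const measurable_norm).inter
      (measurableSet_lt measurable_norm measurable_const)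
  | succ i =>
    exact (measurableSet_le measurable_const measurable_norm).inter
      (measurableSet_lt measurable_norm measurable_const)

lemma Mi_bd (k i : ℕ) (η : E k) (h : η ∈ Mi k i) : 0 < ‖η‖ ∧ ‖η‖ < (2 : ℝ) ^ i := by
  cases i with
  | zero =>
    obtain ⟨h1, h2⟩ := h
    exact ⟨h1, by simpa using h2⟩
  | succ i =>
    obtain ⟨h1, h2⟩ := h
    exact ⟨lt_of_lt_of_le (by positivity) h1, by rw [pow_succ]; linarith⟩

lemma Mi_big (k i j : ℕ) (hij : j + 2 < i) (η : E k) (h : η ∈ Mi k i) :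
    2 * (2 : ℝ) ^ j < ‖η‖ := by
  obtain ⟨i', rfl⟩ : ∃ i', i = i' + 1 := ⟨i - 1, by omega⟩
  obtain ⟨h1, -⟩ := h
  have h0 : (2 : ℝ) ^ (j + 2) ≤ 2 ^ i' := pow_le_pow_right₀ (by norm_num) (by omega)
  have h2 : (2 : ℝ) ^ (j + 2) = 4 * 2 ^ j := by ring
  have h3 : (0 : ℝ) < 2 ^ j := by positivity
  linarith

lemma T_zero (k n : ℕ) (g : ℝ → ℝ) (i j : ℕ) (hij : j + 2 < i)
    (hg : ∀ r, 2 * (2 : ℝ) ^ j < r → g r = 0) (F : E k × E n → ℂ) (z : E k × E n) :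
    T k n g (Mi k i) F z = 0 := by
  unfold T
  refine setIntegral_eq_zero_of_forall_eq_zero fun η hη => ?_
  have hK : ∀ u : E n, Ker n g ‖η‖ u = 0 := by
    intro u
    unfold Ker
    have h0 : ∀ ξ : E n, g (Real.sqrt (‖η‖ ^ 2 + ‖ξ‖ ^ 2)) = 0 := by
      intro ξ
      apply hg
      refine lt_of_lt_of_le (Mi_big k i j hij η hη) ?_
      exact Real.le_sqrt_of_sq_le (by nlinarith [sq_nonneg ‖ξ‖])
    simp [h0]
  simp [hK]

lemma bes_bd (h3 : S_BES) (h4 : S_ADM) (k n : ℕ) (α : ℝ) (hk : 1 ≤ k) (hn : 1 ≤ n)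
    (hα : 0 < α) :
    ∃ C : ℝ, 0 < C ∧ ∀ (f : SchwartzMap (E k × E n) ℂ) (i : ℕ) (x : E n),
    ∫⁻ η in Mi k i, ‖pft k n f (η, x)‖ₑ ^ 2 ≤
      ENNReal.ofReal (C * ((2 : ℝ) ^ i) ^ (-(2 * α))) * bes k α (fun y => f (y, x)) := by
  obtain ⟨C, hC, hB⟩ := h3 k α hk hα
  refine ⟨1 + C * 2 ^ (2 * α), by positivity, fun f i x => ?_⟩
  obtain ⟨-, -, -, hx⟩ := h4 k n f hk hn
  obtain ⟨b1, b2⟩ := hB (fun y => f (y, x)) (hx x).1 (hx x).2
  cases i with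
  | zero =>
    calc ∫⁻ η in Mi k 0, ‖pft k n f (η, x)‖ₑ ^ 2
        ≤ ∫⁻ η, ‖pft k n f (η, x)‖ₑ ^ 2 := setLIntegral_le_lintegral _ _
      _ ≤ bes k α (fun y => f (y, x)) := b1
      _ = ENNReal.ofReal 1 * bes k α (fun y => f (y, x)) := by simp
      _ ≤ _ := by
        gcongr
        have h0 : (0 : ℝ) < C * 2 ^ (2 * α) := by positivity
        rw [pow_zero, Real.one_rpow]
        linarith
  | succ i =>
    calc ∫⁻ η in Mi k (i + 1), ‖pft k n f (η, x)‖ₑ ^ 2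
        ≤ ENNReal.ofReal (C * ((2 : ℝ) ^ i) ^ (-(2 * α))) * bes k α (fun y => f (y, x)) :=
          b2 (2 ^ i) (by positivity)
      _ ≤ _ := by
        refine mul_le_mul_left (ENNReal.ofReal_le_ofReal ?_) _
        have h0 : ((2 : ℝ) ^ (i + 1)) ^ (-(2 * α)) =
            ((2 : ℝ) ^ i) ^ (-(2 * α)) * (2 : ℝ) ^ (-(2 * α)) := by
          rw [pow_succ, Real.mul_rpow (by positivity) (by positivity)]
        have h2 : (2 : ℝ) ^ (2 * α) * (2 : ℝ) ^ (-(2 * α)) = 1 := by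
          rw [← Real.rpow_add (by norm_num)]; simp
        rw [h0]
        have h5 : (0 : ℝ) ≤ ((2 : ℝ) ^ i) ^ (-(2 * α)) * (2 : ℝ) ^ (-(2 * α)) := by positivity
        calc C * ((2 : ℝ) ^ i) ^ (-(2 * α))
            = C * ((2 : ℝ) ^ i) ^ (-(2 * α)) * ((2 : ℝ) ^ (2 * α) * (2 : ℝ) ^ (-(2 * α))) := by
              rw [h2, mul_one]
          _ ≤ _ := by linarith

lemma real_ineq (k n p s α CO CQ C CB B ε : ℝ) (i j : ℕ) (hij : i ≤ j + 2)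
    (hCO : 0 < CO) (hCQ : 0 < CQ) (hC : 0 < C) (hCB : 0 < CB)
    (hB : B = max 0 ((k + 1) * (p - 2) / 2 - α * p))
    (hε : ε = s * p - (n - 1) * (p - 2) / 2 - B) :
    CO * (C * (2 : ℝ) ^ (-(s * j))) ^ (2 : ℝ) *
      (CQ * (C * (2 : ℝ) ^ (-(s * j))) * (5 * 2 ^ i / 2 ^ j) ^ (1 / 2 : ℝ) *
        (2 * 2 ^ j) ^ (n / 2) * (2 ^ i) ^ (k / 2)) ^ (p - 2) *
      (CB * ((2 : ℝ) ^ i) ^ (-(2 * α))) ^ (p / 2) ≤
    CO * CQ ^ (p - 2) * C ^ p * 5 ^ ((p - 2) / 2) * 2 ^ (n * (p - 2) / 2) * CB ^ (p / 2) *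
      2 ^ (2 * B) * 2 ^ (-(ε * j)) := by
  have two : (0 : ℝ) < 2 := by norm_num
  have hi : ((2 : ℝ) ^ i) = (2 : ℝ) ^ (i : ℝ) := (Real.rpow_natCast 2 i).symm
  have hj : ((2 : ℝ) ^ j) = (2 : ℝ) ^ (j : ℝ) := (Real.rpow_natCast 2 j).symm
  -- evaluation of the left side
  have e1 : (C * (2 : ℝ) ^ (-(s * j))) ^ (2 : ℝ) = C ^ (2 : ℝ) * (2 : ℝ) ^ (-(s * j) * 2) := by
    rw [Real.mul_rpow hC.le (by positivity), ← Real.rpow_mul two.le]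
  have e2 : (C * (2 : ℝ) ^ (-(s * j))) ^ (p - 2) =
      C ^ (p - 2) * (2 : ℝ) ^ (-(s * j) * (p - 2)) := by
    rw [Real.mul_rpow hC.le (by positivity), ← Real.rpow_mul two.le]
  have e3 : ((5 * 2 ^ i / 2 ^ j : ℝ) ^ (1 / 2 : ℝ)) ^ (p - 2) =
      5 ^ ((p - 2) / 2) * (2 : ℝ) ^ (((i : ℝ) - j) * ((p - 2) / 2)) := by
    rw [← Real.rpow_mul (by positivity), hi, hj, mul_div_assoc, ← Real.rpow_sub two,
      Real.mul_rpow (by norm_num) (by positivity), ← Real.rpow_mul two.le]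
    congr 2 <;> ring
  have e4 : ((2 * 2 ^ j : ℝ) ^ (n / 2)) ^ (p - 2) =
      2 ^ (n * (p - 2) / 2) * (2 : ℝ) ^ ((j : ℝ) * (n * (p - 2) / 2)) := by
    rw [← Real.rpow_mul (by positivity), hj, Real.mul_rpow (by norm_num) (by positivity),
      ← Real.rpow_mul two.le]
    congr 2 <;> ring
  have e5 : ((2 ^ i : ℝ) ^ (k / 2)) ^ (p - 2) = (2 : ℝ) ^ ((i : ℝ) * (k * (p - 2) / 2)) := by
    rw [← Real.rpow_mul (by positivity), hi, ← Real.rpow_mul two.le]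
    congr 1; ring
  have e6 : (CB * ((2 : ℝ) ^ i) ^ (-(2 * α))) ^ (p / 2) =
      CB ^ (p / 2) * (2 : ℝ) ^ ((i : ℝ) * (-(α * p))) := by
    rw [Real.mul_rpow hCB.le (by positivity), hi, ← Real.rpow_mul two.le, ← Real.rpow_mul two.le]
    congr 2; ring
  have e7 : (CQ * (C * (2 : ℝ) ^ (-(s * j))) * (5 * 2 ^ i / 2 ^ j) ^ (1 / 2 : ℝ) *
        (2 * 2 ^ j) ^ (n / 2) * (2 ^ i) ^ (k / 2)) ^ (p - 2) =
      CQ ^ (p - 2) * (C * (2 : ℝ) ^ (-(s * j))) ^ (p - 2) *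
        ((5 * 2 ^ i / 2 ^ j : ℝ) ^ (1 / 2 : ℝ)) ^ (p - 2) *
        ((2 * 2 ^ j : ℝ) ^ (n / 2)) ^ (p - 2) * ((2 ^ i : ℝ) ^ (k / 2)) ^ (p - 2) := by
    rw [Real.mul_rpow (by positivity) (by positivity), Real.mul_rpow (by positivity) (by positivity),
      Real.mul_rpow (by positivity) (by positivity), Real.mul_rpow (by positivity) (by positivity)]
  have e8 : C ^ p = C ^ (2 : ℝ) * C ^ (p - 2) := by
    rw [← Real.rpow_add hC]; congr 1; ring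
  rw [e7, e1, e2, e3, e4, e5, e6, e8]
  have key : (2 : ℝ) ^ (-(s * j) * 2) * (2 : ℝ) ^ (-(s * j) * (p - 2)) *
      (2 : ℝ) ^ (((i : ℝ) - j) * ((p - 2) / 2)) * (2 : ℝ) ^ ((j : ℝ) * (n * (p - 2) / 2)) *
      (2 : ℝ) ^ ((i : ℝ) * (k * (p - 2) / 2)) * (2 : ℝ) ^ ((i : ℝ) * (-(α * p))) ≤
      (2 : ℝ) ^ (2 * B) * (2 : ℝ) ^ (-(ε * j)) := by
    rw [← Real.rpow_add two, ← Real.rpow_add two, ← Real.rpow_add two, ← Real.rpow_add two,
      ← Real.rpow_add two, ← Real.rpow_add two]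
    apply Real.rpow_le_rpow_of_exponent_le (by norm_num)
    have hij' : (i : ℝ) ≤ j + 2 := by exact_mod_cast hij
    have hi0 : (0 : ℝ) ≤ i := Nat.cast_nonneg i
    have hB0 : 0 ≤ B := by rw [hB]; exact le_max_left _ _
    have hB1 : (k + 1) * (p - 2) / 2 - α * p ≤ B := by rw [hB]; exact le_max_right _ _
    have h9 : (i : ℝ) * ((k + 1) * (p - 2) / 2 - α * p) ≤ (j + 2) * B :=
      (mul_le_mul_of_nonneg_left hB1 hi0).trans (mul_le_mul_of_nonneg_right hij' hB0)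
    rw [hε]
    nlinarith [h9]
  have hK : 0 < CO * CQ ^ (p - 2) * (C ^ (2 : ℝ) * C ^ (p - 2)) * 5 ^ ((p - 2) / 2) *
      2 ^ (n * (p - 2) / 2) * CB ^ (p / 2) := by positivity
  have := mul_le_mul_of_nonneg_left key hK.le
  calc _ = CO * CQ ^ (p - 2) * (C ^ (2 : ℝ) * C ^ (p - 2)) * 5 ^ ((p - 2) / 2) *
      2 ^ (n * (p - 2) / 2) * CB ^ (p / 2) *
      ((2 : ℝ) ^ (-(s * j) * 2) * (2 : ℝ) ^ (-(s * j) * (p - 2)) *
      (2 : ℝ) ^ (((i : ℝ) - j) * ((p - 2) / 2)) * (2 : ℝ) ^ ((j : ℝ) * (n * (p - 2) / 2)) *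
      (2 : ℝ) ^ ((i : ℝ) * (k * (p - 2) / 2)) * (2 : ℝ) ^ ((i : ℝ) * (-(α * p)))) := by ring
    _ ≤ _ := this
    _ = _ := by ring

end TERMaux

open TERMaux in
theorem term_thm (h1 : S_OP) (h2 : S_Q) (h3 : S_BES) (h4 : S_ADM) : S_TERM := by
  intro k n p s α hk hn hn3 hp hs hα hc1 hc2
  have hp0 : 0 < p := by linarith
  obtain ⟨B, hB⟩ : ∃ B : ℝ, B = max 0 (((k : ℝ) + 1) * (p - 2) / 2 - α * p) := ⟨_, rfl⟩
  obtain ⟨ε, hε⟩ : ∃ ε : ℝ, ε = s * p - ((n : ℝ) - 1) * (p - 2) / 2 - B := ⟨_, rfl⟩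
  have hεpos : 0 < ε := by
    have e1 : s * p - ((n : ℝ) - 1) * (p - 2) / 2 =
        p * (s - ((n : ℝ) - 1) * (1 / 2 - 1 / p)) := by field_simp
    have e2 : s * p - ((n : ℝ) - 1) * (p - 2) / 2 - (((k : ℝ) + 1) * (p - 2) / 2 - α * p) =
        p * (s - (((k : ℝ) + n) * (1 / 2 - 1 / p) - α)) := by field_simp; ring
    have e3 : 0 < p * (s - ((n : ℝ) - 1) * (1 / 2 - 1 / p)) :=
      mul_pos hp0 (by linarith)
    have e4 : 0 < p * (s - (((k : ℝ) + n) * (1 / 2 - 1 / p) - α)) :=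
      mul_pos hp0 (by linarith)
    rcases max_choice (0 : ℝ) (((k : ℝ) + 1) * (p - 2) / 2 - α * p) with h | h
    · rw [hε, hB, h]; linarith
    · rw [hε, hB, h]; linarith
  obtain ⟨CO, hCO, hOP⟩ := h1 p hp
  obtain ⟨CQ, hCQ, hQ⟩ := h2 k n hk hn hn3
  obtain ⟨CB, hCB, hBB⟩ := bes_bd h3 h4 k n α hk hn hα
  refine ⟨ε, hεpos, fun C hC => ?_⟩
  refine ⟨CO * CQ ^ (p - 2) * C ^ p * 5 ^ ((p - 2) / 2) * 2 ^ ((n : ℝ) * (p - 2) / 2) *
    CB ^ (p / 2) * 2 ^ (2 * B), by positivity, fun t m g ht1 ht2 hD f j i => ?_⟩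
  obtain ⟨d1, d2, d3, d4, d5, d6⟩ := hD
  by_cases hij : j + 2 < i
  · have hz : ∀ z, T k n (g j) (Mi k i) (pft k n f) z = 0 := fun z =>
      T_zero k n (g j) i j hij (d5 j) _ z
    refine ⟨?_, fun _ => hz⟩
    have h0 : ∀ z, ‖T k n (g j) (Mi k i) (pft k n f) z‖ₑ ^ p = 0 := fun z => by
      rw [hz z, enorm_zero, ENNReal.zero_rpow_of_pos hp0]
    simp only [h0, lintegral_zero]
    exact zero_le
  · refine ⟨?_, fun h => absurd h hij⟩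
    have hij' : i ≤ j + 2 := by omega
    have hA : 0 < C * (2 : ℝ) ^ (-(s * j)) := by positivity
    have h2i : (1 : ℝ) ≤ 2 ^ i := one_le_pow₀ (by norm_num)
    have h2j : (0 : ℝ) < 2 ^ j := by positivity
    have h2ij : (2 : ℝ) ^ i ≤ 4 * 2 ^ j := by
      have h0 : (2 : ℝ) ^ i ≤ 2 ^ (j + 2) := pow_le_pow_right₀ (by norm_num) hij'
      have h5 : (2 : ℝ) ^ (j + 2) = 4 * 2 ^ j := by ring
      linarith
    have hδ : (0 : ℝ) < 5 * 2 ^ i / 2 ^ j := by positivity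
    have hδ20 : (5 * 2 ^ i / 2 ^ j : ℝ) ≤ 20 := by
      rw [div_le_iff₀ h2j]; linarith
    have hH : ∀ a r, 0 < a → a < (2 : ℝ) ^ i → a ≤ r →
        |H n t a (g j) r| ≤ C * (2 : ℝ) ^ (-(s * j)) * (5 * 2 ^ i / 2 ^ j) := by
      intro a r ha haR har
      refine (d6 j a r ha har).trans ?_
      refine mul_le_mul_of_nonneg_left ?_ hA.le
      have h5 : a ^ 2 ≤ (2 : ℝ) ^ i * (4 * 2 ^ j) := by
        calc a ^ 2 = a * a := by ring
          _ ≤ 2 ^ i * 2 ^ i := mul_le_mul haR.le haR.le ha.le (by positivity)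
          _ ≤ 2 ^ i * (4 * 2 ^ j) := by gcongr
      have h6 : a ^ 2 / ((2 : ℝ) ^ j) ^ 2 ≤ 4 * 2 ^ i / 2 ^ j := by
        rw [div_le_div_iff₀ (by positivity) h2j]
        nlinarith
      have h7 : (1 : ℝ) / 2 ^ j ≤ 2 ^ i / 2 ^ j := by gcongr
      calc a ^ 2 / ((2 : ℝ) ^ j) ^ 2 + 1 / 2 ^ j ≤ 4 * 2 ^ i / 2 ^ j + 2 ^ i / 2 ^ j :=
            add_le_add h6 h7
        _ = 5 * 2 ^ i / 2 ^ j := by ring
    have hg3 : ∀ r, 0 < r → |g j r| ≤ C * (2 : ℝ) ^ (-(s * j)) := fun r hr => d3 r hr j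
    have hQ' := hQ t (C * (2 : ℝ) ^ (-(s * j))) (5 * 2 ^ i / 2 ^ j) (2 * 2 ^ j) (2 ^ i) (g j)
      (Mi k i) ht1 ht2 hδ hδ20 hA.le (by positivity) (by positivity) (d1 j) (d5 j) hg3 hH
      (Mi_meas k i) (Mi_bd k i)
    have hO := hOP k n (C * (2 : ℝ) ^ (-(s * j))) (2 * 2 ^ j) (2 ^ i) _ (g j) (Mi k i) hk hn
      ⟨hA.le, by positivity, (d1 j).continuousOn, d5 j, hg3, Mi_meas k i, Mi_bd k i⟩ hA
      (by positivity) (pft k n f) (h4 k n f hk hn).1 hQ'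
    refine hO.trans ?_
    have hin : ∫⁻ x, (∫⁻ η in Mi k i, ‖pft k n f (η, x)‖ₑ ^ 2) ^ (p / 2) ≤
        ENNReal.ofReal ((CB * ((2 : ℝ) ^ i) ^ (-(2 * α))) ^ (p / 2)) *
          ∫⁻ x, (bes k α fun y => f (y, x)) ^ (p / 2) := by
      rw [← lintegral_const_mul' _ _ ENNReal.ofReal_ne_top]
      refine lintegral_mono fun x => ?_
      calc (∫⁻ η in Mi k i, ‖pft k n f (η, x)‖ₑ ^ 2) ^ (p / 2)
          ≤ (ENNReal.ofReal (CB * ((2 : ℝ) ^ i) ^ (-(2 * α))) *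
            bes k α (fun y => f (y, x))) ^ (p / 2) :=
            ENNReal.rpow_le_rpow (hBB f i x) (by positivity)
        _ = _ := by
          rw [ENNReal.mul_rpow_of_nonneg _ _ (by positivity),
            ENNReal.ofReal_rpow_of_pos (by positivity)]
    refine (mul_le_mul_right hin _).trans ?_
    rw [← mul_assoc, ← ENNReal.ofReal_mul (by positivity)]
    refine mul_le_mul_left (ENNReal.ofReal_le_ofReal ?_) _
    exact real_ineq k n p s α CO CQ C CB B ε i j hij' hCO hCQ hC hCB hB hε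

end Pool.Agent.R245.WB
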