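import Pool.Agent.R245.WB.Stm

/-! TM (helper865): measurability and additivity of the operator `T`. -/

set_option autoImplicit false

open MeasureTheory Set
open scoped ENNReal RealInnerProductSpace

namespace Pool.Agent.R245.WB

namespace TMaux

lemma e_cont : Continuous e := by
  unfold e
  fun_prop

lemma e_norm (x : ℝ) : ‖e x‖ = 1 := by
  unfold e
  exact Complex.norm_exp_ofReal_mul_I _

lemma ker_congr (n : ℕ) (g g' : ℝ → ℝ) (h : ∀ r, 0 < r → g' r = g r) (a : ℝ) (ha : 0 < a)
    (u : E n) : Ker n g' a u = Ker n g a u := by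
  unfold Ker
  refine integral_congr_ae (Filter.Eventually.of_forall fun ξ => ?_)
  simp only
  rw [h _ (Real.sqrt_pos.mpr (by positivity))]

lemma T_congr (k n : ℕ) (g g' : ℝ → ℝ) (h : ∀ r, 0 < r → g' r = g r) (M : Set (E k))
    (hM : MeasurableSet M) (hM0 : ∀ η ∈ M, 0 < ‖η‖) (F : E k × E n → ℂ) (z : E k × E n) :
    T k n g' M F z = T k n g M F z := by
  unfold T
  refine setIntegral_congr_fun hM fun η hη => ?_
  show e ⟪z.1, η⟫ * (∫ x : E n, Ker n g' ‖η‖ (z.2 - x) * F (η, x)) =
    e ⟪z.1, η⟫ * (∫ x : E n, Ker n g ‖η‖ (z.2 - x) * F (η, x))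
  congr 1
  refine integral_congr_ae (Filter.Eventually.of_forall fun x => ?_)
  show Ker n g' ‖η‖ (z.2 - x) * F (η, x) = Ker n g ‖η‖ (z.2 - x) * F (η, x)
  rw [ker_congr n g g' h _ (hM0 η hη)]

lemma ker_meas (n : ℕ) (g : ℝ → ℝ) (hg : Measurable g) :
    Measurable (fun p : ℝ × E n => Ker n g p.1 p.2) := by
  have h1 : Measurable (Function.uncurry fun (p : ℝ × E n) (ξ : E n) =>
      e ⟪p.2, ξ⟫ * ((g (Real.sqrt (p.1 ^ 2 + ‖ξ‖ ^ 2)) : ℝ) : ℂ)) := by
    refine Measurable.mul ?_ ?_
    · exact (e_cont.comp (f := fun w : (ℝ × E n) × E n => ⟪w.1.2, w.2⟫) (by fun_prop)).measurable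
    · refine Complex.measurable_ofReal.comp (hg.comp
        (f := fun w : (ℝ × E n) × E n => Real.sqrt (w.1.1 ^ 2 + ‖w.2‖ ^ 2)) ?_)
      exact Continuous.measurable (by fun_prop)
  exact h1.stronglyMeasurable.integral_prod_right.measurable

lemma inner_meas (k n : ℕ) (g : ℝ → ℝ) (hg : Measurable g) (F : E k × E n → ℂ)
    (hF : Measurable F) : Measurable (fun q : (E k × E n) × E k =>
      ∫ x : E n, Ker n g ‖q.2‖ (q.1.2 - x) * F (q.2, x)) := by
  have h1 : Measurable (Function.uncurry fun (q : (E k × E n) × E k) (x : E n) =>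
      Ker n g ‖q.2‖ (q.1.2 - x) * F (q.2, x)) := by
    refine Measurable.mul ?_ ?_
    · exact (ker_meas n g hg).comp
        (f := fun w : ((E k × E n) × E k) × E n => ((‖w.1.2‖ : ℝ), w.1.1.2 - w.2))
        (Continuous.measurable (by fun_prop))
    · exact hF.comp (f := fun w : ((E k × E n) × E k) × E n => (w.1.2, w.2)) (by fun_prop)
  exact h1.stronglyMeasurable.integral_prod_right.measurable

lemma T_meas (k n : ℕ) (g : ℝ → ℝ) (hg : Measurable g) (M : Set (E k)) (F : E k × E n → ℂ)
    (hF : Measurable F) : Measurable (T k n g M F) := by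
  have h1 : Measurable (Function.uncurry fun (z : E k × E n) (η : E k) =>
      e ⟪z.1, η⟫ * ∫ x : E n, Ker n g ‖η‖ (z.2 - x) * F (η, x)) := by
    refine Measurable.mul ?_ ?_
    · exact (e_cont.comp (f := fun w : (E k × E n) × E k => ⟪w.1.1, w.2⟫) (by fun_prop)).measurable
    · exact inner_meas k n g hg F hF
  exact (h1.stronglyMeasurable.integral_prod_right (ν := volume.restrict M)).measurable

lemma ker_bd (n : ℕ) (g : ℝ → ℝ) (A Λ : ℝ) (_hA : 0 ≤ A) (_hΛ : 0 < Λ) (h0 : ∀ r, Λ < r → g r = 0)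
    (hb : ∀ r, 0 < r → |g r| ≤ A) (a : ℝ) (ha : 0 < a) (u : E n) :
    ‖Ker n g a u‖ ≤ (volume (Metric.closedBall (0 : E n) Λ)).toReal * A := by
  have hi : Integrable (indicator (Metric.closedBall (0 : E n) Λ) (fun _ => A)) := by
    rw [integrable_indicator_iff Metric.isClosed_closedBall.measurableSet]
    exact integrableOn_const (measure_closedBall_lt_top.ne)
  have h1 := norm_integral_le_of_norm_le (f := fun ξ : E n =>
    e ⟪u, ξ⟫ * ((g (Real.sqrt (a ^ 2 + ‖ξ‖ ^ 2)) : ℝ) : ℂ)) hi
    (Filter.Eventually.of_forall fun ξ => by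
      rw [norm_mul, e_norm, one_mul, Complex.norm_real, Real.norm_eq_abs]
      by_cases hξ : ξ ∈ Metric.closedBall (0 : E n) Λ
      · rw [indicator_of_mem hξ]
        exact hb _ (Real.sqrt_pos.mpr (by positivity))
      · rw [indicator_of_notMem hξ, h0, abs_zero]
        rw [Metric.mem_closedBall, dist_zero_right, not_le] at hξ
        refine lt_of_lt_of_le hξ ?_
        apply Real.le_sqrt_of_sq_le
        nlinarith [sq_nonneg a])
  rw [integral_indicator_const _ Metric.isClosed_closedBall.measurableSet] at h1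
  exact h1

lemma fib_int (k n : ℕ) (g : ℝ → ℝ) (hg : Measurable g) (B : ℝ)
    (hB : ∀ a u, 0 < a → ‖Ker n g a u‖ ≤ B) (F : E k × E n → ℂ) (hF : Measurable F)
    (h : E n → ℝ) (hh : Integrable h) (hFh : ∀ η x, ‖F (η, x)‖ ≤ h x) (η : E k) (hη : 0 < ‖η‖)
    (y : E n) : Integrable (fun x : E n => Ker n g ‖η‖ (y - x) * F (η, x)) ∧
      ‖∫ x : E n, Ker n g ‖η‖ (y - x) * F (η, x)‖ ≤ ∫ x, B * h x := by
  have hm : Measurable (fun x : E n => Ker n g ‖η‖ (y - x) * F (η, x)) := by
    refine Measurable.mul ?_ ?_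
    · exact (ker_meas n g hg).comp (f := fun x : E n => ((‖η‖ : ℝ), y - x))
        (Continuous.measurable (by fun_prop))
    · exact hF.comp (f := fun x : E n => (η, x)) (by fun_prop)
  have hbd : ∀ x : E n, ‖Ker n g ‖η‖ (y - x) * F (η, x)‖ ≤ B * h x := by
    intro x
    rw [norm_mul]
    have h1 := hB ‖η‖ (y - x) hη
    have h2 := hFh η x
    exact mul_le_mul h1 h2 (norm_nonneg _) ((norm_nonneg _).trans h1)
  refine ⟨(hh.const_mul B).mono' hm.aestronglyMeasurable (Filter.Eventually.of_forall hbd), ?_⟩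
  exact norm_integral_le_of_norm_le (hh.const_mul B) (Filter.Eventually.of_forall hbd)

end TMaux

open TMaux in
theorem tm_thm : S_TM := by
  classical
  intro k n A Λ R g M hk hn hG
  obtain ⟨hA, hΛ, hgc, hg0, hgb, hM, hMη⟩ := hG
  set g' : ℝ → ℝ := (Ioi (0:ℝ)).piecewise g (fun _ => 0) with hg'
  have hg'm : Measurable g' := hgc.measurable_piecewise continuousOn_const measurableSet_Ioi
  have hgg : ∀ r, 0 < r → g' r = g r := fun r hr => piecewise_eq_of_mem _ _ _ hr
  have hM0 : ∀ η ∈ M, 0 < ‖η‖ := fun η hη => (hMη η hη).1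
  have hT : ∀ F z, T k n g M F z = T k n g' M F z :=
    fun F z => (T_congr k n g g' hgg M hM hM0 F z).symm
  constructor
  · intro F hF
    have : T k n g M F = T k n g' M F := funext (hT F)
    rw [this]
    exact T_meas k n g' hg'm M F hF.1
  · intro F F' hF hF' z
    rw [hT, hT, hT]
    obtain ⟨hFm, h, b, hh, _, hFh⟩ := hF
    obtain ⟨hFm', h', b', hh', _, hFh'⟩ := hF'
    set B : ℝ := (volume (Metric.closedBall (0 : E n) Λ)).toReal * A with hB
    have hBd : ∀ a u, 0 < a → ‖Ker n g' a u‖ ≤ B := by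
      intro a u ha
      rw [ker_congr n g g' hgg a ha u]
      exact ker_bd n g A Λ hA hΛ hg0 hgb a ha u
    have hMfin : volume M ≠ ⊤ := by
      refine ne_top_of_le_ne_top
        (measure_ball_lt_top (μ := (volume : Measure (E k))) (x := (0 : E k)) (r := R)).ne ?_
      refine measure_mono fun η hη => ?_
      rw [Metric.mem_ball, dist_zero_right]
      exact (hMη η hη).2
    have hInt : ∀ (G : E k × E n → ℂ) (w : E n → ℝ), Measurable G → Integrable w →
        (∀ η x, ‖G (η, x)‖ ≤ w x) →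
        IntegrableOn (fun η => e ⟪z.1, η⟫ * ∫ x : E n, Ker n g' ‖η‖ (z.2 - x) * G (η, x)) M := by
      intro G w hGm hw hGw
      refine Measure.integrableOn_of_bounded (M := ∫ x, B * w x) hMfin ?_ ?_
      · refine Measurable.aestronglyMeasurable (Measurable.mul ?_ ?_)
        · exact (e_cont.comp (f := fun η : E k => ⟪z.1, η⟫) (by fun_prop)).measurable
        · exact (inner_meas k n g' hg'm G hGm).comp (f := fun η : E k => (z, η)) (by fun_prop)
      · rw [ae_restrict_iff' hM]
        refine Filter.Eventually.of_forall fun η hη => ?_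
        rw [norm_mul, e_norm, one_mul]
        exact (fib_int k n g' hg'm B hBd G hGm w hw hGw η (hM0 η hη) z.2).2
    unfold T
    rw [← integral_add (hInt F h hFm hh hFh) (hInt F' h' hFm' hh' hFh')]
    refine setIntegral_congr_fun hM fun η hη => ?_
    simp only
    rw [← mul_add, ← integral_add
      (fib_int k n g' hg'm B hBd F hFm h hh hFh η (hM0 η hη) z.2).1
      (fib_int k n g' hg'm B hBd F' hFm' h' hh' hFh' η (hM0 η hη) z.2).1]
    congr 1
    refine integral_congr_ae (Filter.Eventually.of_forall fun x => ?_)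
    simp only
    ring

end Pool.Agent.R245.WB
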