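import Pool.Agent.R245.WB.Stm

set_option autoImplicit false

/-!
# MP_ee74d2_an, project WB, piece WT: the integral of the inverse of the weight
-/

open MeasureTheory Set
open scoped ENNReal RealInnerProductSpace

namespace Pool.Agent.R245.WB

namespace WTaux

lemma key {y t δ : ℝ} (hy : 0 < y) (ht1 : 1 ≤ t) (ht2 : t ≤ 2) (hδ : 0 < δ) (hδ' : δ ≤ 20) :
    (1 + y ^ 2) * (δ ^ 2 + (y - t) ^ 2) ≤ 118 * (δ ^ 2 + (y ^ 2 - t ^ 2) ^ 2) := by
  have h1 : (1 + y ^ 2) * (y - t) ^ 2 ≤ (y ^ 2 - t ^ 2) ^ 2 := by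
    have e : (y ^ 2 - t ^ 2) ^ 2 = (y + t) ^ 2 * (y - t) ^ 2 := by ring
    rw [e]
    have h : 1 + y ^ 2 ≤ (y + t) ^ 2 := by nlinarith
    exact mul_le_mul_of_nonneg_right h (sq_nonneg _)
  have h2 : (1 + y ^ 2) * δ ^ 2 ≤ 17 * δ ^ 2 + 100 * (y ^ 2 - t ^ 2) ^ 2 := by
    rcases le_total y 4 with h4 | h4
    · have h5 : 1 + y ^ 2 ≤ 17 := by nlinarith
      have h6 := mul_le_mul_of_nonneg_right h5 (sq_nonneg δ)
      have h7 := sq_nonneg (y ^ 2 - t ^ 2)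
      linarith
    · have h5 : δ ^ 2 ≤ 400 := by nlinarith
      have h6 : 2 * y ≤ y ^ 2 - t ^ 2 := by nlinarith
      have h7 : 4 * y ^ 2 ≤ (y ^ 2 - t ^ 2) ^ 2 := by nlinarith
      have h8 := mul_le_mul_of_nonneg_left h5 (sq_nonneg y)
      nlinarith [sq_nonneg δ]
  have h3 := sq_nonneg (y ^ 2 - t ^ 2)
  have h4 := sq_nonneg δ
  nlinarith

lemma pow_le {n : ℕ} (hn : 1 ≤ n) (hn3 : n ≤ 3) {y : ℝ} (hy : 0 < y) :
    y ^ (n - 1) ≤ 1 + y ^ 2 := by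
  interval_cases n
  · simp; positivity
  · simp; nlinarith [sq_nonneg (y - 1)]
  · simp

/-- the majorant -/
noncomputable def psi (t δ y : ℝ) : ℝ := (δ ^ 2 + (y - t) ^ 2)⁻¹

lemma psi_eq {t δ : ℝ} (hδ : 0 < δ) (y : ℝ) :
    psi t δ y = (δ ^ 2)⁻¹ * (1 + ((y - t) / δ) ^ 2)⁻¹ := by
  unfold psi
  rw [← mul_inv]
  congr 1
  field_simp

lemma psi_int {t δ : ℝ} (hδ : 0 < δ) : Integrable (psi t δ) := by
  have h1 : Integrable (fun y : ℝ => (1 + (y / δ) ^ 2)⁻¹) :=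
    integrable_inv_one_add_sq.comp_div hδ.ne'
  have h2 := (h1.comp_sub_right t).const_mul ((δ ^ 2)⁻¹)
  refine h2.congr (Filter.Eventually.of_forall fun y => ?_)
  rw [psi_eq hδ]

lemma psi_integral {t δ : ℝ} (hδ : 0 < δ) : ∫ y, psi t δ y = Real.pi / δ := by
  have h1 : ∫ y : ℝ, (1 + ((y - t) / δ) ^ 2)⁻¹ = δ * Real.pi := by
    rw [integral_sub_right_eq_self (fun y : ℝ => (1 + (y / δ) ^ 2)⁻¹) t,
      Measure.integral_comp_div (fun y : ℝ => (1 + y ^ 2)⁻¹) δ, integral_univ_inv_one_add_sq,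
      abs_of_pos hδ, smul_eq_mul]
  calc ∫ y, psi t δ y = ∫ y : ℝ, (δ ^ 2)⁻¹ * (1 + ((y - t) / δ) ^ 2)⁻¹ := by
        congr 1
        funext y
        exact psi_eq hδ y
    _ = (δ ^ 2)⁻¹ * (δ * Real.pi) := by rw [integral_const_mul, h1]
    _ = Real.pi / δ := by field_simp

lemma psi_pos {t δ : ℝ} (hδ : 0 < δ) (y : ℝ) : 0 < psi t δ y := by
  unfold psi
  positivity

/-- the integrand in one variable -/
noncomputable def phi (t δ y : ℝ) : ℝ := (δ ^ 2 + (y ^ 2 - t ^ 2) ^ 2)⁻¹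

lemma phi_pos {t δ : ℝ} (hδ : 0 < δ) (y : ℝ) : 0 < phi t δ y := by
  unfold phi
  positivity

lemma bound {n : ℕ} (hn : 1 ≤ n) (hn3 : n ≤ 3) {y t δ : ℝ} (hy : 0 < y) (ht1 : 1 ≤ t)
    (ht2 : t ≤ 2) (hδ : 0 < δ) (hδ' : δ ≤ 20) :
    y ^ (n - 1) * phi t δ y ≤ 118 * psi t δ y := by
  have h1 : 0 < δ ^ 2 + (y ^ 2 - t ^ 2) ^ 2 := by positivity
  have h2 : 0 < δ ^ 2 + (y - t) ^ 2 := by positivity
  unfold phi psi
  rw [← div_eq_mul_inv, ← div_eq_mul_inv, div_le_div_iff₀ h1 h2]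
  calc y ^ (n - 1) * (δ ^ 2 + (y - t) ^ 2) ≤ (1 + y ^ 2) * (δ ^ 2 + (y - t) ^ 2) :=
        mul_le_mul_of_nonneg_right (pow_le hn hn3 hy) h2.le
    _ ≤ _ := key hy ht1 ht2 hδ hδ'

lemma phi_meas (t δ : ℝ) : Measurable (phi t δ) := by
  unfold phi
  fun_prop

lemma int1 {n : ℕ} (hn : 1 ≤ n) (hn3 : n ≤ 3) {t δ : ℝ} (ht1 : 1 ≤ t)
    (ht2 : t ≤ 2) (hδ : 0 < δ) (hδ' : δ ≤ 20) :
    IntegrableOn (fun y : ℝ => y ^ (n - 1) * phi t δ y) (Ioi 0) := by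
  have h1 : IntegrableOn (fun y : ℝ => 118 * psi t δ y) (Ioi 0) :=
    ((psi_int hδ).const_mul 118).integrableOn
  refine Integrable.mono' h1 ?_ ?_
  · exact ((measurable_id.pow_const _).mul (phi_meas t δ)).aestronglyMeasurable
  · refine (ae_restrict_iff' measurableSet_Ioi).2 (Filter.Eventually.of_forall fun y hy => ?_)
    have hy' : 0 < y := hy
    rw [Real.norm_of_nonneg (mul_nonneg (pow_nonneg hy'.le _) (phi_pos hδ y).le)]
    exact bound hn hn3 hy' ht1 ht2 hδ hδ'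

lemma int2 {n : ℕ} (hn : 1 ≤ n) (hn3 : n ≤ 3) {t δ : ℝ} (ht1 : 1 ≤ t)
    (ht2 : t ≤ 2) (hδ : 0 < δ) (hδ' : δ ≤ 20) :
    ∫ y in Ioi (0 : ℝ), y ^ (n - 1) * phi t δ y ≤ 118 * (Real.pi / δ) := by
  have h1 : Integrable (fun y : ℝ => 118 * psi t δ y) := (psi_int hδ).const_mul 118
  calc ∫ y in Ioi (0 : ℝ), y ^ (n - 1) * phi t δ y ≤ ∫ y in Ioi (0 : ℝ), 118 * psi t δ y :=
        setIntegral_mono_on (int1 hn hn3 ht1 ht2 hδ hδ') h1.integrableOn measurableSet_Ioi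
          (fun y hy => bound hn hn3 hy ht1 ht2 hδ hδ')
    _ ≤ ∫ y : ℝ, 118 * psi t δ y :=
        setIntegral_le_integral h1 (Filter.Eventually.of_forall fun y =>
          mul_nonneg (by norm_num) (psi_pos hδ y).le)
    _ = 118 * (Real.pi / δ) := by rw [integral_const_mul, psi_integral hδ]

end WTaux

open WTaux

theorem wt_thm : S_WT := by
  intro n hn hn3
  have hfr : Module.finrank ℝ (E n) = n := finrank_euclideanSpace_fin
  have : Nontrivial (E n) := Module.nontrivial_of_finrank_pos (R := ℝ) (by rw [hfr]; omega)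
  set c : ℝ := (n : ℝ) * (volume : Measure (E n)).real (Metric.ball 0 1) with hc
  have hc0 : 0 ≤ c := by positivity
  refine ⟨c * (118 * Real.pi) + 1, by positivity, ?_⟩
  intro t δ ht1 ht2 hδ hδ'
  have hint : Integrable (fun u : E n => phi t δ ‖u‖) := by
    rw [integrable_fun_norm_addHaar (volume : Measure (E n)) (f := phi t δ), hfr]
    simpa [smul_eq_mul] using int1 hn hn3 ht1 ht2 hδ hδ'
  have hI : ∫ u : E n, phi t δ ‖u‖ ≤ c * (118 * (Real.pi / δ)) := by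
    rw [integral_fun_norm_addHaar (volume : Measure (E n)) (phi t δ), hfr]
    simp only [nsmul_eq_mul, smul_eq_mul]
    rw [← mul_assoc]
    exact mul_le_mul_of_nonneg_left (int2 hn hn3 ht1 ht2 hδ hδ') hc0
  have h1 : ∫⁻ u : E n, (ENNReal.ofReal (δ ^ 2 + (‖u‖ ^ 2 - t ^ 2) ^ 2))⁻¹ =
      ∫⁻ u : E n, ENNReal.ofReal (phi t δ ‖u‖) := by
    refine lintegral_congr fun u => ?_
    unfold phi
    rw [ENNReal.ofReal_inv_of_pos (by positivity)]
  rw [h1, ← ofReal_integral_eq_lintegral_ofReal hint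
    (Filter.Eventually.of_forall fun u => (phi_pos hδ _).le)]
  apply ENNReal.ofReal_le_ofReal
  refine hI.trans ?_
  rw [add_div]
  have : 0 ≤ 1 / δ := by positivity
  calc c * (118 * (Real.pi / δ)) = c * (118 * Real.pi) / δ := by ring
    _ ≤ _ := by linarith

end Pool.Agent.R245.WB
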